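import Pool.Agent.N422.LG.Stm
import Pool.Agent.N422.NW.MER

/-! LG/MERB: Mertens' theorems with bounded errors (helper80). -/

set_option autoImplicit false

open Finset Pool.Agent.N422.NW Pool.Agent.N422.SL Pool.Agent.N422.WS

namespace Pool.Agent.N422.LG

theorem MERB_fac {p : ℕ} (hp : p.Prime) : 0 < 1 - 1 / (p : ℝ) := by
  have h1 : (1 : ℝ) < p := by exact_mod_cast hp.one_lt
  have h2 : 1 / (p : ℝ) < 1 := by
    rw [div_lt_one (by linarith)]
    exact h1
  linarith

theorem MERB_pos (Q : ℕ) : 0 < VV Q :=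
  prod_pos fun _ hp => MERB_fac (mem_filter.1 hp).2

theorem MERB_log (Q : ℕ) : ∑ p ∈ (Icc 1 Q).filter Nat.Prime, 1 / (p : ℝ) ≤ Real.log (VV Q)⁻¹ := by
  rw [Real.log_inv, VV, Real.log_prod (fun p hp => (MERB_fac (mem_filter.1 hp).2).ne'),
    ← sum_neg_distrib]
  refine sum_le_sum fun p hp => ?_
  have := Real.log_le_sub_one_of_pos (MERB_fac (mem_filter.1 hp).2)
  linarith

theorem MERB_log3 : 1 ≤ Real.log 3 := by
  rw [Real.le_log_iff_exp_le (by norm_num)]
  have := Real.exp_one_lt_d9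
  linarith

theorem t_MERB : S_MERB := by
  obtain ⟨-, C, hC, h⟩ := t_VQ
  have hC' : 0 < 2 * C := by linarith
  have hmain : ∀ Q : ℕ, 3 ≤ Q → 1 ≤ Real.log (Q : ℝ) ∧ (VV Q)⁻¹ ≤ 2 * C * Real.log Q := by
    intro Q hQ
    have hl : 1 ≤ Real.log (Q : ℝ) :=
      MERB_log3.trans (Real.log_le_log (by norm_num) (by exact_mod_cast hQ))
    refine ⟨hl, (h Q (by omega)).trans ?_⟩
    nlinarith
  refine ⟨2 * C + |Real.log (2 * C)|, by positivity, fun Q hQ => ?_⟩
  obtain ⟨hl, h1⟩ := hmain Q hQ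
  have hl0 : 0 < Real.log (Q : ℝ) := by linarith
  constructor
  · refine (MERB_log Q).trans ?_
    have h2 := Real.log_le_log (inv_pos.2 (MERB_pos Q)) h1
    rw [Real.log_mul hC'.ne' hl0.ne'] at h2
    have h3 := le_abs_self (Real.log (2 * C))
    linarith
  · rw [div_le_iff₀ (by positivity)]
    have h2 : 1 ≤ VV Q * (2 * C * Real.log Q) := by
      have := mul_le_mul_of_nonneg_left h1 (MERB_pos Q).le
      rwa [mul_inv_cancel₀ (MERB_pos Q).ne'] at this
    refine h2.trans (mul_le_mul_of_nonneg_left ?_ (MERB_pos Q).le)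
    refine mul_le_mul_of_nonneg_right ?_ hl0.le
    have := abs_nonneg (Real.log (2 * C))
    linarith

end Pool.Agent.N422.LG
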