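import Pool.Agent.N422.LG.Stm2
import Pool.Agent.N422.LG.MERB
import Pool.Agent.Y246.RZ.SV3

/-!
LG/LIN2: the linear sieve lower bound with exponent `2 + eps` (helper31 for the project LG of
helper422). The core follows `Pool.Agent.Y246.RZ.core3` (helper246) and `Pool.Agent.Y660.RP.core`
(helper660), with general exponents.
-/

set_option autoImplicit false

namespace Pool.Agent.N422.LG.LIN2

open Finset Pool.Agent.W23.DC Filter Pool.Agent.Y660.RP

theorem exJg (ε κ : ℝ) (hε : 0 < ε) (hε1 : ε ≤ 1) (n : ℕ) (hn : 2 * ε * n ≤ κ) :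
    ∃ N₀ : ℕ, ∀ N : ℕ, N₀ ≤ N → ∃ J : ℕ,
      (∀ p : ℕ, (p : ℝ) < (N : ℝ) ^ ε → p ≤ 2 ^ 2 ^ J) ∧
      (((2 ^ 2 ^ J) ^ n : ℕ) : ℝ) ≤ (N : ℝ) ^ κ ∧ 2 * ((J : ℝ) + 2) ≤ Real.log N := by
  classical
  obtain ⟨N₁, h1⟩ := ev_rpow ε hε 2
  obtain ⟨N₂, h2⟩ := ev_log 16
  refine ⟨max (max N₁ N₂) 2, fun N hN => ?_⟩
  have hNN₁ : N₁ ≤ N := ((le_max_left _ _).trans (le_max_left _ _)).trans hN
  have hNN₂ : N₂ ≤ N := ((le_max_right _ _).trans (le_max_left _ _)).trans hN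
  have hN2 : 2 ≤ N := (le_max_right _ _).trans hN
  have hy := h1 N hNN₁
  have hl := h2 N hNN₂
  have hNr : (1 : ℝ) ≤ N := by exact_mod_cast (by omega : 1 ≤ N)
  set y : ℝ := (N : ℝ) ^ ε with hyd
  have hex : ∃ J : ℕ, y ≤ (2 : ℝ) ^ (2 ^ J) := by
    obtain ⟨m, hm⟩ := pow_unbounded_of_one_lt y (one_lt_two : (1 : ℝ) < 2)
    refine ⟨m, hm.le.trans ?_⟩
    exact pow_le_pow_right₀ (by norm_num) (Nat.lt_two_pow_self).le
  have hJ := Nat.find_spec hex
  rcases hJ0 : Nat.find hex with _ | j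
  · rw [hJ0] at hJ
    norm_num at hJ
    linarith
  · have hj : (2 : ℝ) ^ (2 ^ j) < y := by
      have := Nat.find_min hex (show j < Nat.find hex by omega)
      exact not_le.1 this
    rw [hJ0] at hJ
    refine ⟨j + 1, ?_, ?_, ?_⟩
    · intro p hp
      have : (p : ℝ) ≤ ((2 ^ 2 ^ (j + 1) : ℕ) : ℝ) := by
        push_cast
        linarith
      exact_mod_cast this
    · have e1 : (2 : ℝ) ^ (2 ^ (j + 1)) = ((2 : ℝ) ^ (2 ^ j)) ^ 2 := by
        rw [← pow_mul]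
        congr 1
      have e2 : (2 : ℝ) ^ (2 ^ (j + 1)) ≤ y ^ 2 := by
        rw [e1]
        exact pow_le_pow_left₀ (by positivity) hj.le 2
      push_cast
      calc ((2 : ℝ) ^ (2 ^ (j + 1))) ^ n ≤ (y ^ 2) ^ n := pow_le_pow_left₀ (by positivity) e2 n
        _ = (N : ℝ) ^ (2 * ε * n) := by
          rw [hyd, ← Real.rpow_natCast, ← Real.rpow_natCast, ← Real.rpow_mul (by linarith),
            ← Real.rpow_mul (by linarith)]
          congr 1
          push_cast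
          ring
        _ ≤ (N : ℝ) ^ κ := Real.rpow_le_rpow_of_exponent_le hNr hn
    · have e1 : (2 : ℝ) ^ j * Real.log 2 < ε * Real.log N := by
        have := Real.log_lt_log (by positivity) hj
        rw [Real.log_pow, hyd, Real.log_rpow (by linarith)] at this
        push_cast at this
        exact this
      have e2 : ε * Real.log N ≤ Real.log N := by nlinarith
      have e3 : (2 : ℝ) ^ j < 2 * Real.log N := by
        have := Real.log_two_gt_d9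
        have h3 : (0 : ℝ) < 2 ^ j := by positivity
        nlinarith
      rcases lt_or_ge j 5 with h5 | h5
      · have : (j : ℝ) ≤ 4 := by exact_mod_cast (by omega : j ≤ 4)
        push_cast
        linarith
      · have e4 : 4 * (j + 3) ≤ 2 ^ j := by
          clear hJ0 hj e1 e2 e3 hJ
          induction j, h5 using Nat.le_induction with
          | base => norm_num
          | succ k hk ih =>
            rw [pow_succ]
            omega
        have e5 : (4 : ℝ) * (j + 3) ≤ 2 ^ j := by exact_mod_cast e4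
        push_cast
        linarith


theorem exbg (C0 : ℕ) (hC : 1 ≤ C0) (κ η : ℝ) (hκ : 0 < κ) (hη : 0 < η) : ∃ b : ℕ, C0 ≤ b ∧
    (1 / 2 : ℝ) ^ b ≤ (κ / (2 * C0 * b)) ^ 2 * (η / 16) := by
  have h := tendsto_pow_const_mul_const_pow_of_abs_lt_one 2 (r := (1 / 2 : ℝ))
    (by rw [abs_of_pos (by norm_num)]; norm_num)
  have hc : (0 : ℝ) < (κ / (2 * C0)) ^ 2 * (η / 16) := by
    have : (0 : ℝ) < C0 := by exact_mod_cast hC
    positivity
  obtain ⟨b, hb1, hb2⟩ := ((h.eventually_lt_const hc).and (eventually_ge_atTop C0)).exists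
  refine ⟨b, hb2, ?_⟩
  have hb0 : (0 : ℝ) < b := by exact_mod_cast (by omega : 0 < b)
  have hC0 : (0 : ℝ) < C0 := by exact_mod_cast hC
  have e1 : (κ / (2 * (C0 : ℝ) * b)) ^ 2 * (η / 16) =
      ((κ / (2 * C0)) ^ 2 * (η / 16)) / (b : ℝ) ^ 2 := by
    field_simp
  rw [e1, le_div_iff₀ (by positivity)]
  linarith

open Classical in
/-- the indicator of the rough numbers -/
noncomputable def Iw (N : ℕ) (ε w : ℝ) (n : ℕ) : ℝ :=
  if ∀ p ∈ pr N ε w, ¬ p ∣ n then 1 else 0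

theorem Iw_ge (N : ℕ) (hN : 2 ≤ N) (ε w : ℝ) (K n : ℕ) (τ : ℝ) :
    LL (pr N ε w) (tt N) (ind n) K false τ w 1 ≤ Iw N ε w n := by
  classical
  have hS := siz hN ε w
  have h1 := (Pool.Agent.W52.DC.PT (pr N ε w) (tt N) hS n K τ w 1
    (fun p hp _ h => (hS.pr p hp).one_lt.ne' (Nat.dvd_one.1 h))).2
  refine h1.trans ?_
  unfold Iw
  by_cases h7 : ∀ p ∈ pr N ε w, ¬ p ∣ n
  · rw [if_pos h7]
    split_ifs <;> norm_num
  · rw [if_neg h7, if_neg]
    rintro ⟨-, h8⟩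
    exact h7 (fun p hp => h8 p hp (mem_pr.1 hp).2.2.2)

/-- the density of the multiples -/
noncomputable def gg (p : ℕ) : ℝ := 1 / (p : ℝ)

theorem merw (ε w η : ℝ) (hε : 0 < ε) (hw : w ≤ 1) (hη : 0 < η) : ∃ N₀ : ℕ, ∀ N : ℕ, N₀ ≤ N →
    Mer (pr N ε w) (tt N) gg ε w η := by
  classical
  obtain ⟨N₁, h1⟩ := mer_of Pool.Agent.W378.DC.MP ε w (min (η / 2) 1) hε hw
    (lt_min (by positivity) one_pos)
  obtain ⟨N₂, h2⟩ := ev_rpow ε hε (2 * (Real.log (1 / ε) + 1) / η)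
  refine ⟨max (max N₁ N₂) 2, fun N hN a b ha hab hb => ?_⟩
  have hNN₁ : N₁ ≤ N := ((le_max_left _ _).trans (le_max_left _ _)).trans hN
  have hNN₂ : N₂ ≤ N := ((le_max_right _ _).trans (le_max_left _ _)).trans hN
  have hN2 : 2 ≤ N := (le_max_right _ _).trans hN
  have h3 := h1 N hNN₁ a b ha hab hb
  have hy := h2 N hNN₂
  set y : ℝ := (N : ℝ) ^ ε with hyd
  have hNr : (1 : ℝ) < N := by exact_mod_cast (by omega : 1 < N)
  have hy0 : 0 < y := Real.rpow_pos_of_pos (by linarith) _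
  have hbig : ∀ p ∈ pr N ε w, y ≤ p := fun p hp =>
    (le_tt_iff hN2 (mem_pr.1 hp).2.1 _).1 (mem_pr.1 hp).2.2.1
  set F := (pr N ε w).filter (fun p => a ≤ tt N p ∧ tt N p < b) with hF
  have ha0 : 0 < a := hε.trans_le ha
  have hb0 : 0 < b := ha0.trans_le hab
  have hlog : Real.log (b / a) ≤ Real.log (1 / ε) := by
    apply Real.log_le_log (by positivity)
    apply div_le_div₀ (by norm_num) (hb.trans hw) hε ha
  have hsum : ∑ p ∈ F, 1 / ((p : ℝ) - 1) ≤ Real.log (1 / ε) + 1 := by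
    have h4 := (abs_le.1 (h3.trans (min_le_right _ _))).2
    linarith
  have hdiff : |∑ p ∈ F, gg p - ∑ p ∈ F, 1 / ((p : ℝ) - 1)| ≤ η / 2 := by
    rw [← Finset.sum_sub_distrib]
    refine (Finset.abs_sum_le_sum_abs _ _).trans ?_
    have e1 : ∀ p ∈ F, |gg p - 1 / ((p : ℝ) - 1)| ≤ 1 / y * (1 / ((p : ℝ) - 1)) := by
      intro p hp
      have hp' := (mem_filter.1 hp).1
      have h2p : (2 : ℝ) ≤ p := by exact_mod_cast (mem_pr.1 hp').2.1.two_le
      have hpy := hbig p hp'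
      have e2 : gg p - 1 / ((p : ℝ) - 1) = -(1 / (p : ℝ) * (1 / ((p : ℝ) - 1))) := by
        unfold gg
        have : (p : ℝ) - 1 ≠ 0 := by linarith
        field_simp
        ring
      rw [e2, abs_neg, abs_of_nonneg (by
        have : 0 < (p : ℝ) - 1 := by linarith
        positivity)]
      apply mul_le_mul_of_nonneg_right _ (by
        have : 0 < (p : ℝ) - 1 := by linarith
        positivity)
      exact one_div_le_one_div_of_le hy0 hpy
    refine (Finset.sum_le_sum e1).trans ?_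
    rw [← Finset.mul_sum]
    have h0 : 0 ≤ Real.log (1 / ε) + 1 ∨ Real.log (1 / ε) + 1 < 0 := le_or_gt _ _
    rcases h0 with h0 | h0
    · calc 1 / y * ∑ p ∈ F, 1 / ((p : ℝ) - 1) ≤ 1 / y * (Real.log (1 / ε) + 1) := by gcongr
        _ ≤ η / 2 := by
          rw [div_lt_iff₀ hη] at hy
          rw [one_div_mul_eq_div, div_le_iff₀ hy0]
          linarith
    · have h5 : ∑ p ∈ F, 1 / ((p : ℝ) - 1) ≤ 0 := by linarith
      have : 1 / y * ∑ p ∈ F, 1 / ((p : ℝ) - 1) ≤ 0 := mul_nonpos_of_nonneg_of_nonpos (by positivity) h5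
      linarith
  have h9 : ∑ p ∈ F, gg p - Real.log (b / a) =
      (∑ p ∈ F, gg p - ∑ p ∈ F, 1 / ((p : ℝ) - 1)) +
        (∑ p ∈ F, 1 / ((p : ℝ) - 1) - Real.log (b / a)) := by ring
  rw [h9]
  calc _ ≤ |∑ p ∈ F, gg p - ∑ p ∈ F, 1 / ((p : ℝ) - 1)| +
        |∑ p ∈ F, 1 / ((p : ℝ) - 1) - Real.log (b / a)| := abs_add_le _ _
    _ ≤ η / 2 + η / 2 := add_le_add hdiff (h3.trans (min_le_left _ _))
    _ = η := by ring

theorem prod_lew {N : ℕ} {ε w η : ℝ} (hε : 0 < ε) (hεw : ε ≤ w) (hw : w ≤ 1 / 2) (hη : η ≤ 1)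
    (h : Mer (pr N ε w) (tt N) gg ε w η) :
    ∏ p ∈ pr N ε w, (1 + gg p) ≤ 2 / ε := by
  classical
  have h1 := h ε w le_rfl hεw le_rfl
  rw [pr_sub N ε w ε w le_rfl le_rfl] at h1
  have h2 := (abs_le.1 h1).2
  have hw0 : 0 < w := hε.trans_le hεw
  have h3 : ∏ p ∈ pr N ε w, (1 + gg p) ≤ Real.exp (∑ p ∈ pr N ε w, gg p) := by
    rw [Real.exp_sum]
    apply Finset.prod_le_prod
    · intro p hp
      unfold gg
      positivity
    · intro p _
      have := Real.add_one_le_exp (gg p)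
      linarith
  refine h3.trans ?_
  calc Real.exp (∑ p ∈ pr N ε w, gg p) ≤ Real.exp (Real.log (w / ε) + 1) := by
        apply Real.exp_le_exp.2
        linarith
    _ = w / ε * Real.exp 1 := by
        rw [Real.exp_add, Real.exp_log (by positivity)]
    _ ≤ (1 / 2) / ε * 3 := by
        have := Real.exp_one_lt_d9
        gcongr
        linarith
    _ ≤ 2 / ε := by
        rw [div_mul_eq_mul_div]
        apply div_le_div_of_nonneg_right _ hε.le
        norm_num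

theorem arith_loww {x ε η A0 L SR J LN S1 : ℝ} (hx : 0 ≤ x) (hε : 0 < ε)
    (hη : 0 < η) (hSR : 0 ≤ SR) (hJ : 0 ≤ J) (hJ3 : 2 * (J + 2) ≤ LN)
    (h1 : x * (ε * A0 * L) - x * (ε * (η / 16)) - x * (ε * (η / 8)) -
      (J + 2) * SR ≤ S1) :
    ε * x * (A0 * L - η) - LN * SR ≤ S1 := by
  have h2 : (J + 2) * SR ≤ LN * SR := by
    have : J + 2 ≤ LN := by linarith
    exact mul_le_mul_of_nonneg_right this hSR
  have h3 : 0 ≤ x * ε * η := by positivity
  have h4 : ε * x * (A0 * L - η) =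
      x * (ε * A0 * L) - x * ε * η := by ring
  rw [h4]
  have h5 : x * (ε * (η / 16)) = x * ε * η * (1 / 16) := by ring
  have h6 : x * (ε * (η / 8)) = x * ε * η * (1 / 8) := by ring
  rw [h5, h6] at h1
  linarith

open Classical in
theorem core : ∃ (A0 : ℝ) (C0 : ℕ), 0 < A0 ∧ ∀ z : ℕ, C0 ≤ z → ∀ w τ κ η : ℝ, 0 < η → 0 < κ →
  κ ≤ w → 2 * w ≤ τ → τ ≤ 4 * w → τ + κ ≤ 1 →
  ∃ ε₁ : ℝ, 0 < ε₁ ∧ ε₁ ≤ w / 2 ∧ ∃ N0 : ℕ, 2 ≤ N0 ∧ ∀ N : ℕ, N0 ≤ N → (z : ℝ) < (N : ℝ) ^ ε₁ ∧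
  ∀ (ι : Type) (Ω : Finset ι) (v : ι → ℕ) (A : ℝ), 0 ≤ A →
  ε₁ * (A * ∏ p ∈ P1 N z ε₁, (1 - gg p)) *
      (A0 * (Real.log (τ / w - 1) / τ) - η) -
      Real.log N * ∑ q ∈ Lv' z ((N : ℝ) ^ (τ + κ)), Rr Ω v gg A q ≤
    ∑ i ∈ Ω.filter (fun i => ∀ p ∈ P1 N z ε₁, ¬ p ∣ v i), Iw N ε₁ w (v i) := by
  obtain ⟨A0, F, f, hS⟩ := Pool.Agent.W366.DC.SFX
  obtain ⟨C0, hC1, hfund⟩ := fund
  have hA0 := hS.pos
  refine ⟨A0, C0, hA0, ?_⟩
  intro z hz w τ κ η hη hκ hκw hwτ hτw hτκ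
  have hw0 : 0 < w := hκ.trans_le hκw
  have hτ0 : 0 < τ := by linarith
  have hw2 : w ≤ 1 / 2 := by linarith
  obtain ⟨b, hb, hb2⟩ := exbg C0 hC1 κ η hκ hη
  have hb1 : 1 ≤ b := hC1.trans hb
  have hC0r : (1 : ℝ) ≤ C0 := by exact_mod_cast hC1
  have hbr : (1 : ℝ) ≤ b := by exact_mod_cast hb1
  have hCb : (1 : ℝ) ≤ C0 * b := by nlinarith
  obtain ⟨ε, hεd⟩ : ∃ ε : ℝ, ε = κ / (2 * C0 * b) := ⟨_, rfl⟩
  rw [← hεd] at hb2
  have hε : 0 < ε := by rw [hεd]; positivity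
  have hεκ : ε ≤ κ / 2 := by
    rw [hεd]
    apply div_le_div_of_nonneg_left hκ.le (by norm_num)
    nlinarith
  have hlev : 2 * ε * ((C0 * b : ℕ) : ℝ) ≤ κ := by
    rw [hεd]
    push_cast
    have : 2 * (κ / (2 * (C0 : ℝ) * b)) * (C0 * b) = κ := by
      field_simp
    rw [this]
  obtain ⟨β, hβd⟩ : ∃ β : ℝ, β = (1 / 2 : ℝ) ^ b := ⟨_, rfl⟩
  have hβ0 : 0 ≤ β := by rw [hβd]; positivity
  have hβε : β * (2 / ε) ≤ ε * (η / 8) := by
    rw [mul_div_assoc', div_le_iff₀ hε, hβd]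
    calc (1 / 2 : ℝ) ^ b * 2 ≤ (ε ^ 2 * (η / 16)) * 2 := by
          apply mul_le_mul_of_nonneg_right hb2 (by norm_num)
      _ = ε * (η / 8) * ε := by ring
  refine ⟨ε, hε, by linarith, ?_⟩
  obtain ⟨ηM, hηM0, HM⟩ := Pool.Agent.W505.DC.MT Pool.Agent.W505.DC.MI A0 F f hS ε (ε * (η / 16))
    ⌈1 / ε⌉₊ hε (by linarith) (by positivity)
  obtain ⟨N₁, hN₁⟩ := merw ε w (min ηM 1) hε (by linarith) (lt_min hηM0 one_pos)
  obtain ⟨N₃, hN₃⟩ := exJg ε κ hε (by linarith) (C0 * b) hlev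
  obtain ⟨N₄, hN₄⟩ := ev_rpow ε hε z
  refine ⟨max (max N₁ (max N₃ N₄)) 2, le_max_right _ _, ?_⟩
  intro N hN
  have hN' : max N₁ (max N₃ N₄) ≤ N := (le_max_left _ _).trans hN
  have hNN₁ : N₁ ≤ N := (le_max_left _ _).trans hN'
  have hNN₃ : N₃ ≤ N := ((le_max_left _ _).trans (le_max_right _ _)).trans hN'
  have hNN₄ : N₄ ≤ N := ((le_max_right _ _).trans (le_max_right _ _)).trans hN'
  have hN2 : 2 ≤ N := (le_max_right _ _).trans hN
  have hzN := hN₄ N hNN₄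
  refine ⟨hzN, ?_⟩
  intro ι Ω v A hA
  have hNr : (1 : ℝ) < N := by exact_mod_cast (by omega : 1 < N)
  obtain ⟨J, hJ1, hJ2, hJ3⟩ := hN₃ N hNN₃
  have hMer := hN₁ N hNN₁
  have hgg0 : ∀ p : ℕ, 0 ≤ gg p := fun p => by unfold gg; positivity
  have hgP : ∀ p ∈ pr N ε w, 0 ≤ gg p := fun p _ => hgg0 p
  have hg1 : ∀ p ∈ P1 N z ε, 0 ≤ gg p ∧ gg p ≤ 1 / ((p : ℝ) - 1) := fun p hp => by
    refine ⟨hgg0 p, ?_⟩
    have h2 : (2 : ℝ) ≤ p := by exact_mod_cast (mem_P1.1 hp).2.1.two_le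
    unfold gg
    apply one_div_le_one_div_of_le (by linarith) (by linarith)
  have hV0 : 0 ≤ ∏ p ∈ P1 N z ε, (1 - gg p) := by
    apply Finset.prod_nonneg
    intro p hp
    have h1 := (hg1 p hp).2
    have h2 : (2 : ℝ) ≤ p := by exact_mod_cast (mem_P1.1 hp).2.1.two_le
    have h3 : 1 / ((p : ℝ) - 1) ≤ 1 := by
      rw [div_le_one (by linarith)]
      linarith
    linarith
  have hMer1 : Mer (pr N ε w) (tt N) gg ε w ηM := fun a b ha hab hb =>
    (hMer a b ha hab hb).trans (min_le_left _ _)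
  have hprod := prod_lew hε (by linarith) hw2 (min_le_right ηM 1) hMer
  set P := pr N ε w with hPd
  set V := ∏ p ∈ P1 N z ε, (1 - gg p) with hVd
  set x := A * V with hxd
  have hx : 0 ≤ x := mul_nonneg hA hV0
  set Ω1 := Ω.filter (fun i => ∀ p ∈ P1 N z ε, ¬ p ∣ v i) with hΩ1
  set K := ⌈1 / ε⌉₊ with hK
  have hKε : 1 ≤ (K + 2) * ε := by
    have h1 : 1 / ε ≤ K := Nat.le_ceil _
    have h2 : 1 / ε * ε = 1 := by field_simp
    nlinarith
  have HM' := HM P (tt N) gg w (by linarith) hgP (fun p hp => (mem_pr.1 hp).2.2.1)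
    hMer1 K le_rfl
  set TT := (P1 N z ε).powerset.filter
    (fun T : Finset ℕ => ∏ p ∈ T, p ≤ (2 ^ 2 ^ J) ^ (C0 * b)) with hTTd
  have hTTsub : ∀ T ∈ TT, T ⊆ P1 N z ε := fun T hT => mem_powerset.1 (mem_filter.1 hT).1
  have hTTle : ∀ T ∈ TT, ((∏ p ∈ T, p : ℕ) : ℝ) ≤ (N : ℝ) ^ κ := by
    intro T hT
    refine le_trans ?_ hJ2
    exact_mod_cast (mem_filter.1 hT).2
  -- the preliminary sieve
  have hr : ∀ e, e ≠ 0 → (∀ p ∈ e.primeFactors, ε ≤ tt N p) → 0 ≤ gp gg e →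
      |rem Ω1 v gg x e| ≤ β * (x * gp gg e) +
        ((J : ℝ) + 2) * ∑ T ∈ TT, Rr Ω v gg A (e * ∏ p ∈ T, p) := by
    intro e he hep hge
    have h1 := hfund b J z (P1 N z ε) gg hb hz
      (fun p hp => ⟨(mem_P1.1 hp).2.1, (mem_P1.1 hp).1.1, hJ1 p (mem_P1.1 hp).2.2⟩) hg1 ι Ω v A e hA
      hge (by
        intro p hp hpe
        have h2 := hep p (Nat.mem_primeFactors.2 ⟨(mem_P1.1 hp).2.1, hpe, he⟩)
        have h3 := (tt_lt_iff hN2 (mem_P1.1 hp).2.1 ε).2 (mem_P1.1 hp).2.2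
        linarith)
    have e1 : rem Ω1 v gg x e = ((Ω1.filter (fun i => e ∣ v i)).card : ℝ) - A * gp gg e * V := by
      unfold rem
      rw [hxd]
      ring
    have e2 : β * (x * gp gg e) = (1 / 2 : ℝ) ^ b * (A * gp gg e * V) := by
      rw [hβd, hxd]
      ring
    rw [e1, e2]
    exact h1
  have hJ20 : (0 : ℝ) ≤ (J : ℝ) + 2 := by positivity
  have hone : ∀ p ∈ (1 : ℕ).primeFactors, w ≤ tt N p := by simp
  have hEB := err_bound hN2 (show ε ≤ w by linarith) Ω1 v gg hgP x β ((J : ℝ) + 2) TT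
    (Rr Ω v gg A) hx hβ0 hr K false τ w 1 one_ne_zero hone (by rw [gp_one]; norm_num) hτ0.le
    (fun _ => hwτ)
  -- the moduli
  have hm1 : ∑ e ∈ EE P (tt N) τ w, ∑ T ∈ TT, Rr Ω v gg A (1 * e * ∏ p ∈ T, p) ≤
        ∑ m ∈ Lv' z ((N : ℝ) ^ (τ + κ)), Rr Ω v gg A m := by
    have h1 := moduli hN2 (show ε ≤ w by linarith) hzN {1} (fun _ => τ) (fun _ => w) TT
      (D := (N : ℝ) ^ (τ + κ)) (by
        intro d hd
        rw [mem_singleton] at hd
        subst hd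
        exact ⟨one_ne_zero, squarefree_one, hone⟩) hTTsub (by
        intro d hd e he T hT
        rw [mem_singleton] at hd
        subst hd
        rw [one_mul, Real.rpow_add (by linarith)]
        push_cast
        have h2 := EE_le hN2 hτ0.le he
        have h3 := hTTle T hT
        push_cast at h3
        gcongr) (Rr Ω v gg A) (Rr_nonneg Ω v gg A)
    rw [sum_singleton] at h1
    exact h1
  have hSR0 : 0 ≤ ∑ m ∈ Lv' z ((N : ℝ) ^ (τ + κ)), Rr Ω v gg A m :=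
    Finset.sum_nonneg fun m _ => Rr_nonneg Ω v gg A m
  have hxβ : x * (β * (2 / ε)) ≤ x * (ε * (η / 8)) := mul_le_mul_of_nonneg_left hβε hx
  set SR := ∑ m ∈ Lv' z ((N : ℝ) ^ (τ + κ)), Rr Ω v gg A m with hSRd
  have hsum : ∑ i ∈ Ω1, LL P (tt N) (ind (v i)) K false τ w 1 ≤
      ∑ i ∈ Ω1, Iw N ε w (v i) :=
    Finset.sum_le_sum fun i _ => Iw_ge N hN2 ε w K (v i) τ
  refine le_trans ?_ hsum
  -- the main term
  have e1 := LL_main hN2 (ε := ε) (w := w) Ω1 v gg x K false τ w 1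
    (fun p hp _ h => (mem_pr.1 hp).2.1.one_lt.ne' (Nat.dvd_one.1 h))
  have e2 := (HM' τ w (by linarith) (by linarith) le_rfl (by linarith)
    (by linarith)).2 hwτ
  have e3 : ε / w * f (τ / w) = ε * A0 * (Real.log (τ / w - 1) / τ) := by
    rw [hS.f4 _ (by rw [le_div_iff₀ hw0]; exact hwτ) (by rw [div_le_iff₀ hw0]; exact hτw)]
    field_simp
  rw [e3] at e2
  rw [gp_one, one_mul] at hEB
  have hfirst : x * (ε * A0 * (Real.log (τ / w - 1) / τ)) - x * (ε * (η / 16)) -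
      x * (ε * (η / 8)) - ((J : ℝ) + 2) * SR ≤
      ∑ i ∈ Ω1, LL P (tt N) (ind (v i)) K false τ w 1 := by
    rw [e1, gp_one, one_mul]
    have h1 : x * (ε * A0 * (Real.log (τ / w - 1) / τ) - ε * (η / 16)) ≤
        x * MM P (tt N) gg K false τ w := mul_le_mul_of_nonneg_left e2 hx
    have h2 := (abs_le.1 hEB).1
    have h3 : β * (x * ∏ p ∈ P, (1 + gg p)) ≤ x * (β * (2 / ε)) := by
      calc β * (x * ∏ p ∈ P, (1 + gg p)) ≤ β * (x * (2 / ε)) := by gcongr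
        _ = _ := by ring
    have h4 : ((J : ℝ) + 2) * ∑ e ∈ EE P (tt N) τ w, ∑ T ∈ TT,
        Rr Ω v gg A (1 * e * ∏ p ∈ T, p) ≤ ((J : ℝ) + 2) * SR :=
      mul_le_mul_of_nonneg_left hm1 hJ20
    rw [mul_sub] at h1
    linarith only [h1, h2, h3, h4, hxβ]
  exact arith_loww hx hε hη hSR0 (Nat.cast_nonneg J) hJ3 hfirst

theorem cnt_eq (m n U : ℕ) :
    ((Icc 1 U).filter (fun h => m ∣ n + h)).card + n / m = (n + U) / m := by
  induction U with
  | zero => simp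
  | succ U ih =>
    rw [Finset.card_filter] at ih ⊢
    rw [Finset.sum_Icc_succ_top (by omega)]
    have e : n + (U + 1) = (n + U) + 1 := rfl
    rw [e, Nat.succ_div, ← ih]
    ring

theorem cnt_bd (m n U : ℕ) (hm : 1 ≤ m) :
    |(((Icc 1 U).filter (fun h => m ∣ n + h)).card : ℝ) - (U : ℝ) / m| ≤ 1 := by
  have h := cnt_eq m n U
  obtain ⟨c, hc⟩ : ∃ c, c = ((Icc 1 U).filter (fun h => m ∣ n + h)).card := ⟨_, rfl⟩
  rw [← hc] at h ⊢
  have h1 := Nat.div_add_mod n m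
  have h2 := Nat.div_add_mod (n + U) m
  have h3 := Nat.mod_lt n hm
  have h4 := Nat.mod_lt (n + U) hm
  rw [← h] at h2
  have h5 : U + n % m = m * c + (n + U) % m := by
    have : m * (c + n / m) = m * c + m * (n / m) := by ring
    omega
  have h6 : (U : ℝ) + (n % m : ℕ) = m * c + ((n + U) % m : ℕ) := by exact_mod_cast h5
  have hm0 : (0 : ℝ) < m := by exact_mod_cast hm
  have h7 : (c : ℝ) - U / m = (((n % m : ℕ) : ℝ) - ((n + U) % m : ℕ)) / m := by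
    field_simp
    linarith
  rw [h7, abs_div, abs_of_pos hm0, div_le_one hm0, abs_le]
  have h8 : ((n % m : ℕ) : ℝ) ≤ m := by exact_mod_cast h3.le
  have h9 : (((n + U) % m : ℕ) : ℝ) ≤ m := by exact_mod_cast h4.le
  have h10 : (0 : ℝ) ≤ ((n % m : ℕ) : ℝ) := Nat.cast_nonneg _
  have h11 : (0 : ℝ) ≤ (((n + U) % m : ℕ) : ℝ) := Nat.cast_nonneg _
  constructor <;> linarith

theorem ind_prod (P : Finset ℕ) (hP : ∀ p ∈ P, p.Prime) (m : ℕ) :
    (if ∀ p ∈ P, ¬ p ∣ m then (1 : ℝ) else 0) =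
      ∑ T ∈ P.powerset, (-1 : ℝ) ^ T.card * (if ∏ p ∈ T, p ∣ m then 1 else 0) := by
  classical
  have h1 : (if ∀ p ∈ P, ¬ p ∣ m then (1 : ℝ) else 0) =
      ∏ p ∈ P, (1 + (-(if p ∣ m then (1 : ℝ) else 0))) := by
    split_ifs with h
    · symm
      apply Finset.prod_eq_one
      intro p hp
      rw [if_neg (h p hp)]
      norm_num
    · push Not at h
      obtain ⟨p, hp, hpm⟩ := h
      symm
      apply Finset.prod_eq_zero hp
      rw [if_pos hpm]
      norm_num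
  rw [h1, Finset.prod_one_add]
  apply Finset.sum_congr rfl
  intro T hT
  have hTp : ∀ p ∈ T, p.Prime := fun p hp => hP p (mem_powerset.1 hT hp)
  have h2 : ∏ p ∈ T, (-(if p ∣ m then (1 : ℝ) else 0)) =
      (-1 : ℝ) ^ T.card * ∏ p ∈ T, (if p ∣ m then (1 : ℝ) else 0) := by
    rw [← Finset.prod_const, ← Finset.prod_mul_distrib]
    apply Finset.prod_congr rfl
    intro p _
    ring
  rw [h2]
  congr 1
  split_ifs with h
  · apply Finset.prod_eq_one
    intro p hp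
    rw [if_pos ((prod_dvd hTp m).1 h p hp)]
  · rw [prod_dvd hTp] at h
    push Not at h
    obtain ⟨p, hp, hpm⟩ := h
    apply Finset.prod_eq_zero hp
    rw [if_neg hpm]

theorem VV_sum (z : ℕ) : VV z =
    ∑ T ∈ ((Icc 1 z).filter Nat.Prime).powerset, (-1 : ℝ) ^ T.card * (1 / ((∏ p ∈ T, p : ℕ) : ℝ)) := by
  classical
  unfold VV
  have h1 : ∏ p ∈ (Icc 1 z).filter Nat.Prime, (1 - 1 / (p : ℝ)) =
      ∏ p ∈ (Icc 1 z).filter Nat.Prime, (1 + (-(1 / (p : ℝ)))) :=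
    Finset.prod_congr rfl fun p _ => by ring
  rw [h1, Finset.prod_one_add]
  apply Finset.sum_congr rfl
  intro T _
  rw [Nat.cast_prod, one_div, ← Finset.prod_inv_distrib, ← Finset.prod_const, ← Finset.prod_mul_distrib]
  apply Finset.prod_congr rfl
  intro p _
  rw [one_div]
  ring

theorem gp_gg {q : ℕ} (hq : Squarefree q) : gp gg q = 1 / (q : ℝ) := by
  unfold gp gg
  conv_rhs => rw [← Nat.prod_primeFactors_of_squarefree hq]
  rw [Nat.cast_prod, one_div, ← Finset.prod_inv_distrib]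
  exact Finset.prod_congr rfl fun p _ => by rw [one_div]

theorem rr_bound (z U n q : ℕ) (hq : Squarefree q) (hqz : ∀ p ∈ q.primeFactors, z < p) :
    Rr (Sv U z n) (fun h => n + h) gg (U * VV z) q ≤ 2 ^ z := by
  classical
  have hq0 : q ≠ 0 := hq.ne_zero
  set P := (Icc 1 z).filter Nat.Prime with hP
  have hPp : ∀ p ∈ P, p.Prime := fun p hp => (mem_filter.1 hp).2
  have hcop : ∀ T ∈ P.powerset, Nat.Coprime q (∏ p ∈ T, p) := by
    intro T hT
    apply cop_prod hPp (mem_powerset.1 hT)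
    intro p hp hpq
    have h1 := hqz p (Nat.mem_primeFactors.2 ⟨hPp p hp, hpq, hq0⟩)
    have h2 := (mem_Icc.1 (mem_filter.1 hp).1).2
    omega
  have hTpos : ∀ T ∈ P.powerset, 1 ≤ ∏ p ∈ T, p := by
    intro T hT
    exact Nat.pos_of_ne_zero (Finset.prod_ne_zero_iff.2 fun p hp =>
      (hPp p (mem_powerset.1 hT hp)).ne_zero)
  have e1 : (((Sv U z n).filter (fun h => q ∣ n + h)).card : ℝ) =
      ∑ T ∈ P.powerset, (-1 : ℝ) ^ T.card *
        (((Icc 1 U).filter (fun h => q * (∏ p ∈ T, p) ∣ n + h)).card : ℝ) := by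
    unfold Sv
    rw [Finset.filter_filter, Finset.card_filter]
    push_cast
    have h1 : ∀ h ∈ Icc 1 U, (if (∀ p ∈ P, ¬ p ∣ n + h) ∧ q ∣ n + h then (1 : ℝ) else 0) =
        ∑ T ∈ P.powerset, (-1 : ℝ) ^ T.card *
          (if q * (∏ p ∈ T, p) ∣ n + h then (1 : ℝ) else 0) := by
      intro h _
      by_cases hqh : q ∣ n + h
      · have h2 : (if (∀ p ∈ P, ¬ p ∣ n + h) ∧ q ∣ n + h then (1 : ℝ) else 0) =
            if ∀ p ∈ P, ¬ p ∣ n + h then (1 : ℝ) else 0 := by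
          by_cases h3 : ∀ p ∈ P, ¬ p ∣ n + h
          · rw [if_pos ⟨h3, hqh⟩, if_pos h3]
          · rw [if_neg (fun h4 => h3 h4.1), if_neg h3]
        rw [h2, ind_prod P hPp]
        apply Finset.sum_congr rfl
        intro T hT
        congr 1
        by_cases h4 : ∏ p ∈ T, p ∣ n + h
        · rw [if_pos h4, if_pos ((mul_dvd_iff_and (hcop T hT)).2 ⟨hqh, h4⟩)]
        · rw [if_neg h4, if_neg (fun h5 => h4 ((mul_dvd_iff_and (hcop T hT)).1 h5).2)]
      · rw [if_neg (fun h3 => hqh h3.2)]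
        symm
        apply Finset.sum_eq_zero
        intro T hT
        rw [if_neg (fun h5 => hqh ((mul_dvd_iff_and (hcop T hT)).1 h5).1), mul_zero]
    rw [Finset.sum_congr rfl h1, Finset.sum_comm]
    apply Finset.sum_congr rfl
    intro T _
    rw [← Finset.mul_sum, Finset.card_filter]
    push_cast
    rfl
  have e2 : (U : ℝ) * VV z * gp gg q =
      ∑ T ∈ P.powerset, (-1 : ℝ) ^ T.card * ((U : ℝ) / ((q * (∏ p ∈ T, p) : ℕ) : ℝ)) := by
    rw [gp_gg hq, VV_sum, ← hP, Finset.mul_sum, Finset.sum_mul]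
    apply Finset.sum_congr rfl
    intro T hT
    have h1 : (((∏ p ∈ T, p : ℕ) : ℝ)) ≠ 0 := by
      have := hTpos T hT
      exact_mod_cast (by omega : ∏ p ∈ T, p ≠ 0)
    have h2 : (q : ℝ) ≠ 0 := by exact_mod_cast hq0
    rw [Nat.cast_mul]
    field_simp
  have hcard : P.card ≤ z := by
    calc P.card ≤ (Icc 1 z).card := Finset.card_filter_le _ _
      _ = z := by simp
  unfold Rr
  show |(((Sv U z n).filter (fun h => q ∣ n + h)).card : ℝ) - (U : ℝ) * VV z * gp gg q| ≤ 2 ^ z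
  rw [e1, e2, ← Finset.sum_sub_distrib]
  refine (Finset.abs_sum_le_sum_abs _ _).trans ?_
  have h3 : ∀ T ∈ P.powerset, |(-1 : ℝ) ^ T.card *
        (((Icc 1 U).filter (fun h => q * (∏ p ∈ T, p) ∣ n + h)).card : ℝ) -
        (-1 : ℝ) ^ T.card * ((U : ℝ) / ((q * (∏ p ∈ T, p) : ℕ) : ℝ))| ≤ 1 := by
    intro T hT
    rw [← mul_sub, abs_mul, abs_pow, abs_neg, abs_one, one_pow, one_mul]
    apply cnt_bd
    exact Nat.mul_pos (Nat.pos_of_ne_zero hq0) (hTpos T hT)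
  refine (Finset.sum_le_sum h3).trans ?_
  rw [Finset.sum_const, Finset.card_powerset, nsmul_eq_mul, mul_one]
  push_cast
  exact pow_le_pow_right₀ (by norm_num) hcard


theorem VV_le (z N y : ℕ) (ε : ℝ) (h : ∀ p ∈ P1 N z ε, p ≤ y) (hzy : z ≤ y) :
    VV y ≤ VV z * ∏ p ∈ P1 N z ε, (1 - gg p) := by
  classical
  have hfac : ∀ p : ℕ, p.Prime → 0 ≤ 1 - 1 / (p : ℝ) ∧ 1 - 1 / (p : ℝ) ≤ 1 := by
    intro p hp
    have h1 : (1 : ℝ) ≤ p := by exact_mod_cast hp.one_le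
    have h2 : 1 / (p : ℝ) ≤ 1 := by rw [div_le_one (by linarith)]; exact h1
    have h3 : 0 ≤ 1 / (p : ℝ) := by positivity
    constructor <;> linarith
  have hdis : Disjoint ((Icc 1 z).filter Nat.Prime) (P1 N z ε) := by
    rw [Finset.disjoint_left]
    intro p hp hp'
    have h1 := (mem_Icc.1 (mem_filter.1 hp).1).2
    have h2 := (mem_P1.1 hp').1.1
    omega
  have hsub : (Icc 1 z).filter Nat.Prime ∪ P1 N z ε ⊆ (Icc 1 y).filter Nat.Prime := by
    intro p hp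
    rw [mem_filter, mem_Icc]
    rcases mem_union.1 hp with hp' | hp'
    · have h1 := mem_Icc.1 (mem_filter.1 hp').1
      exact ⟨⟨h1.1, h1.2.trans hzy⟩, (mem_filter.1 hp').2⟩
    · exact ⟨⟨(mem_P1.1 hp').2.1.one_le, h p hp'⟩, (mem_P1.1 hp').2.1⟩
  have e1 : VV z * ∏ p ∈ P1 N z ε, (1 - gg p) =
      ∏ p ∈ (Icc 1 z).filter Nat.Prime ∪ P1 N z ε, (1 - 1 / (p : ℝ)) := by
    rw [Finset.prod_union hdis]
    rfl
  rw [e1]
  unfold VV
  rw [← Finset.prod_sdiff hsub]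
  apply mul_le_of_le_one_left
  · apply Finset.prod_nonneg
    intro p hp
    exact (hfac p (mem_filter.1 (hsub hp)).2).1
  · apply Finset.prod_le_one
    · intro p hp
      exact (hfac p (mem_filter.1 (mem_sdiff.1 hp).1).2).1
    · intro p hp
      exact (hfac p (mem_filter.1 (mem_sdiff.1 hp).1).2).2

theorem asym (B e : ℝ) (hB : 0 ≤ B) (he : 0 < e) : ∃ y1 : ℕ, ∀ y : ℕ, y1 ≤ y →
    B * Real.log y ^ 2 ≤ (y : ℝ) ^ (e / 8) := by
  obtain ⟨y1, h1⟩ := ev_rpow (e / 16) (by positivity) (B * (32 / e) ^ 2)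
  refine ⟨max y1 1, fun y hy => ?_⟩
  have hy1 : 1 ≤ y := (le_max_right _ _).trans hy
  have hyr : (1 : ℝ) ≤ y := by exact_mod_cast hy1
  have h2 := h1 y ((le_max_left _ _).trans hy)
  have h3 := Real.log_le_rpow_div (show (0 : ℝ) ≤ y by linarith) (show 0 < e / 32 by positivity)
  have hl0 : 0 ≤ Real.log y := Real.log_nonneg hyr
  have h4 : Real.log y ^ 2 ≤ ((y : ℝ) ^ (e / 32) / (e / 32)) ^ 2 := pow_le_pow_left₀ hl0 h3 2
  have h5 : ((y : ℝ) ^ (e / 32) / (e / 32)) ^ 2 = (y : ℝ) ^ (e / 16) * (32 / e) ^ 2 := by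
    rw [div_pow, ← Real.rpow_natCast ((y : ℝ) ^ (e / 32)) 2, ← Real.rpow_mul (by linarith)]
    have : e / 32 * ((2 : ℕ) : ℝ) = e / 16 := by push_cast; ring
    rw [this]
    field_simp
  have h6 : (y : ℝ) ^ (e / 8) = (y : ℝ) ^ (e / 16) * (y : ℝ) ^ (e / 16) := by
    rw [← Real.rpow_add (by linarith)]
    congr 1
    ring
  have hy16 : 0 < (y : ℝ) ^ (e / 16) := Real.rpow_pos_of_pos (by linarith) _
  calc B * Real.log y ^ 2 ≤ B * ((y : ℝ) ^ (e / 16) * (32 / e) ^ 2) := by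
        rw [h5] at h4
        exact mul_le_mul_of_nonneg_left h4 hB
    _ = (y : ℝ) ^ (e / 16) * (B * (32 / e) ^ 2) := by ring
    _ ≤ (y : ℝ) ^ (e / 16) * (y : ℝ) ^ (e / 16) := by gcongr
    _ = (y : ℝ) ^ (e / 8) := h6.symm

end Pool.Agent.N422.LG.LIN2

namespace Pool.Agent.N422.LG

open Finset Pool.Agent.W23.DC Filter Pool.Agent.Y660.RP LIN2

theorem t_LIN2 : S_LIN 2 := by
  classical
  intro ε hε
  obtain ⟨A0, C0, hA0, hcore⟩ := LIN2.core
  obtain ⟨CM, hCM, hMERB⟩ := t_MERB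
  obtain ⟨e, hed⟩ : ∃ e : ℝ, e = min ε 1 := ⟨_, rfl⟩
  have he0 : 0 < e := by rw [hed]; exact lt_min hε one_pos
  have he1 : e ≤ 1 := by rw [hed]; exact min_le_right _ _
  have heε : e ≤ ε := by rw [hed]; exact min_le_left _ _
  obtain ⟨w, hw⟩ : ∃ w : ℝ, w = 1 / (2 + e) := ⟨_, rfl⟩
  obtain ⟨τ, hτ⟩ : ∃ τ : ℝ, τ = 1 - e / 8 := ⟨_, rfl⟩
  have hw0 : 0 < w := by rw [hw]; positivity
  have hw2 : w * (2 + e) = 1 := by rw [hw]; field_simp
  have hw3 : 1 / 3 ≤ w := by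
    rw [hw]; apply one_div_le_one_div_of_le (by linarith) (by linarith)
  have hτw : τ / w = τ * (2 + e) := by rw [hw]; field_simp
  have hs : 1 < τ / w - 1 := by
    rw [hτw, hτ]
    nlinarith
  have hτ0 : 0 < τ := by rw [hτ]; linarith
  obtain ⟨L, hL⟩ : ∃ L : ℝ, L = Real.log (τ / w - 1) / τ := ⟨_, rfl⟩
  have hL0 : 0 < L := by rw [hL]; exact div_pos (Real.log_pos hs) hτ0
  obtain ⟨ε₁, hε₁, hε₁w, N0, hN02, hN0⟩ := hcore C0 le_rfl w τ (e / 16) (A0 * L / 2)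
    (by positivity) (by positivity) (by linarith)
    (by
      have h1 : 2 ≤ τ / w := by linarith
      rwa [le_div_iff₀ hw0] at h1)
    (by
      rw [hτ]
      linarith) (by rw [hτ]; linarith)
  rw [← hL] at hN0
  obtain ⟨c', hc'⟩ : ∃ c' : ℝ, c' = ε₁ * (A0 * L / 2) := ⟨_, rfl⟩
  have hc'0 : 0 < c' := by rw [hc']; positivity
  obtain ⟨y1, hy1⟩ := asym (16 * 2 ^ C0 * CM / c') e (by positivity) he0
  refine ⟨c' / 2, by positivity, max (max y1 N0) (max 3 C0), ?_⟩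
  intro y hy U hU n
  have hyy1 : y1 ≤ y := ((le_max_left _ _).trans (le_max_left _ _)).trans hy
  have hyN0 : N0 ≤ y := ((le_max_right _ _).trans (le_max_left _ _)).trans hy
  have hy3 : 3 ≤ y := ((le_max_left _ _).trans (le_max_right _ _)).trans hy
  have hyC0 : C0 ≤ y := ((le_max_right _ _).trans (le_max_right _ _)).trans hy
  have hyr : (3 : ℝ) ≤ y := by exact_mod_cast hy3
  obtain ⟨Y, hYd⟩ : ∃ Y : ℝ, Y = (y : ℝ) ^ (2 + e) := ⟨_, rfl⟩
  have hyY : (y : ℝ) ≤ Y := by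
    rw [hYd]
    calc (y : ℝ) = (y : ℝ) ^ (1 : ℝ) := (Real.rpow_one _).symm
      _ ≤ (y : ℝ) ^ (2 + e) := Real.rpow_le_rpow_of_exponent_le (by linarith) (by linarith)
  have hY0 : 0 < Y := by linarith
  obtain ⟨N, hN⟩ : ∃ N : ℕ, N = ⌊Y⌋₊ + 1 := ⟨_, rfl⟩
  have hYN : Y < N := by
    rw [hN]; push_cast; exact Nat.lt_floor_add_one Y
  have hNY : (N : ℝ) ≤ 2 * Y := by
    rw [hN]; push_cast
    have := Nat.floor_le hY0.le
    linarith
  have hyN : y ≤ N := by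
    have : (y : ℝ) ≤ N := hyY.trans hYN.le
    exact_mod_cast this
  have hNr : (3 : ℝ) < N := by linarith
  have hYw : Y ^ w = y := by
    rw [hYd, ← Real.rpow_mul (by linarith), mul_comm, hw2, Real.rpow_one]
  have hyw : (y : ℝ) < (N : ℝ) ^ w := by
    rw [← hYw]
    exact Real.rpow_lt_rpow hY0.le hYN hw0
  have hN2w : (N : ℝ) ^ ε₁ ≤ y := by
    calc (N : ℝ) ^ ε₁ ≤ (N : ℝ) ^ (w / 2) :=
          Real.rpow_le_rpow_of_exponent_le (by linarith) hε₁w
      _ ≤ (Y * Y) ^ (w / 2) := by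
          apply Real.rpow_le_rpow (by linarith) _ (by linarith)
          nlinarith
      _ = y := by
          rw [← pow_two, ← Real.rpow_natCast, ← Real.rpow_mul hY0.le]
          have : ((2 : ℕ) : ℝ) * (w / 2) = w := by push_cast; ring
          rw [this, hYw]
  obtain ⟨hzN, hmain⟩ := hN0 N (hyN0.trans hyN)
  have hVC : 0 ≤ VV C0 := (MERB_pos C0).le
  have hU0 : (0 : ℝ) ≤ U := Nat.cast_nonneg U
  have h1 := hmain ℕ (Sv U C0 n) (fun h => n + h) (U * VV C0) (mul_nonneg hU0 hVC)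
  -- right hand side
  have hR : ∑ i ∈ (Sv U C0 n).filter (fun i => ∀ p ∈ P1 N C0 ε₁, ¬ p ∣ (fun h => n + h) i),
      Iw N ε₁ w ((fun h => n + h) i) ≤ ((Sv U y n).card : ℝ) := by
    unfold Iw
    rw [Finset.sum_boole]
    have : (((Sv U C0 n).filter (fun i => ∀ p ∈ P1 N C0 ε₁, ¬ p ∣ (fun h => n + h) i)).filter
        (fun i => ∀ p ∈ pr N ε₁ w, ¬ p ∣ (fun h => n + h) i)) ⊆ Sv U y n := by
      intro h hh
      rw [mem_filter, mem_filter] at hh
      obtain ⟨⟨h2, h3⟩, h4⟩ := hh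
      unfold Sv at h2 ⊢
      rw [mem_filter] at h2 ⊢
      refine ⟨h2.1, fun p hp => ?_⟩
      rw [mem_filter, mem_Icc] at hp
      obtain ⟨⟨hp1, hpy⟩, hpp⟩ := hp
      by_cases hpz : p ≤ C0
      · exact h2.2 p (by rw [mem_filter, mem_Icc]; exact ⟨⟨hp1, hpz⟩, hpp⟩)
      · push Not at hpz
        by_cases hpe : (p : ℝ) < (N : ℝ) ^ ε₁
        · exact h3 p (mem_P1.2 ⟨⟨hpz, hpy.trans hyN⟩, hpp, hpe⟩)
        · push Not at hpe
          refine h4 p (mem_pr.2 ⟨⟨hp1, hpy.trans hyN⟩, hpp, ?_, ?_⟩)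
          · exact (le_tt_iff (hN02.trans (hyN0.trans hyN)) hpp _).2 hpe
          · rw [tt_lt_iff (hN02.trans (hyN0.trans hyN)) hpp]
            have : (p : ℝ) ≤ y := by exact_mod_cast hpy
            linarith
    exact_mod_cast Finset.card_le_card this
  -- the main term
  have hV := VV_le C0 N y ε₁ (fun p hp => by
    have h2 := (mem_P1.1 hp).2.2
    have : (p : ℝ) ≤ y := by linarith
    exact_mod_cast this) hyC0
  have hM : c' * (U * VV y) ≤ ε₁ * (U * VV C0 * ∏ p ∈ P1 N C0 ε₁, (1 - gg p)) *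
      (A0 * L - A0 * L / 2) := by
    have e1 : ε₁ * (U * VV C0 * ∏ p ∈ P1 N C0 ε₁, (1 - gg p)) * (A0 * L - A0 * L / 2) =
        c' * (U * (VV C0 * ∏ p ∈ P1 N C0 ε₁, (1 - gg p))) := by rw [hc']; ring
    rw [e1]
    gcongr
  -- the error
  set D : ℝ := (N : ℝ) ^ (τ + e / 16) with hD
  have hSum : ∑ q ∈ Lv' C0 D, Rr (Sv U C0 n) (fun h => n + h) gg (U * VV C0) q ≤ D * 2 ^ C0 := by
    have hD0 : 0 ≤ D := Real.rpow_nonneg (by linarith) _
    calc ∑ q ∈ Lv' C0 D, Rr (Sv U C0 n) (fun h => n + h) gg (U * VV C0) q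
        ≤ ∑ _q ∈ Lv' C0 D, (2 : ℝ) ^ C0 := by
          apply Finset.sum_le_sum
          intro q hq
          unfold Lv' at hq
          rw [mem_filter] at hq
          exact rr_bound C0 U n q hq.2.1 hq.2.2
      _ = ((Lv' C0 D).card : ℝ) * 2 ^ C0 := by rw [Finset.sum_const, nsmul_eq_mul]
      _ ≤ D * 2 ^ C0 := by
          apply mul_le_mul_of_nonneg_right _ (by positivity)
          have h2 : (Lv' C0 D).card ≤ ⌊D⌋₊ := by
            unfold Lv'
            refine (Finset.card_filter_le _ _).trans ?_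
            simp
          calc ((Lv' C0 D).card : ℝ) ≤ (⌊D⌋₊ : ℝ) := by exact_mod_cast h2
            _ ≤ D := Nat.floor_le hD0
  have hDle : D ≤ 2 * (Y * (y : ℝ) ^ (-(e / 8))) := by
    have e1 : τ + e / 16 = 1 - e / 16 := by rw [hτ]; ring
    have hexp0 : 0 ≤ 1 - e / 16 := by linarith
    calc D ≤ (2 * Y) ^ (1 - e / 16) := by
          rw [hD, e1]
          exact Real.rpow_le_rpow (by linarith) hNY hexp0
      _ = 2 ^ (1 - e / 16) * Y ^ (1 - e / 16) := Real.mul_rpow (by norm_num) hY0.le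
      _ ≤ 2 * (Y * (y : ℝ) ^ (-(e / 8))) := by
          apply mul_le_mul
          · calc (2 : ℝ) ^ (1 - e / 16) ≤ 2 ^ (1 : ℝ) :=
                  Real.rpow_le_rpow_of_exponent_le (by norm_num) (by linarith)
              _ = 2 := Real.rpow_one _
          · rw [hYd, ← Real.rpow_mul (by linarith), ← Real.rpow_add (by linarith)]
            apply Real.rpow_le_rpow_of_exponent_le (by linarith)
            nlinarith
          · exact Real.rpow_nonneg hY0.le _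
          · norm_num
  have hly : 0 < Real.log y := Real.log_pos (by linarith)
  have hlN : Real.log N ≤ 4 * Real.log y := by
    calc Real.log N ≤ Real.log (2 * Y) := Real.log_le_log (by linarith) hNY
      _ = Real.log 2 + (2 + e) * Real.log y := by
          rw [Real.log_mul (by norm_num) hY0.ne', hYd, Real.log_rpow (by linarith)]
      _ ≤ 4 * Real.log y := by
          have h2 : Real.log 2 ≤ Real.log y := Real.log_le_log (by norm_num) (by linarith)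
          nlinarith
  have hlN0 : 0 ≤ Real.log N := Real.log_nonneg (by linarith)
  have hye : 0 < (y : ℝ) ^ (-(e / 8)) := Real.rpow_pos_of_pos (by linarith) _
  have hE1 : Real.log N * ∑ q ∈ Lv' C0 D, Rr (Sv U C0 n) (fun h => n + h) gg (U * VV C0) q ≤
      4 * Real.log y * (2 * (Y * (y : ℝ) ^ (-(e / 8))) * 2 ^ C0) := by
    calc _ ≤ Real.log N * (D * 2 ^ C0) := mul_le_mul_of_nonneg_left hSum hlN0
      _ ≤ 4 * Real.log y * (2 * (Y * (y : ℝ) ^ (-(e / 8))) * 2 ^ C0) := by gcongr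
  have hUY : Y ≤ U := by
    rw [hYd]
    refine le_trans ?_ hU
    exact Real.rpow_le_rpow_of_exponent_le (by linarith) (by linarith)
  have hVy := (hMERB y hy3).2
  have hE2 : 4 * Real.log y * (2 * (Y * (y : ℝ) ^ (-(e / 8))) * 2 ^ C0) ≤ c' / 2 * (U * VV y) := by
    have h2 := hy1 y hyy1
    have h3 : (y : ℝ) ^ (e / 8) * (y : ℝ) ^ (-(e / 8)) = 1 := by
      rw [← Real.rpow_add (by linarith)]
      simp
    have h4 : 16 * 2 ^ C0 * CM / c' * Real.log y ^ 2 * (y : ℝ) ^ (-(e / 8)) ≤ 1 := by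
      calc _ ≤ (y : ℝ) ^ (e / 8) * (y : ℝ) ^ (-(e / 8)) := mul_le_mul_of_nonneg_right h2 hye.le
        _ = 1 := h3
    have h5 : 8 * 2 ^ C0 * Real.log y * (y : ℝ) ^ (-(e / 8)) ≤ c' / 2 * (1 / (CM * Real.log y)) := by
      rw [mul_one_div, le_div_iff₀ (by positivity)]
      have e1 : 8 * 2 ^ C0 * Real.log y * (y : ℝ) ^ (-(e / 8)) * (CM * Real.log y) =
          c' / 2 * (16 * 2 ^ C0 * CM / c' * Real.log y ^ 2 * (y : ℝ) ^ (-(e / 8))) := by
        field_simp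
        ring
      rw [e1]
      calc _ ≤ c' / 2 * 1 := mul_le_mul_of_nonneg_left h4 (by positivity)
        _ = c' / 2 := mul_one _
    calc 4 * Real.log y * (2 * (Y * (y : ℝ) ^ (-(e / 8))) * 2 ^ C0)
        = Y * (8 * 2 ^ C0 * Real.log y * (y : ℝ) ^ (-(e / 8))) := by ring
      _ ≤ U * (c' / 2 * (1 / (CM * Real.log y))) := by gcongr
      _ ≤ U * (c' / 2 * VV y) := by gcongr
      _ = c' / 2 * (U * VV y) := by ring
  have h6 := h1.trans hR
  linarith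

end Pool.Agent.N422.LG
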