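import Pool.Agent.N422.LG.Stm2
import Pool.Agent.N422.LG.MERB

/-! LG/MERB2: Mertens' theorems with bounded errors, all scales (helper878). -/

set_option autoImplicit false

open Finset Pool.Agent.N422.NW Pool.Agent.N422.SL Pool.Agent.N422.WS

namespace Pool.Agent.N422.LG

/-- the sum of `1 / p` for `p ≤ N` -/
noncomputable def MERB2_L (N : ℕ) : ℝ := ∑ p ∈ (Icc 1 N).filter Nat.Prime, (1 : ℝ) / p

theorem MERB2_bd : ∃ C : ℝ, 0 ≤ C ∧ ∀ N : ℕ, |MERB2_L N - Real.log (Real.log N)| ≤ C := by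
  obtain ⟨M, hM⟩ := Pool.Agent.H305R2.mertens_inv_tendsto
  obtain ⟨C, hC⟩ := (Metric.isBounded_range_of_tendsto _ hM).exists_norm_le
  refine ⟨C, (norm_nonneg _).trans (hC _ ⟨0, rfl⟩), fun N => ?_⟩
  exact hC _ ⟨N, rfl⟩

theorem MERB2_sum {z Q : ℕ} (h : z ≤ Q) :
    ∑ p ∈ PQ Q z, 1 / (p : ℝ) = MERB2_L Q - MERB2_L z := by
  have e : (Icc 1 Q).filter Nat.Prime = PQ Q z ∪ (Icc 1 z).filter Nat.Prime := by
    ext p
    simp only [PQ, mem_union, mem_filter, mem_Icc]
    constructor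
    · rintro ⟨⟨h1, h2⟩, h3⟩
      by_cases h4 : z < p
      · exact Or.inl ⟨⟨h1, h2⟩, h3, h4⟩
      · exact Or.inr ⟨⟨h1, not_lt.1 h4⟩, h3⟩
    · rintro (⟨⟨h1, h2⟩, h3, h4⟩ | ⟨⟨h1, h2⟩, h3⟩)
      · exact ⟨⟨h1, h2⟩, h3⟩
      · exact ⟨⟨h1, h2.trans h⟩, h3⟩
  have hd : Disjoint (PQ Q z) ((Icc 1 z).filter Nat.Prime) := by
    rw [Finset.disjoint_left]
    intro p h1 h2
    simp only [PQ, mem_filter, mem_Icc] at h1 h2
    omega
  unfold MERB2_L
  rw [e, sum_union hd]
  ring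

theorem t_MERB2 : S_MERB2 := by
  obtain ⟨C, hC, hb⟩ := MERB2_bd
  obtain ⟨-, C', hC', h⟩ := t_VQ
  refine ⟨Real.exp (2 * C) + 3 * C', ?_, fun z Q hz hzQ => ?_⟩
  · have := Real.one_le_exp (by linarith : 0 ≤ 2 * C)
    linarith
  have hl2 : (1 : ℝ) / 2 ≤ Real.log 2 := by
    have := Real.log_two_gt_d9
    linarith
  have hlz : Real.log 2 ≤ Real.log z := Real.log_le_log (by norm_num) (by exact_mod_cast hz)
  have hlQ : Real.log z ≤ Real.log Q :=
    Real.log_le_log (by exact_mod_cast (by omega : 0 < z)) (by exact_mod_cast hzQ)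
  have hz0 : 0 < Real.log z := by linarith
  have hQ0 : 0 < Real.log Q := by linarith
  obtain ⟨S, hS⟩ : ∃ S : ℝ, S = ∑ p ∈ PQ Q z, 1 / (p : ℝ) := ⟨_, rfl⟩
  have hS2 : S = MERB2_L Q - MERB2_L z := by rw [hS, MERB2_sum hzQ]
  rw [← hS]
  have b1 := abs_le.1 (hb z)
  have b2 := abs_le.1 (hb Q)
  have hR : Real.log (Real.log Q / Real.log z) = Real.log (Real.log Q) - Real.log (Real.log z) :=
    Real.log_div hQ0.ne' hz0.ne'
  have hRe : Real.log Q / Real.log z =
      Real.exp (Real.log (Real.log Q) - Real.log (Real.log z)) := by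
    rw [← hR, Real.exp_log (div_pos hQ0 hz0)]
  have hRe' : Real.log z / Real.log Q =
      Real.exp (Real.log (Real.log z) - Real.log (Real.log Q)) := by
    rw [← Real.log_div hz0.ne' hQ0.ne', Real.exp_log (div_pos hz0 hQ0)]
  refine ⟨?_, ?_, ?_, ?_⟩
  · rw [hRe, ← Real.exp_add]
    have : Real.exp (-S + (Real.log (Real.log Q) - Real.log (Real.log z))) ≤ Real.exp (2 * C) :=
      Real.exp_le_exp.2 (by rw [hS2]; linarith [b1.1, b1.2, b2.1, b2.2])
    linarith
  · have h1 : Real.log z / Real.log Q ≤ Real.exp (2 * C) * Real.exp (-S) := by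
      rw [hRe', ← Real.exp_add]
      exact Real.exp_le_exp.2 (by rw [hS2]; linarith [b1.1, b1.2, b2.1, b2.2])
    refine h1.trans (mul_le_mul_of_nonneg_right (by linarith) (Real.exp_pos _).le)
  · rw [div_le_iff₀ (by positivity)]
    have h1 : (VV z)⁻¹ ≤ 3 * C' * Real.log z := by
      refine (h z (by omega)).trans ?_
      nlinarith
    have h2 : 1 ≤ VV z * (3 * C' * Real.log z) := by
      have := mul_le_mul_of_nonneg_left h1 (MERB_pos z).le
      rwa [mul_inv_cancel₀ (MERB_pos z).ne'] at this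
    refine h2.trans (mul_le_mul_of_nonneg_left ?_ (MERB_pos z).le)
    refine mul_le_mul_of_nonneg_right ?_ hz0.le
    have := Real.exp_pos (2 * C)
    linarith
  · have h1 : MERB2_L z ≤ Real.log (VV z)⁻¹ := MERB_log z
    rw [Real.log_inv] at h1
    have h2 : VV z ≤ Real.exp (-MERB2_L z) := by
      rw [← Real.exp_log (MERB_pos z)]
      exact Real.exp_le_exp.2 (by linarith)
    have h3 : Real.exp (-MERB2_L z) ≤ Real.exp (2 * C - Real.log (Real.log z)) :=
      Real.exp_le_exp.2 (by linarith [b1.1])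
    rw [Real.exp_sub, Real.exp_log hz0] at h3
    refine (h2.trans h3).trans ?_
    exact div_le_div_of_nonneg_right (by linarith) hz0.le

end Pool.Agent.N422.LG
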