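import Pool.Agent.N422.LG.Stm

/-! Project LG (helper422): the recursion over the scales (LG/REC), by helper289. -/

set_option autoImplicit false

open Finset

namespace Pool.Agent.N422.LG

open Pool.Agent.N422.NW Pool.Agent.N422.SL Pool.Agent.N422.WS

lemma REC_exp {x : ℝ} (h0 : 0 ≤ x) (h1 : x ≤ 1 / 2) : Real.exp (-(x + x ^ 2)) ≤ 1 - x := by
  have ht : 0 ≤ x + x ^ 2 := by positivity
  have h := Real.quadratic_le_exp_of_nonneg ht
  have h3 : 1 ≤ (1 + (x + x ^ 2) + (x + x ^ 2) ^ 2 / 2) * (1 - x) := by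
    have e : (1 + (x + x ^ 2) + (x + x ^ 2) ^ 2 / 2) * (1 - x) = 1 + x ^ 2 / 2 * (1 - x - x ^ 2 - x ^ 3) := by ring
    rw [e]
    have h4 : x ^ 2 ≤ 1 / 4 := by nlinarith
    have h5 : x ^ 3 ≤ 1 / 8 := by
      calc x ^ 3 = x ^ 2 * x := by ring
        _ ≤ 1 / 4 * (1 / 2) := mul_le_mul h4 h1 h0 (by norm_num)
        _ = 1 / 8 := by norm_num
    have h6 : 0 ≤ x ^ 2 / 2 * (1 - x - x ^ 2 - x ^ 3) := mul_nonneg (by positivity) (by linarith)
    linarith
  have h4 : 1 ≤ Real.exp (x + x ^ 2) * (1 - x) :=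
    h3.trans (mul_le_mul_of_nonneg_right h (by linarith))
  calc Real.exp (-(x + x ^ 2)) = Real.exp (-(x + x ^ 2)) * 1 := by ring
    _ ≤ Real.exp (-(x + x ^ 2)) * (Real.exp (x + x ^ 2) * (1 - x)) :=
        mul_le_mul_of_nonneg_left h4 (Real.exp_pos _).le
    _ = 1 - x := by rw [← mul_assoc, ← Real.exp_add]; simp

/-- the factor of one step -/
lemma REC_factor {δ a : ℝ} (hδ : 0 < δ) (hδ1 : δ ≤ 1 / 16) (ha : 0 ≤ a) (ha2 : a ≤ 2 * δ) :
    Real.exp (-((1 + 8 * δ) * a)) ≤ 1 - (1 + 2 * δ) * a := by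
  have hx0 : 0 ≤ (1 + 2 * δ) * a := by positivity
  have hx1 : (1 + 2 * δ) * a ≤ 1 / 2 := by nlinarith
  refine le_trans (Real.exp_le_exp.2 (neg_le_neg ?_)) (REC_exp hx0 hx1)
  have h1 : (1 + 2 * δ) * (1 + 2 * δ) ≤ 2 := by nlinarith
  have h2 : (1 + 2 * δ) * (1 + 2 * δ) * a ≤ 2 * (2 * δ) := mul_le_mul h1 ha2 ha (by norm_num)
  have h3 : (1 + 2 * δ) * a + ((1 + 2 * δ) * a) ^ 2 = a * ((1 + 2 * δ) + (1 + 2 * δ) * (1 + 2 * δ) * a) := by ring
  rw [h3, mul_comm (1 + 8 * δ) a]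
  exact mul_le_mul_of_nonneg_left (by linarith) ha

/-- `∑_{z < p ≤ Q} 1 / p` -/
noncomputable def RECD (Q z : ℕ) : ℝ := ∑ p ∈ (Icc 1 Q).filter (fun p : ℕ => p.Prime ∧ z < p), 1 / (p : ℝ)

lemma RECD_nonneg (Q z : ℕ) : 0 ≤ RECD Q z := Finset.sum_nonneg (fun p _ => by positivity)

lemma RECD_add {Q z z' : ℕ} (h1 : z ≤ z') (h2 : z' ≤ Q) : RECD Q z = RECD z' z + RECD Q z' := by
  unfold RECD
  rw [← Finset.sum_filter_add_sum_filter_not ((Icc 1 Q).filter (fun p : ℕ => p.Prime ∧ z < p)) (fun p => p ≤ z')]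
  congr 1
  · apply Finset.sum_congr _ (fun _ _ => rfl)
    ext p
    simp only [mem_filter, mem_Icc]
    constructor
    · rintro ⟨⟨⟨a, b⟩, c, d⟩, e⟩
      exact ⟨⟨a, e⟩, c, d⟩
    · rintro ⟨⟨a, e⟩, c, d⟩
      exact ⟨⟨⟨a, e.trans h2⟩, c, d⟩, e⟩
  · apply Finset.sum_congr _ (fun _ _ => rfl)
    ext p
    simp only [mem_filter, mem_Icc, not_le]
    constructor
    · rintro ⟨⟨⟨a, b⟩, c, d⟩, e⟩
      exact ⟨⟨a, b⟩, c, e⟩
    · rintro ⟨⟨a, b⟩, c, e⟩
      exact ⟨⟨⟨a, b⟩, c, h1.trans_lt e⟩, e⟩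

lemma RECD_self (Q : ℕ) : RECD Q Q = 0 := by
  have h := RECD_add (le_refl Q) (le_refl Q)
  linarith

/-- one more number -/
lemma RECD_succ (z z' : ℕ) : RECD (z' + 1) z ≤ RECD z' z + 1 / ((z' : ℝ) + 1) := by
  unfold RECD
  have h : (Icc 1 (z' + 1)).filter (fun p : ℕ => p.Prime ∧ z < p) ⊆
      insert (z' + 1) ((Icc 1 z').filter (fun p : ℕ => p.Prime ∧ z < p)) := by
    intro p hp
    simp only [mem_filter, mem_Icc, mem_insert] at hp ⊢
    by_cases e : p = z' + 1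
    · exact Or.inl e
    · exact Or.inr ⟨⟨hp.1.1, by omega⟩, hp.2⟩
  refine (Finset.sum_le_sum_of_subset_of_nonneg h (fun p _ _ => by positivity)).trans ?_
  rw [Finset.sum_insert (by simp)]
  push_cast
  linarith

lemma REC_mQ_mono {Q : ℕ} {F G : ℕ → ℝ} (h : ∀ n, F n ≤ G n) : mQ Q F ≤ mQ Q G := by
  unfold mQ
  exact div_le_div_of_nonneg_right (Finset.sum_le_sum (fun n _ => h n)) (Nat.cast_nonneg _)

lemma REC_mQ_nonneg {Q : ℕ} {F : ℕ → ℝ} (h : ∀ n, 0 ≤ F n) : 0 ≤ mQ Q F := by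
  unfold mQ
  exact div_nonneg (Finset.sum_nonneg (fun n _ => h n)) (Nat.cast_nonneg _)

lemma REC_mQ_add (Q : ℕ) (F G : ℕ → ℝ) : mQ Q (fun n => F n + G n) = mQ Q F + mQ Q G := by
  unfold mQ
  rw [Finset.sum_add_distrib, add_div]

/-- removing the hit numbers -/
lemma REC_card (U z z' n : ℕ) : ((Sv U z n).card : ℝ) ≤ ((Sv U z' n).card : ℝ) +
    hit ((Icc 1 z').filter (fun p : ℕ => p.Prime ∧ z < p)) (Sv U z n) n := by
  classical
  have h : Sv U z n ⊆ Sv U z' n ∪ ((Icc 1 z').filter (fun p : ℕ => p.Prime ∧ z < p)).biUnion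
      (fun p => (Sv U z n).filter (fun h => p ∣ n + h)) := by
    intro h hh
    by_cases hc : h ∈ Sv U z' n
    · exact mem_union_left _ hc
    · apply mem_union_right
      have h1 : h ∈ Icc 1 U := (mem_filter.1 hh).1
      have h2 : ∃ p ∈ (Icc 1 z').filter Nat.Prime, p ∣ n + h := by
        by_contra hcon
        push Not at hcon
        exact hc (mem_filter.2 ⟨h1, hcon⟩)
      obtain ⟨p, hp, hpd⟩ := h2
      simp only [mem_filter, mem_Icc] at hp
      rw [mem_biUnion]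
      refine ⟨p, mem_filter.2 ⟨mem_Icc.2 hp.1, hp.2, ?_⟩, mem_filter.2 ⟨hh, hpd⟩⟩
      by_contra hz
      exact (mem_filter.1 hh).2 p (mem_filter.2 ⟨mem_Icc.2 ⟨hp.1.1, not_lt.1 hz⟩, hp.2⟩) hpd
  have h2 := (Finset.card_le_card h).trans (Finset.card_union_le _ _)
  have h3 := h2.trans (Nat.add_le_add_left Finset.card_biUnion_le _)
  have h4 : ((Sv U z n).card : ℝ) ≤ (((Sv U z' n).card + ∑ p ∈ (Icc 1 z').filter (fun p : ℕ => p.Prime ∧ z < p),
      ((Sv U z n).filter (fun h => p ∣ n + h)).card : ℕ) : ℝ) := by exact_mod_cast h3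
  refine h4.trans (le_of_eq ?_)
  unfold hit
  push_cast
  ring

/-- the product of the primes up to `z` -/
def RECR (z : ℕ) : ℕ := ∏ p ∈ (Icc 1 z).filter Nat.Prime, p

lemma RECR_pos (z : ℕ) : 0 < RECR z := Finset.prod_pos (fun _ hp => (mem_filter.1 hp).2.pos)

lemma RECR_dvd {z Q : ℕ} (h : z ≤ Q) : RECR z ∣ Q.factorial := by
  apply Finset.prod_primes_dvd
  · intro p hp
    exact (mem_filter.1 hp).2.prime
  · intro p hp
    have h1 := mem_filter.1 hp
    exact Nat.dvd_factorial h1.2.pos ((mem_Icc.1 h1.1).2.trans h)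

lemma RECR_not {z p : ℕ} (hp : p.Prime) (hz : z < p) : ¬ p ∣ RECR z := by
  intro h
  obtain ⟨q, hq, hd⟩ := hp.prime.exists_mem_finset_dvd h
  have h1 := mem_filter.1 hq
  have h2 := (Nat.prime_dvd_prime_iff_eq hp h1.2).1 hd
  have h3 := (mem_Icc.1 h1.1).2
  omega

lemma REC_per (U z n : ℕ) : Sv U z (n + RECR z) = Sv U z n := by
  unfold Sv
  apply Finset.filter_congr
  intro h _
  apply forall₂_congr
  intro p hp
  have h1 : p ∣ RECR z := Finset.dvd_prod_of_mem _ hp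
  rw [not_iff_not, show n + RECR z + h = RECR z + (n + h) by ring]
  exact Nat.dvd_add_right h1

/-- one step of the recursion -/
lemma REC_step (hH : S_HIT) (Q U y z z' : ℕ) (δ : ℝ) (c : ℕ → ℕ → ℝ) (hy : 2 ≤ y) (hyz : y ≤ z) (hzz : z ≤ z')
    (hzQ : z' ≤ Q) (hδ : 0 < δ) (hδ1 : δ ≤ 1 / 16) (hw : ∀ n, 0 ≤ wt Q c n) :
    (1 - (1 + 2 * δ) * RECD z' z) * mQ Q (fun n => wt Q c n * ((Sv U z n).card : ℝ)) -
      ((U / y + 1) * (20 * (Real.log Q / Real.log y) / δ)) * mQ Q (wt Q c) ≤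
    mQ Q (fun n => wt Q c n * ((Sv U z' n).card : ℝ)) := by
  have h1 := hH Q U (RECR z) (z : ℝ) δ ((Icc 1 z').filter (fun p : ℕ => p.Prime ∧ z < p)) (fun n => Sv U z n) c
    (by exact_mod_cast (by omega : 1 < z)) hδ (by linarith) (RECR_pos z) (RECR_dvd (hzz.trans hzQ))
    (fun p hp => by
      have h1 := mem_filter.1 hp
      refine ⟨h1.2.1, by exact_mod_cast h1.2.2, (mem_Icc.1 h1.1).2.trans hzQ, RECR_not h1.2.1 h1.2.2⟩)
    (fun n => REC_per U z n) (fun n => Finset.filter_subset _ _) hw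
  have h2 : mQ Q (fun n => wt Q c n * ((Sv U z n).card : ℝ)) ≤
      mQ Q (fun n => wt Q c n * ((Sv U z' n).card : ℝ)) +
      mQ Q (fun n => wt Q c n * hit ((Icc 1 z').filter (fun p : ℕ => p.Prime ∧ z < p)) (Sv U z n) n) := by
    rw [← REC_mQ_add]
    apply REC_mQ_mono
    intro n
    rw [← mul_add]
    exact mul_le_mul_of_nonneg_left (REC_card U z z' n) (hw n)
  have hB : 0 ≤ mQ Q (wt Q c) := REC_mQ_nonneg hw
  have h3 : (1 + 2 * δ) * ((U / (z : ℝ) + 1) * (10 * (Real.log Q / Real.log z) / δ)) ≤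
      (U / y + 1) * (20 * (Real.log Q / Real.log y) / δ) := by
    have hy0 : (0 : ℝ) < y := by exact_mod_cast (by omega : 0 < y)
    have hyz' : (y : ℝ) ≤ z := by exact_mod_cast hyz
    have hlog : 0 < Real.log y := Real.log_pos (by exact_mod_cast (by omega : 1 < y))
    have hlog2 : Real.log y ≤ Real.log z := Real.log_le_log hy0 hyz'
    have hQ : 0 ≤ Real.log Q := Real.log_natCast_nonneg Q
    have a1 : (U : ℝ) / z + 1 ≤ U / y + 1 := by
      have := div_le_div_of_nonneg_left (Nat.cast_nonneg U) hy0 hyz'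
      linarith
    have a2 : Real.log Q / Real.log z ≤ Real.log Q / Real.log y := div_le_div_of_nonneg_left hQ hlog hlog2
    have a3 : 0 ≤ Real.log Q / Real.log z := div_nonneg hQ (hlog.le.trans hlog2)
    have a4 : 10 * (Real.log Q / Real.log z) / δ ≤ 10 * (Real.log Q / Real.log y) / δ :=
      div_le_div_of_nonneg_right (by linarith) hδ.le
    have a5 : (U / (z : ℝ) + 1) * (10 * (Real.log Q / Real.log z) / δ) ≤
        (U / y + 1) * (10 * (Real.log Q / Real.log y) / δ) :=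
      mul_le_mul a1 a4 (by positivity) (by positivity)
    calc (1 + 2 * δ) * ((U / (z : ℝ) + 1) * (10 * (Real.log Q / Real.log z) / δ))
        ≤ 2 * ((U / y + 1) * (10 * (Real.log Q / Real.log y) / δ)) :=
          mul_le_mul (by linarith) a5 (by positivity) (by norm_num)
      _ = (U / y + 1) * (20 * (Real.log Q / Real.log y) / δ) := by ring
  have h4 := mul_le_mul_of_nonneg_right h3 hB
  have h5 : RECD z' z = ∑ p ∈ (Icc 1 z').filter (fun p : ℕ => p.Prime ∧ z < p), 1 / (p : ℝ) := rfl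
  rw [← h5] at h1
  have h6 : (1 + 2 * δ) * (RECD z' z * mQ Q (fun n => wt Q c n * ((Sv U z n).card : ℝ)) +
      (U / (z : ℝ) + 1) * (10 * (Real.log Q / Real.log z) / δ) * mQ Q (wt Q c)) =
      (1 + 2 * δ) * RECD z' z * mQ Q (fun n => wt Q c n * ((Sv U z n).card : ℝ)) +
      (1 + 2 * δ) * ((U / (z : ℝ) + 1) * (10 * (Real.log Q / Real.log z) / δ)) * mQ Q (wt Q c) := by ring
  rw [h6] at h1
  linarith

theorem t_REC (h : S_HIT) : S_REC := by
  intro Q U y δ c hy hyQ hδ hδ1 hyδ hw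
  have hy0 : (0 : ℝ) < y := by exact_mod_cast (by omega : 0 < y)
  have hB : 0 ≤ mQ Q (wt Q c) := REC_mQ_nonneg hw
  obtain ⟨E, hE⟩ : ∃ E : ℝ, E = (U / y + 1) * (20 * (Real.log Q / Real.log y) / δ) := ⟨_, rfl⟩
  have hE0 : 0 ≤ E := by
    rw [hE]
    have hlog : 0 < Real.log y := Real.log_pos (by exact_mod_cast (by omega : 1 < y))
    have hQ : 0 ≤ Real.log Q := Real.log_natCast_nonneg Q
    positivity
  obtain ⟨A, hA⟩ : ∃ A : ℕ → ℝ, ∀ z, A z = mQ Q (fun n => wt Q c n * ((Sv U z n).card : ℝ)) := ⟨_, fun _ => rfl⟩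
  have hA0 : ∀ z, 0 ≤ A z := fun z => by
    rw [hA]
    exact REC_mQ_nonneg (fun n => mul_nonneg (hw n) (Nat.cast_nonneg _))
  have hEB : 0 ≤ E * mQ Q (wt Q c) := mul_nonneg hE0 hB
  have step : ∀ z z', y ≤ z → z ≤ z' → z' ≤ Q → RECD z' z ≤ 2 * δ →
      Real.exp (-((1 + 8 * δ) * RECD z' z)) * A z - E * mQ Q (wt Q c) ≤ A z' := by
    intro z z' h1 h2 h3 h4
    have h5 := REC_step h Q U y z z' δ c hy h1 h2 h3 hδ hδ1 hw
    rw [← hA, ← hA, ← hE] at h5
    have h6 := mul_le_mul_of_nonneg_right (REC_factor hδ hδ1 (RECD_nonneg z' z) h4) (hA0 z)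
    linarith
  have main : ∀ k z, Q - z = k → y ≤ z → z ≤ Q →
      Real.exp (-((1 + 8 * δ) * RECD Q z)) * A z - (RECD Q z / δ + 1) * E * mQ Q (wt Q c) ≤ A Q := by
    intro k
    induction k using Nat.strong_induction_on with
    | _ k ih =>
      intro z hk hyz hzQ
      by_cases hD : RECD Q z ≤ δ
      · have h1 := step z Q hyz hzQ le_rfl (by linarith)
        have h2 : 0 ≤ RECD Q z / δ * (E * mQ Q (wt Q c)) :=
          mul_nonneg (div_nonneg (RECD_nonneg Q z) hδ.le) hEB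
        have h3 : (RECD Q z / δ + 1) * E * mQ Q (wt Q c) =
          RECD Q z / δ * (E * mQ Q (wt Q c)) + E * mQ Q (wt Q c) := by ring
        rw [h3]
        linarith
      · rw [not_le] at hD
        classical
        have hex : ∃ z', z ≤ z' ∧ δ < RECD z' z := ⟨Q, hzQ, hD⟩
        obtain ⟨z', hz', hmin⟩ : ∃ z', (z ≤ z' ∧ δ < RECD z' z) ∧ ∀ m < z', ¬ (z ≤ m ∧ δ < RECD m z) :=
          ⟨Nat.find hex, Nat.find_spec hex, fun m hm => Nat.find_min hex hm⟩
        have hzQ' : z' ≤ Q := by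
          by_contra hcon
          exact hmin Q (not_le.1 hcon) ⟨hzQ, hD⟩
        have hne : z ≠ z' := by
          rintro rfl
          have := hz'.2
          rw [RECD_self] at this
          linarith
        have hlt : z < z' := lt_of_le_of_ne hz'.1 hne
        obtain ⟨m, rfl⟩ : ∃ m, z' = m + 1 := ⟨z' - 1, by omega⟩
        have hm : RECD m z ≤ δ := by
          have := hmin m (by omega)
          push Not at this
          exact this (by omega)
        have h2 : RECD (m + 1) z ≤ 2 * δ := by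
          have h3 := RECD_succ z m
          have h4 : 1 / ((m : ℝ) + 1) ≤ 1 / (y : ℝ) := by
            apply one_div_le_one_div_of_le hy0
            exact_mod_cast (by omega : y ≤ m + 1)
          linarith
        have h3 := step z (m + 1) hyz hlt.le hzQ' h2
        have h4 := ih (Q - (m + 1)) (by omega) (m + 1) rfl (by omega) hzQ'
        have h5 := RECD_add hlt.le hzQ'
        have h6 : Real.exp (-((1 + 8 * δ) * RECD Q z)) =
            Real.exp (-((1 + 8 * δ) * RECD Q (m + 1))) * Real.exp (-((1 + 8 * δ) * RECD (m + 1) z)) := by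
          rw [← Real.exp_add, h5]
          congr 1
          ring
        have h7 : Real.exp (-((1 + 8 * δ) * RECD Q (m + 1))) ≤ 1 := by
          rw [Real.exp_le_one_iff]
          have := RECD_nonneg Q (m + 1)
          have h8 : 0 ≤ (1 + 8 * δ) * RECD Q (m + 1) := by positivity
          linarith
        have h8 := mul_le_mul_of_nonneg_left h3 (Real.exp_pos (-((1 + 8 * δ) * RECD Q (m + 1)))).le
        rw [mul_sub, ← mul_assoc, ← h6] at h8
        have h9 : Real.exp (-((1 + 8 * δ) * RECD Q (m + 1))) * (E * mQ Q (wt Q c)) ≤ E * mQ Q (wt Q c) :=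
          mul_le_of_le_one_left hEB h7
        have h10 : (RECD Q (m + 1) / δ + 2) * (E * mQ Q (wt Q c)) ≤ (RECD Q z / δ + 1) * (E * mQ Q (wt Q c)) := by
          apply mul_le_mul_of_nonneg_right _ hEB
          rw [h5, add_div]
          have h11 : 1 ≤ RECD (m + 1) z / δ := by
            rw [le_div_iff₀ hδ]
            linarith [hz'.2]
          linarith
        have h12 : (RECD Q z / δ + 1) * E * mQ Q (wt Q c) = (RECD Q z / δ + 1) * (E * mQ Q (wt Q c)) := by ring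
        have h13 : (RECD Q (m + 1) / δ + 1) * E * mQ Q (wt Q c) + E * mQ Q (wt Q c) =
          (RECD Q (m + 1) / δ + 2) * (E * mQ Q (wt Q c)) := by ring
        rw [h12]
        linarith
  have h1 := main (Q - y) y rfl le_rfl hyQ
  rw [hA, hA, hE] at h1
  exact h1

end Pool.Agent.N422.LG
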