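import Pool.Agent.N422.LG.Stm3
import Pool.Agent.N422.LG.REC

/-! Project LG (helper422): the recursion over the scales, upper bound (LG/RECU), by helper681. -/

set_option autoImplicit false

open Finset

namespace Pool.Agent.N422.LG

open Pool.Agent.N422.NW Pool.Agent.N422.SL Pool.Agent.N422.WS

/-- the factor of one step -/
lemma RECU_factor {δ a : ℝ} (hδ : 0 < δ) (hδ1 : δ ≤ 1 / 16) (ha : 0 ≤ a) (ha2 : a ≤ 2 * δ) :
    1 ≤ Real.exp (-((1 - 3 * δ) * a)) * (1 + (1 - 2 * δ) * a) := by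
  have hx : 0 ≤ (1 - 2 * δ) * a := mul_nonneg (by linarith) ha
  have hx2 : (1 - 2 * δ) * a ≤ 2 * δ := by nlinarith
  have h1 := Real.le_log_one_add_of_nonneg hx
  have h2 : (1 - 3 * δ) * a ≤ 2 * ((1 - 2 * δ) * a) / ((1 - 2 * δ) * a + 2) := by
    rw [le_div_iff₀ (by linarith)]
    have h3 : 0 ≤ (1 - 3 * δ) * a := mul_nonneg (by linarith) ha
    have h4 : (1 - 3 * δ) * a * ((1 - 2 * δ) * a + 2) ≤ (1 - 3 * δ) * a * (2 * δ + 2) :=
      mul_le_mul_of_nonneg_left (by linarith) h3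
    have h5 : (1 - 3 * δ) * (2 * δ + 2) ≤ 2 * (1 - 2 * δ) := by nlinarith
    have h6 := mul_le_mul_of_nonneg_right h5 ha
    linarith
  have h3 : Real.exp ((1 - 3 * δ) * a) ≤ 1 + (1 - 2 * δ) * a := by
    rw [← Real.le_log_iff_exp_le (by linarith)]
    exact h2.trans h1
  calc (1 : ℝ) = Real.exp (-((1 - 3 * δ) * a)) * Real.exp ((1 - 3 * δ) * a) := by
        rw [← Real.exp_add, neg_add_cancel, Real.exp_zero]
    _ ≤ _ := mul_le_mul_of_nonneg_left h3 (Real.exp_pos _).le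

lemma RECU_left {z z' : ℕ} (hzz : z ≤ z') (U n : ℕ) :
    left ((Icc 1 z').filter (fun p : ℕ => p.Prime ∧ z < p)) (Sv U z n) n = Sv U z' n := by
  unfold left Sv
  ext h
  simp only [mem_filter, mem_Icc]
  constructor
  · rintro ⟨⟨h1, h2⟩, h3⟩
    refine ⟨h1, fun p hp => ?_⟩
    by_cases hz : z < p
    · exact h3 p ⟨hp.1, hp.2, hz⟩
    · exact h2 p ⟨⟨hp.1.1, by omega⟩, hp.2⟩
  · rintro ⟨h1, h2⟩
    exact ⟨⟨h1, fun p hp => h2 p ⟨⟨hp.1.1, hp.1.2.trans hzz⟩, hp.2⟩⟩, fun p hp => h2 p ⟨hp.1, hp.2.1⟩⟩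

/-- one step of the recursion -/
lemma RECU_step (hH : S_HITU) (Q U y z z' : ℕ) (δ : ℝ) (c : ℕ → ℕ → ℝ) (hy : 2 ≤ y) (hyz : y ≤ z) (hzz : z ≤ z')
    (hzQ : z' ≤ Q) (hδ : 0 < δ) (hδ1 : δ ≤ 1 / 16) (hw : ∀ n, 0 ≤ wt Q c n) :
    (1 + (1 - 2 * δ) * RECD z' z) * mQ Q (fun n => wt Q c n * ((Sv U z' n).card : ℝ)) ≤
    mQ Q (fun n => wt Q c n * ((Sv U z n).card : ℝ)) +
      ((U / y + 1) * (2 * (Real.log Q / Real.log y) / δ)) * mQ Q (wt Q c) := by
  have h1 := hH Q U (RECR z) z δ ((Icc 1 z').filter (fun p : ℕ => p.Prime ∧ z < p)) (fun n => Sv U z n) c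
    (by omega) hδ (by linarith) (RECR_pos z) (RECR_dvd (hzz.trans hzQ))
    (fun p hp => by
      have h1 := mem_filter.1 hp
      exact ⟨h1.2.1, h1.2.2, (mem_Icc.1 h1.1).2.trans hzQ, RECR_not h1.2.1 h1.2.2⟩)
    (fun n => REC_per U z n) (fun n => Finset.filter_subset _ _) hw
  simp only [RECU_left hzz] at h1
  have hB : 0 ≤ mQ Q (wt Q c) := REC_mQ_nonneg hw
  have h3 : (U / (z : ℝ) + 1) * (2 * (Real.log Q / Real.log z) / δ) ≤
      (U / y + 1) * (2 * (Real.log Q / Real.log y) / δ) := by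
    have hy0 : (0 : ℝ) < y := by exact_mod_cast (by omega : 0 < y)
    have hyz' : (y : ℝ) ≤ z := by exact_mod_cast hyz
    have hlog : 0 < Real.log y := Real.log_pos (by exact_mod_cast (by omega : 1 < y))
    have hlog2 : Real.log y ≤ Real.log z := Real.log_le_log hy0 hyz'
    have hQ : 0 ≤ Real.log Q := Real.log_natCast_nonneg Q
    have a1 : (U : ℝ) / z + 1 ≤ U / y + 1 := by
      have := div_le_div_of_nonneg_left (Nat.cast_nonneg U) hy0 hyz'
      linarith
    have a2 : Real.log Q / Real.log z ≤ Real.log Q / Real.log y := div_le_div_of_nonneg_left hQ hlog hlog2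
    have a3 : 0 ≤ Real.log Q / Real.log z := div_nonneg hQ (hlog.le.trans hlog2)
    have a4 : 2 * (Real.log Q / Real.log z) / δ ≤ 2 * (Real.log Q / Real.log y) / δ :=
      div_le_div_of_nonneg_right (by linarith) hδ.le
    exact mul_le_mul a1 a4 (by positivity) (by positivity)
  have h4 := mul_le_mul_of_nonneg_right h3 hB
  have h5 : RECD z' z = ∑ p ∈ (Icc 1 z').filter (fun p : ℕ => p.Prime ∧ z < p), 1 / (p : ℝ) := rfl
  rw [← h5] at h1
  linarith

theorem t_RECU (h : S_HITU) : S_RECU := by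
  intro Q U y δ c hy hyQ hδ hδ1 hyδ hw
  have hy0 : (0 : ℝ) < y := by exact_mod_cast (by omega : 0 < y)
  have hB : 0 ≤ mQ Q (wt Q c) := REC_mQ_nonneg hw
  obtain ⟨E, hE⟩ : ∃ E : ℝ, E = (U / y + 1) * (2 * (Real.log Q / Real.log y) / δ) := ⟨_, rfl⟩
  have hE0 : 0 ≤ E := by
    rw [hE]
    have hlog : 0 < Real.log y := Real.log_pos (by exact_mod_cast (by omega : 1 < y))
    have hQ : 0 ≤ Real.log Q := Real.log_natCast_nonneg Q
    positivity
  obtain ⟨A, hA⟩ : ∃ A : ℕ → ℝ, ∀ z, A z = mQ Q (fun n => wt Q c n * ((Sv U z n).card : ℝ)) := ⟨_, fun _ => rfl⟩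
  have hA0 : ∀ z, 0 ≤ A z := fun z => by
    rw [hA]
    exact REC_mQ_nonneg (fun n => mul_nonneg (hw n) (Nat.cast_nonneg _))
  have hEB : 0 ≤ E * mQ Q (wt Q c) := mul_nonneg hE0 hB
  have hexp : ∀ a : ℝ, 0 ≤ a → Real.exp (-((1 - 3 * δ) * a)) ≤ 1 := by
    intro a ha
    rw [Real.exp_le_one_iff]
    have : 0 ≤ (1 - 3 * δ) * a := mul_nonneg (by linarith) ha
    linarith
  have step : ∀ z z', y ≤ z → z ≤ z' → z' ≤ Q → RECD z' z ≤ 2 * δ →
      A z' ≤ Real.exp (-((1 - 3 * δ) * RECD z' z)) * A z + E * mQ Q (wt Q c) := by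
    intro z z' h1 h2 h3 h4
    have h5 := RECU_step h Q U y z z' δ c hy h1 h2 h3 hδ hδ1 hw
    rw [← hA, ← hA, ← hE] at h5
    have hD := RECD_nonneg z' z
    have h6 := mul_le_mul_of_nonneg_right (RECU_factor hδ hδ1 hD h4) (hA0 z')
    have h7 := mul_le_mul_of_nonneg_left h5 (Real.exp_pos (-((1 - 3 * δ) * RECD z' z))).le
    have h8 := mul_le_mul_of_nonneg_right (hexp _ hD) hEB
    rw [mul_add] at h7
    rw [one_mul] at h6 h8
    rw [← mul_assoc] at h7
    linarith
  have main : ∀ k z, Q - z = k → y ≤ z → z ≤ Q →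
      A Q ≤ Real.exp (-((1 - 3 * δ) * RECD Q z)) * A z + (RECD Q z / δ + 1) * E * mQ Q (wt Q c) := by
    intro k
    induction k using Nat.strong_induction_on with
    | _ k ih =>
      intro z hk hyz hzQ
      by_cases hD : RECD Q z ≤ δ
      · have h1 := step z Q hyz hzQ le_rfl (by linarith)
        have h2 : 0 ≤ RECD Q z / δ * (E * mQ Q (wt Q c)) :=
          mul_nonneg (div_nonneg (RECD_nonneg Q z) hδ.le) hEB
        have h3 : (RECD Q z / δ + 1) * E * mQ Q (wt Q c) =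
          RECD Q z / δ * (E * mQ Q (wt Q c)) + E * mQ Q (wt Q c) := by ring
        rw [h3]
        linarith
      · rw [not_le] at hD
        classical
        have hex : ∃ z', z ≤ z' ∧ δ < RECD z' z := ⟨Q, hzQ, hD⟩
        obtain ⟨z', hz', hmin⟩ : ∃ z', (z ≤ z' ∧ δ < RECD z' z) ∧ ∀ m < z', ¬ (z ≤ m ∧ δ < RECD m z) :=
          ⟨Nat.find hex, Nat.find_spec hex, fun m hm => Nat.find_min hex hm⟩
        have hzQ' : z' ≤ Q := by
          by_contra hcon
          exact hmin Q (not_le.1 hcon) ⟨hzQ, hD⟩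
        have hne : z ≠ z' := by
          rintro rfl
          have := hz'.2
          rw [RECD_self] at this
          linarith
        have hlt : z < z' := lt_of_le_of_ne hz'.1 hne
        obtain ⟨m, rfl⟩ : ∃ m, z' = m + 1 := ⟨z' - 1, by omega⟩
        have hm : RECD m z ≤ δ := by
          have := hmin m (by omega)
          push Not at this
          exact this (by omega)
        have h2 : RECD (m + 1) z ≤ 2 * δ := by
          have h3 := RECD_succ z m
          have h4 : 1 / ((m : ℝ) + 1) ≤ 1 / (y : ℝ) := by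
            apply one_div_le_one_div_of_le hy0
            exact_mod_cast (by omega : y ≤ m + 1)
          linarith
        have h3 := step z (m + 1) hyz hlt.le hzQ' h2
        have h4 := ih (Q - (m + 1)) (by omega) (m + 1) rfl (by omega) hzQ'
        have h5 := RECD_add hlt.le hzQ'
        have h6 : Real.exp (-((1 - 3 * δ) * RECD Q z)) =
            Real.exp (-((1 - 3 * δ) * RECD Q (m + 1))) * Real.exp (-((1 - 3 * δ) * RECD (m + 1) z)) := by
          rw [← Real.exp_add, h5]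
          congr 1
          ring
        have h7 := hexp _ (RECD_nonneg Q (m + 1))
        have h8 := mul_le_mul_of_nonneg_left h3 (Real.exp_pos (-((1 - 3 * δ) * RECD Q (m + 1)))).le
        rw [mul_add, ← mul_assoc, ← h6] at h8
        have h9 : Real.exp (-((1 - 3 * δ) * RECD Q (m + 1))) * (E * mQ Q (wt Q c)) ≤ E * mQ Q (wt Q c) :=
          mul_le_of_le_one_left hEB h7
        have h10 : (RECD Q (m + 1) / δ + 2) * (E * mQ Q (wt Q c)) ≤ (RECD Q z / δ + 1) * (E * mQ Q (wt Q c)) := by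
          apply mul_le_mul_of_nonneg_right _ hEB
          rw [h5, add_div]
          have h11 : 1 ≤ RECD (m + 1) z / δ := by
            rw [le_div_iff₀ hδ]
            linarith [hz'.2]
          linarith
        have h12 : (RECD Q z / δ + 1) * E * mQ Q (wt Q c) = (RECD Q z / δ + 1) * (E * mQ Q (wt Q c)) := by ring
        have h13 : (RECD Q (m + 1) / δ + 1) * E * mQ Q (wt Q c) + E * mQ Q (wt Q c) =
          (RECD Q (m + 1) / δ + 2) * (E * mQ Q (wt Q c)) := by ring
        rw [h12]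
        linarith
  have h1 := main (Q - y) y rfl le_rfl hyQ
  rw [hA, hA, hE] at h1
  exact h1

end Pool.Agent.N422.LG
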