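import Pool.Agent.N422.LG.Stm

/-! Project LG, part HIT: the number of hits under a nonnegative weight. -/

set_option autoImplicit false

open Finset

namespace Pool.Agent.N422.LG

open Pool.Agent.N422.NW Pool.Agent.N422.SL Pool.Agent.N422.WS

theorem HIT_sum {A : Type} [AddCommMonoid A] (P' : Finset ℕ) (φ : ℕ → A) :
    ∑ i : Fin P'.card, φ (P'.equivFin.symm i) = ∑ p ∈ P', φ p := by
  rw [Equiv.sum_comp P'.equivFin.symm (fun p : P' => φ p)]
  exact Finset.sum_coe_sort P' φ

theorem HIT_wt (Q : ℕ) (c : ℕ → ℕ → ℝ) (x : ℕ) :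
    ∑ j ∈ range Q, c (j + 1) (x % (j + 1)) = wt Q c x := by
  unfold wt
  refine Finset.sum_bij (fun j _ => j + 1) ?_ ?_ ?_ ?_
  · intro j hj
    rw [mem_range] at hj
    rw [mem_Icc]
    omega
  · intro a _ b _ h
    omega
  · intro d hd
    rw [mem_Icc] at hd
    exact ⟨d - 1, by rw [mem_range]; omega, by omega⟩
  · intro j _
    rfl

theorem HIT_mQ_sum {ι : Type} (s : Finset ι) (Q : ℕ) (F : ι → ℕ → ℝ) :
    mQ Q (fun x => ∑ i ∈ s, F i x) = ∑ i ∈ s, mQ Q (F i) := by
  unfold mQ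
  rw [sum_comm, sum_div]

theorem HIT_mQ_mul (Q : ℕ) (a : ℝ) (F : ℕ → ℝ) : mQ Q (fun x => a * F x) = a * mQ Q F := by
  unfold mQ
  rw [← mul_sum, mul_div_assoc]

theorem HIT_mQ_nonneg (Q : ℕ) (F : ℕ → ℝ) (h : ∀ x, 0 ≤ F x) : 0 ≤ mQ Q F := by
  unfold mQ
  exact div_nonneg (sum_nonneg fun x _ => h x) (by positivity)

theorem HIT_one (h1 : S_MOD3) (h2 : S_ARG) (Q R r m n : ℕ) (l : ℝ) (P : Finset ℕ)
    (Om : ℕ → Finset ℕ) (ν : ℕ → ℕ) (c : ℕ → ℕ → ℝ) (hR : R ∣ Q.factorial)
    (hP : ∀ p ∈ P, p.Prime ∧ p ≤ Q ∧ ¬ p ∣ R) (hOm : ∀ p ∈ P, Om p ⊆ range p)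
    (hν : ∀ p ∈ P, m ≤ ν p) (hm : 0 < m)
    (hlev : ∀ d, 1 ≤ d → d ≤ Q → ∑ p ∈ P.filter (fun p => p ∣ d), ν p ≤ n)
    (hw : ∀ x, 0 ≤ wt Q c x) (hl : 0 < l) (hl2 : l ≤ 1 / 2) :
    ∑ p ∈ P, mQ Q (fun x => wt Q c x * (if x % R = r then 1 else 0)
        * (if x % p ∈ Om p then 1 else 0)) ≤
      (1 + 2 * l) * (∑ p ∈ P, ((Om p).card : ℝ) / p + 5 * ((n : ℝ) / m) / l) *
        mQ Q (fun x => wt Q c x * (if x % R = r then 1 else 0)) := by
  classical
  set P' : Finset ℕ := P.filter (fun p => 0 < (Om p).card ∧ (Om p).card < p) with hP'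
  set q : Fin P'.card → ℕ := fun i => P'.equivFin.symm i with hq
  have hqP' : ∀ i, q i ∈ P' := fun i => (P'.equivFin.symm i).2
  have hqP : ∀ i, q i ∈ P := fun i => (mem_filter.mp (hqP' i)).1
  have hinj : Function.Injective q := Subtype.val_injective.comp P'.equivFin.symm.injective
  obtain ⟨f, hf1, hf2, hf3⟩ := h2 P'.card q (fun i => Om (q i)) (fun i => ν (q i)) n Q Q.factorial
    (fun j => Nat.lcm (j + 1) R) (fun j x => c (j + 1) (x % (j + 1)) * (if x % R = r then 1 else 0))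
    hinj (fun i => (hP _ (hqP i)).1) (fun i => ⟨hOm _ (hqP i), (mem_filter.mp (hqP' i)).2⟩)
    (Nat.factorial_pos _) (fun i => Nat.dvd_factorial (hP _ (hqP i)).1.pos (hP _ (hqP i)).2.1)
    (by
      intro j hj
      have hj' := mem_range.mp hj
      refine ⟨?_, Nat.lcm_dvd (Nat.dvd_factorial (by omega) (by omega)) hR⟩
      intro x
      have e1 : (x + Nat.lcm (j + 1) R) % (j + 1) = x % (j + 1) := by
        obtain ⟨k, hk⟩ := Nat.dvd_lcm_left (j + 1) R
        rw [hk, Nat.add_mul_mod_self_left]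
      have e2 : (x + Nat.lcm (j + 1) R) % R = x % R := by
        obtain ⟨k, hk⟩ := Nat.dvd_lcm_right (j + 1) R
        rw [hk, Nat.add_mul_mod_self_left]
      simp only [e1, e2])
    (by
      intro j hj
      have hj' := mem_range.mp hj
      refine le_trans ?_ (hlev (j + 1) (by omega) (by omega))
      rw [Finset.sum_filter]
      have e0 := HIT_sum P' (fun p => if p ∣ Nat.lcm (j + 1) R then ν p else 0)
      simp only [hq]
      rw [e0, ← Finset.sum_filter]
      refine Finset.sum_le_sum_of_subset ?_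
      intro p hp
      rw [mem_filter] at hp ⊢
      have hpP := (mem_filter.mp hp.1).1
      refine ⟨hpP, ?_⟩
      rcases ((hP p hpP).1.dvd_lcm).mp hp.2 with h | h
      · exact h
      · exact absurd h (hP p hpP).2.2)
  have hFs : ∀ x : ℕ, ∑ j ∈ range Q, c (j + 1) (x % (j + 1)) * (if x % R = r then (1 : ℝ) else 0)
      = wt Q c x * (if x % R = r then 1 else 0) := by
    intro x
    rw [← sum_mul, HIT_wt]
  have hwr : ∀ x : ℕ, 0 ≤ wt Q c x * (if x % R = r then (1 : ℝ) else 0) := by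
    intro x
    refine mul_nonneg (hw x) ?_
    split_ifs <;> norm_num
  have hf0 : ∀ T, 0 ≤ f T := fun T => hf2 T 0 fun x _ => by
    rw [hFs]
    exact hwr x
  have hg : ∀ i, (0 : ℝ) ≤ ((Om (q i)).card : ℝ) / q i ∧ ((Om (q i)).card : ℝ) / q i ≤ 1 := by
    intro i
    refine ⟨by positivity, ?_⟩
    have h3 : (0 : ℝ) < q i := by exact_mod_cast (hP _ (hqP i)).1.pos
    rw [div_le_one h3]
    exact_mod_cast (mem_filter.mp (hqP' i)).2.2.le
  have h4 := h1 P'.card m n (fun i => ((Om (q i)).card : ℝ) / q i) (fun i => ν (q i)) f l hm hg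
    (fun i => hν _ (hqP i)) hf1 hf0 hl hl2
  set B : ℝ := mQ Q (fun x => wt Q c x * (if x % R = r then 1 else 0)) with hB
  have hB0 : 0 ≤ B := HIT_mQ_nonneg _ _ hwr
  set AA : ℕ → ℝ := fun p => mQ Q (fun x => wt Q c x * (if x % R = r then 1 else 0)
        * (if x % p ∈ Om p then 1 else 0)) with hAA
  have e3 : ∀ i, ∑ T, muT (fun i => ((Om (q i)).card : ℝ) / q i) T * f T
      * (if i ∈ T then 1 else 0) = AA (q i) := by
    intro i
    rw [hf3 (fun T => if i ∈ T then 1 else 0)]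
    simp only [hAA, mQ]
    congr 1
    refine sum_congr rfl fun x _ => ?_
    rw [hFs]
    congr 1
    simp only [TT, mem_filter, mem_univ, true_and]
  have e4 : ∑ T, muT (fun i => ((Om (q i)).card : ℝ) / q i) T * f T = B := by
    have h5 := hf3 (fun _ => 1)
    simp only [mul_one] at h5
    rw [h5]
    simp only [hB, mQ]
    congr 1
    exact sum_congr rfl fun x _ => hFs x
  rw [e4] at h4
  simp only [e3] at h4
  have e5 : ∑ i, AA (q i) = ∑ p ∈ P', AA p := HIT_sum P' AA
  have e6 : ∑ i, ((Om (q i)).card : ℝ) / q i = ∑ p ∈ P', ((Om p).card : ℝ) / p :=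
    HIT_sum P' (fun p => ((Om p).card : ℝ) / p)
  rw [e5, e6] at h4
  -- the other places
  have h6 : ∀ p ∈ P.filter (fun p => ¬ (0 < (Om p).card ∧ (Om p).card < p)),
      AA p ≤ (1 + 2 * l) * (((Om p).card : ℝ) / p) * B := by
    intro p hp
    rw [mem_filter] at hp
    obtain ⟨hpP, hp2⟩ := hp
    have hsub := hOm p hpP
    have hppos := (hP p hpP).1.pos
    rcases Nat.eq_zero_or_pos (Om p).card with h0 | h0
    · have h7 : Om p = ∅ := card_eq_zero.mp h0
      have h8 : AA p = 0 := by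
        simp only [hAA, mQ, h7]
        simp
      rw [h8]
      positivity
    · have h7 : p ≤ (Om p).card := by
        by_contra hc
        exact hp2 ⟨h0, by omega⟩
      have h8 : Om p = range p := eq_of_subset_of_card_le hsub (by rw [card_range]; exact h7)
      have h9 : AA p = B := by
        simp only [hAA, hB, mQ, h8]
        congr 1
        refine sum_congr rfl fun x _ => ?_
        rw [if_pos (mem_range.mpr (Nat.mod_lt x hppos)), mul_one]
      have h10 : ((Om p).card : ℝ) / p = 1 := by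
        rw [h8, card_range]
        exact div_self (by exact_mod_cast hppos.ne')
      rw [h9, h10]
      nlinarith
  have h7 : ∑ p ∈ P, AA p = ∑ p ∈ P', AA p
      + ∑ p ∈ P.filter (fun p => ¬ (0 < (Om p).card ∧ (Om p).card < p)), AA p :=
    (sum_filter_add_sum_filter_not P _ _).symm
  have h8 : ∑ p ∈ P, ((Om p).card : ℝ) / p = ∑ p ∈ P', ((Om p).card : ℝ) / p
      + ∑ p ∈ P.filter (fun p => ¬ (0 < (Om p).card ∧ (Om p).card < p)),
        ((Om p).card : ℝ) / p :=
    (sum_filter_add_sum_filter_not P _ _).symm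
  have h9 := sum_le_sum h6
  rw [← sum_mul, ← mul_sum] at h9
  rw [h7, h8]
  calc _ ≤ (1 + 2 * l) * (∑ p ∈ P', ((Om p).card : ℝ) / p + 5 * ((n : ℝ) / m) / l) * B
      + (1 + 2 * l) * (∑ p ∈ P.filter (fun p => ¬ (0 < (Om p).card ∧ (Om p).card < p)),
        ((Om p).card : ℝ) / p) * B := add_le_add h4 h9
    _ = _ := by ring

theorem HIT_lev (N J : ℕ) (h : N ≤ J) : ∑ j ∈ Icc 1 J, (if j ≤ N then (1 : ℝ) else 0) = N := by
  rw [← sum_filter]
  have h1 : (Icc 1 J).filter (fun j => j ≤ N) = Icc 1 N := by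
    ext j
    simp only [mem_filter, mem_Icc]
    omega
  rw [h1]
  simp

theorem HIT_dvd (p a h : ℕ) (hp : 0 < p) (ha : a < p) : p ∣ a + h ↔ (p - h % p) % p = a := by
  have ht := Nat.mod_lt h hp
  rw [Nat.dvd_iff_mod_eq_zero, Nat.add_mod, Nat.mod_eq_of_lt ha]
  generalize h % p = t at *
  rcases Nat.eq_zero_or_pos t with rfl | h0
  · rw [Nat.add_zero, Nat.sub_zero, Nat.mod_self, Nat.mod_eq_of_lt ha]
    exact eq_comm
  · rw [Nat.mod_eq_of_lt (by omega : p - t < p)]
    constructor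
    · intro h1
      rcases lt_trichotomy (a + t) p with h2 | h2 | h2
      · rw [Nat.mod_eq_of_lt h2] at h1
        omega
      · omega
      · rw [Nat.mod_eq_sub_mod h2.le, Nat.mod_eq_of_lt (by omega)] at h1
        omega
    · intro h1
      have h2 : a + t = p := by omega
      rw [h2]
      exact Nat.mod_self p

theorem HIT_cnt (p a U : ℕ) (hp : 0 < p) (s : Finset ℕ) (hs : s ⊆ Icc 1 U) :
    (s.filter (fun h => p ∣ a + h)).card ≤ U / p + 1 := by
  have h1 : Set.InjOn (fun h => h / p) (s.filter (fun h => p ∣ a + h) : Set ℕ) := by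
    intro x hx z hz hxz
    simp only [coe_filter, Set.mem_ofPred_eq] at hx hz
    have h2 : x ≡ z [MOD p] := by
      have h3 : a + x ≡ a + z [MOD p] :=
        ((Nat.modEq_zero_iff_dvd).mpr hx.2).trans ((Nat.modEq_zero_iff_dvd).mpr hz.2).symm
      exact Nat.ModEq.add_left_cancel' a h3
    have h4 : x % p = z % p := h2
    have h5 : x / p = z / p := hxz
    rw [← Nat.div_add_mod x p, ← Nat.div_add_mod z p, h4, h5]
  rw [← card_image_of_injOn h1]
  refine (card_le_card (t := range (U / p + 1)) ?_).trans (by rw [card_range])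
  intro x hx
  simp only [mem_image, mem_filter] at hx
  obtain ⟨z, hz, rfl⟩ := hx
  rw [mem_range]
  have h2 := mem_Icc.mp (hs hz.1)
  have h3 := Nat.div_le_div_right (c := p) h2.2
  omega

theorem HIT_tot (p : ℕ) (hp : 0 < p) (s : Finset ℕ) :
    ∑ a ∈ range p, (s.filter (fun h => p ∣ a + h)).card = s.card := by
  rw [card_eq_sum_card_fiberwise (f := fun h => (p - h % p) % p) (t := range p)
    (fun h _ => by simpa using Nat.mod_lt _ hp)]
  refine sum_congr rfl fun a ha => ?_
  congr 1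
  ext h
  simp only [mem_filter]
  rw [HIT_dvd p a h hp (mem_range.mp ha)]

/-- one residue class modulo `R` -/
theorem HIT_cls (h1 : S_MOD3) (h2 : S_ARG) (Q R r m n U J : ℕ) (l : ℝ) (P : Finset ℕ)
    (s : Finset ℕ) (ν : ℕ → ℕ) (c : ℕ → ℕ → ℝ) (hR : R ∣ Q.factorial)
    (hP : ∀ p ∈ P, p.Prime ∧ p ≤ Q ∧ ¬ p ∣ R) (hs : s ⊆ Icc 1 U)
    (hJ : ∀ p ∈ P, U / p + 1 ≤ J)
    (hν : ∀ p ∈ P, m ≤ ν p) (hm : 0 < m)
    (hlev : ∀ d, 1 ≤ d → d ≤ Q → ∑ p ∈ P.filter (fun p => p ∣ d), ν p ≤ n)
    (hw : ∀ x, 0 ≤ wt Q c x) (hl : 0 < l) (hl2 : l ≤ 1 / 2) :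
    mQ Q (fun x => wt Q c x * (if x % R = r then 1 else 0) * hit P s x) ≤
      (1 + 2 * l) * ((∑ p ∈ P, 1 / (p : ℝ)) * s.card + J * (5 * ((n : ℝ) / m) / l)) *
        mQ Q (fun x => wt Q c x * (if x % R = r then 1 else 0)) := by
  set B : ℝ := mQ Q (fun x => wt Q c x * (if x % R = r then 1 else 0)) with hB
  set Om : ℕ → ℕ → Finset ℕ := fun j p => (range p).filter
    (fun a => j ≤ (s.filter (fun h => p ∣ a + h)).card) with hOm
  have h3 : ∀ j ∈ Icc 1 J, ∑ p ∈ P, mQ Q (fun x => wt Q c x * (if x % R = r then 1 else 0)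
        * (if x % p ∈ Om j p then 1 else 0)) ≤
      (1 + 2 * l) * (∑ p ∈ P, ((Om j p).card : ℝ) / p + 5 * ((n : ℝ) / m) / l) * B :=
    fun j _ => HIT_one h1 h2 Q R r m n l P (Om j) ν c hR hP (fun p _ => filter_subset _ _) hν hm
      hlev hw hl hl2
  have h4 := sum_le_sum h3
  have e1 : ∑ j ∈ Icc 1 J, ∑ p ∈ P, mQ Q (fun x => wt Q c x * (if x % R = r then 1 else 0)
        * (if x % p ∈ Om j p then 1 else 0))
      = mQ Q (fun x => wt Q c x * (if x % R = r then 1 else 0) * hit P s x) := by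
    rw [sum_comm]
    have e2 : ∀ p ∈ P, ∑ j ∈ Icc 1 J, mQ Q (fun x => wt Q c x * (if x % R = r then 1 else 0)
        * (if x % p ∈ Om j p then 1 else 0))
        = mQ Q (fun x => wt Q c x * (if x % R = r then 1 else 0)
          * ((s.filter (fun h => p ∣ x + h)).card : ℝ)) := by
      intro p hp
      rw [← HIT_mQ_sum]
      congr 1
      funext x
      rw [← mul_sum]
      congr 1
      have hpp := (hP p hp).1.pos
      have e3 : (s.filter (fun h => p ∣ x % p + h)) = s.filter (fun h => p ∣ x + h) := by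
        refine filter_congr fun h _ => ?_
        exact ((Nat.mod_modEq x p).add_right h).dvd_iff dvd_rfl
      have e4 : ∀ j, (x % p ∈ Om j p) ↔ j ≤ (s.filter (fun h => p ∣ x + h)).card := by
        intro j
        simp only [hOm, mem_filter, mem_range]
        rw [e3]
        exact ⟨fun h => h.2, fun h => ⟨Nat.mod_lt x hpp, h⟩⟩
      simp only [e4]
      refine HIT_lev _ J ?_
      exact (HIT_cnt p x U hpp s hs).trans (hJ p hp)
    rw [sum_congr rfl e2, ← HIT_mQ_sum]
    congr 1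
    funext x
    rw [← mul_sum]
    rfl
  have e5 : ∀ p ∈ P, ∑ j ∈ Icc 1 J, ((Om j p).card : ℝ) = s.card := by
    intro p hp
    have hpp := (hP p hp).1.pos
    have e6 : ∀ j, ((Om j p).card : ℝ) = ∑ a ∈ range p,
        (if j ≤ (s.filter (fun h => p ∣ a + h)).card then (1 : ℝ) else 0) := by
      intro j
      simp only [hOm]
      rw [← sum_filter]
      simp
    simp only [e6]
    rw [sum_comm]
    have e7 : ∀ a ∈ range p, ∑ j ∈ Icc 1 J,
        (if j ≤ (s.filter (fun h => p ∣ a + h)).card then (1 : ℝ) else 0)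
        = ((s.filter (fun h => p ∣ a + h)).card : ℝ) := fun a _ =>
      HIT_lev _ J ((HIT_cnt p a U hpp s hs).trans (hJ p hp))
    rw [sum_congr rfl e7, ← Nat.cast_sum, HIT_tot p hpp s]
  have e8 : ∑ j ∈ Icc 1 J, (1 + 2 * l) * (∑ p ∈ P, ((Om j p).card : ℝ) / p
        + 5 * ((n : ℝ) / m) / l) * B
      = (1 + 2 * l) * ((∑ p ∈ P, 1 / (p : ℝ)) * s.card + J * (5 * ((n : ℝ) / m) / l)) * B := by
    rw [← sum_mul, ← mul_sum, sum_add_distrib, sum_comm]
    congr 2
    congr 1
    · rw [sum_mul]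
      refine sum_congr rfl fun p hp => ?_
      rw [← sum_div, e5 p hp]
      ring
    · simp
  rw [e1, e8] at h4
  exact h4

theorem t_HIT (h1 : S_MOD3) (h2 : S_ARG) : S_HIT := by
  intro Q U R y l P S c hy hl hl2 hR0 hR hP hS hSU hw
  have hlogy : 0 < Real.log y := Real.log_pos hy
  have hlogQ0 : 0 ≤ Real.log Q := Real.log_natCast_nonneg Q
  have hW0 : 0 ≤ mQ Q (wt Q c) := HIT_mQ_nonneg _ _ hw
  rcases P.eq_empty_or_nonempty with rfl | hne
  · have e1 : mQ Q (fun n => wt Q c n * hit ∅ (S n) n) = 0 := by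
      unfold mQ hit
      simp
    rw [e1]
    simp only [sum_empty, zero_mul, zero_add]
    positivity
  obtain ⟨p0, hp0⟩ := hne
  have hyQ : y < Q := lt_of_lt_of_le (hP p0 hp0).2.1 (by exact_mod_cast (hP p0 hp0).2.2.1)
  have hlogQ : Real.log y < Real.log Q := Real.log_lt_log (by linarith) hyQ
  have hlogQp : 0 < Real.log Q := hlogy.trans hlogQ
  set La : ℝ := Real.log Q / Real.log y with hLa
  have hLa1 : 1 < La := by
    rw [hLa, one_lt_div hlogy]
    exact hlogQ
  obtain ⟨n, hn⟩ : ∃ n : ℕ, 2 * La ≤ n := exists_nat_ge _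
  have hnpos : (0 : ℝ) < n := by linarith
  set m : ℕ := ⌊(n : ℝ) / La⌋₊ with hm
  have hnL : 2 ≤ (n : ℝ) / La := by
    rw [le_div_iff₀ (by linarith)]
    exact hn
  have hm1 : (n : ℝ) / La - 1 < m := by
    have := Nat.lt_floor_add_one ((n : ℝ) / La)
    rw [← hm] at this
    linarith
  have hm2 : (n : ℝ) / La / 2 ≤ m := by linarith
  have hmpos : 0 < m := by
    have : (0 : ℝ) < m := by linarith
    exact_mod_cast this
  have hmR : (0 : ℝ) < m := by exact_mod_cast hmpos
  have hnm : (n : ℝ) / m ≤ 2 * La := by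
    rw [div_le_iff₀ hmR]
    have h3 : (n : ℝ) = 2 * La * ((n : ℝ) / La / 2) := by
      field_simp
    calc (n : ℝ) = 2 * La * ((n : ℝ) / La / 2) := h3
      _ ≤ 2 * La * m := mul_le_mul_of_nonneg_left hm2 (by linarith)
  set ν : ℕ → ℕ := fun p => ⌊(n : ℝ) * Real.log p / Real.log Q⌋₊ with hν
  have hνm : ∀ p ∈ P, m ≤ ν p := by
    intro p hp
    refine Nat.floor_le_floor ?_
    rw [hLa, div_div_eq_mul_div]
    refine div_le_div_of_nonneg_right ?_ hlogQ0
    refine mul_le_mul_of_nonneg_left ?_ hnpos.le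
    exact Real.log_le_log (by linarith) (hP p hp).2.1.le
  have hlev : ∀ d, 1 ≤ d → d ≤ Q → ∑ p ∈ P.filter (fun p => p ∣ d), ν p ≤ n := by
    intro d hd1 hd2
    have h3 : ∏ p ∈ P.filter (fun p => p ∣ d), p ∣ d := by
      refine Finset.prod_primes_dvd d ?_ ?_
      · intro p hp
        exact (hP p (mem_filter.mp hp).1).1.prime
      · intro p hp
        exact (mem_filter.mp hp).2
    have h4 : ∏ p ∈ P.filter (fun p => p ∣ d), p ≤ Q := (Nat.le_of_dvd hd1 h3).trans hd2
    have h5 : ∑ p ∈ P.filter (fun p => p ∣ d), Real.log p ≤ Real.log Q := by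
      rw [← Real.log_prod (fun p hp => by
        have := (hP p (mem_filter.mp hp).1).1.pos
        positivity)]
      have h4' : ((∏ p ∈ P.filter (fun p => p ∣ d), p : ℕ) : ℝ) ≤ Q := Nat.cast_le.mpr h4
      rw [Nat.cast_prod] at h4'
      refine Real.log_le_log ?_ h4'
      refine prod_pos fun p hp => ?_
      have := (hP p (mem_filter.mp hp).1).1.pos
      positivity
    have h6 : ((∑ p ∈ P.filter (fun p => p ∣ d), ν p : ℕ) : ℝ) ≤ n := by
      push_cast
      calc ∑ p ∈ P.filter (fun p => p ∣ d), ((ν p : ℕ) : ℝ)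
          ≤ ∑ p ∈ P.filter (fun p => p ∣ d), (n : ℝ) * Real.log p / Real.log Q := by
            refine sum_le_sum fun p _ => ?_
            refine Nat.floor_le ?_
            have := Real.log_natCast_nonneg p
            positivity
        _ = n * (∑ p ∈ P.filter (fun p => p ∣ d), Real.log p) / Real.log Q := by
            rw [← sum_div, ← mul_sum]
        _ ≤ n * Real.log Q / Real.log Q := by
            refine div_le_div_of_nonneg_right ?_ hlogQ0
            exact mul_le_mul_of_nonneg_left h5 hnpos.le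
        _ = n := by field_simp
    exact_mod_cast h6
  set J : ℕ := ⌊(U : ℝ) / y⌋₊ + 1 with hJd
  have hJ : ∀ p ∈ P, U / p + 1 ≤ J := by
    intro p hp
    refine Nat.add_le_add_right ?_ 1
    refine Nat.le_floor ?_
    refine (Nat.cast_div_le).trans ?_
    refine div_le_div_of_nonneg_left (by positivity) (by linarith) (hP p hp).2.1.le
  have hJR : (J : ℝ) ≤ U / y + 1 := by
    rw [hJd]
    push_cast
    have := Nat.floor_le (show (0 : ℝ) ≤ (U : ℝ) / y by positivity)
    linarith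
  have hSr : ∀ x, S x = S (x % R) := by
    intro x
    have h3 : ∀ k x0, S (x0 + k * R) = S x0 := by
      intro k
      induction k with
      | zero => intro x0; simp
      | succ k ih =>
        intro x0
        rw [Nat.succ_mul, ← Nat.add_assoc, hS, ih]
    conv_lhs => rw [← Nat.mod_add_div x R, Nat.mul_comm R (x / R)]
    exact h3 _ _
  set D : ℝ := 5 * ((n : ℝ) / m) / l with hD
  have hcls : ∀ r ∈ range R, mQ Q (fun x => wt Q c x * (if x % R = r then 1 else 0)
        * hit P (S r) x) ≤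
      (1 + 2 * l) * ((∑ p ∈ P, 1 / (p : ℝ)) * (S r).card + J * D) *
        mQ Q (fun x => wt Q c x * (if x % R = r then 1 else 0)) := fun r _ =>
    HIT_cls h1 h2 Q R r m n U J l P (S r) ν c hR (fun p hp => ⟨(hP p hp).1, (hP p hp).2.2⟩)
      (hSU r) hJ hνm hmpos hlev hw hl hl2
  have h3 := sum_le_sum hcls
  have hone : ∀ x : ℕ, ∑ r ∈ range R, (if x % R = r then (1 : ℝ) else 0) = 1 := by
    intro x
    rw [sum_ite_eq, if_pos (mem_range.mpr (Nat.mod_lt x hR0))]
  have e1 : ∑ r ∈ range R, mQ Q (fun x => wt Q c x * (if x % R = r then 1 else 0)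
        * hit P (S r) x) = mQ Q (fun x => wt Q c x * hit P (S x) x) := by
    rw [← HIT_mQ_sum]
    congr 1
    funext x
    have e2 : ∀ r ∈ range R, wt Q c x * (if x % R = r then (1 : ℝ) else 0) * hit P (S r) x
        = (wt Q c x * hit P (S x) x) * (if x % R = r then (1 : ℝ) else 0) := by
      intro r _
      by_cases h : x % R = r
      · rw [if_pos h, hSr x, h]
        ring
      · rw [if_neg h]
        ring
    rw [sum_congr rfl e2, ← mul_sum, hone, mul_one]
  have e3 : ∑ r ∈ range R, (1 + 2 * l) * ((∑ p ∈ P, 1 / (p : ℝ)) * (S r).card + J * D) *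
        mQ Q (fun x => wt Q c x * (if x % R = r then 1 else 0))
      = (1 + 2 * l) * ((∑ p ∈ P, 1 / (p : ℝ)) * mQ Q (fun x => wt Q c x * ((S x).card : ℝ))
        + J * D * mQ Q (wt Q c)) := by
    have e4 : mQ Q (fun x => wt Q c x * ((S x).card : ℝ)) = ∑ r ∈ range R, ((S r).card : ℝ)
        * mQ Q (fun x => wt Q c x * (if x % R = r then 1 else 0)) := by
      simp only [← HIT_mQ_mul]
      rw [← HIT_mQ_sum]
      congr 1
      funext x
      have e2 : ∀ r ∈ range R, ((S r).card : ℝ) * (wt Q c x * (if x % R = r then (1 : ℝ) else 0))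
          = (wt Q c x * (S x).card) * (if x % R = r then (1 : ℝ) else 0) := by
        intro r _
        by_cases h : x % R = r
        · rw [if_pos h, hSr x, h]
          ring
        · rw [if_neg h]
          ring
      rw [sum_congr rfl e2, ← mul_sum, hone, mul_one]
    have e5 : mQ Q (wt Q c) = ∑ r ∈ range R,
        mQ Q (fun x => wt Q c x * (if x % R = r then 1 else 0)) := by
      rw [← HIT_mQ_sum]
      congr 1
      funext x
      rw [← mul_sum, hone, mul_one]
    rw [e4, e5, mul_sum, mul_sum, ← sum_add_distrib, mul_sum]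
    refine sum_congr rfl fun r _ => ?_
    ring
  rw [e1, e3] at h3
  refine h3.trans ?_
  refine mul_le_mul_of_nonneg_left ?_ (by linarith)
  refine add_le_add le_rfl ?_
  refine mul_le_mul_of_nonneg_right ?_ hW0
  refine mul_le_mul hJR ?_ (by positivity) (by positivity)
  rw [hD]
  refine div_le_div_of_nonneg_right ?_ hl.le
  linarith

end Pool.Agent.N422.LG
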