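import Pool.Agent.N422.LG.Stm2
import Pool.Agent.N422.LG.REC

/-! Project LG (helper422): the recursion over the scales with relative errors (LG/REC2), by helper602. -/

set_option autoImplicit false

open Finset

namespace Pool.Agent.N422.LG

open Pool.Agent.N422.NW Pool.Agent.N422.SL Pool.Agent.N422.WS

/-- one step of the recursion, with the error of the scale -/
lemma REC2_step (hH : S_HIT) (Q U z z' : ℕ) (δ : ℝ) (c : ℕ → ℕ → ℝ) (hy : 2 ≤ z) (hzz : z ≤ z')
    (hzQ : z' ≤ Q) (hδ : 0 < δ) (hδ1 : δ ≤ 1 / 16) (hw : ∀ n, 0 ≤ wt Q c n) :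
    (1 - (1 + 2 * δ) * RECD z' z) * mQ Q (fun n => wt Q c n * ((Sv U z n).card : ℝ)) -
      (1 + 2 * δ) * ((U / (z : ℝ) + 1) * (10 * (Real.log Q / Real.log z) / δ)) * mQ Q (wt Q c) ≤
    mQ Q (fun n => wt Q c n * ((Sv U z' n).card : ℝ)) := by
  have h1 := hH Q U (RECR z) (z : ℝ) δ ((Icc 1 z').filter (fun p : ℕ => p.Prime ∧ z < p)) (fun n => Sv U z n) c
    (by exact_mod_cast (by omega : 1 < z)) hδ (by linarith) (RECR_pos z) (RECR_dvd (hzz.trans hzQ))
    (fun p hp => by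
      have h1 := mem_filter.1 hp
      refine ⟨h1.2.1, by exact_mod_cast h1.2.2, (mem_Icc.1 h1.1).2.trans hzQ, RECR_not h1.2.1 h1.2.2⟩)
    (fun n => REC_per U z n) (fun n => Finset.filter_subset _ _) hw
  have h2 : mQ Q (fun n => wt Q c n * ((Sv U z n).card : ℝ)) ≤
      mQ Q (fun n => wt Q c n * ((Sv U z' n).card : ℝ)) +
      mQ Q (fun n => wt Q c n * hit ((Icc 1 z').filter (fun p : ℕ => p.Prime ∧ z < p)) (Sv U z n) n) := by
    rw [← REC_mQ_add]
    apply REC_mQ_mono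
    intro n
    rw [← mul_add]
    exact mul_le_mul_of_nonneg_left (REC_card U z z' n) (hw n)
  have h5 : RECD z' z = ∑ p ∈ (Icc 1 z').filter (fun p : ℕ => p.Prime ∧ z < p), 1 / (p : ℝ) := rfl
  rw [← h5] at h1
  have h6 : (1 + 2 * δ) * (RECD z' z * mQ Q (fun n => wt Q c n * ((Sv U z n).card : ℝ)) +
      (U / (z : ℝ) + 1) * (10 * (Real.log Q / Real.log z) / δ) * mQ Q (wt Q c)) =
      (1 + 2 * δ) * RECD z' z * mQ Q (fun n => wt Q c n * ((Sv U z n).card : ℝ)) +
      (1 + 2 * δ) * ((U / (z : ℝ) + 1) * (10 * (Real.log Q / Real.log z) / δ)) * mQ Q (wt Q c) := by ring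
  rw [h6] at h1
  linarith

lemma REC2_exp {δ a : ℝ} (hδ1 : δ ≤ 1 / 16) (ha2 : a ≤ 2 * δ) : Real.exp a ≤ 8 / 7 := by
  have h1 : Real.exp a ≤ Real.exp (1 / 8) := Real.exp_le_exp.2 (by linarith)
  have h2 : (7 / 8 : ℝ) ≤ Real.exp (-(1 / 8)) := by
    have := Real.add_one_le_exp (-(1 / 8) : ℝ)
    linarith
  have h3 : Real.exp (1 / 8) * Real.exp (-(1 / 8)) = 1 := by rw [← Real.exp_add]; simp
  have h4 : Real.exp (1 / 8) * (7 / 8) ≤ 1 :=
    (mul_le_mul_of_nonneg_left h2 (Real.exp_pos _).le).trans h3.le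
  linarith

/-- the error of a step, multiplied by the later factors -/
lemma REC2_err {δ K a b L : ℝ} (U y z : ℝ) (hU : 0 ≤ U) (hy : 0 < y) (hyz : y ≤ z) (hδ : 0 < δ) (hδ1 : δ ≤ 1 / 16)
    (ha2 : a ≤ 2 * δ) (hb : 0 ≤ b) (hL : 0 ≤ L) (hK : Real.exp (-(a + b)) * L ≤ K) :
    Real.exp (-((1 + 8 * δ) * b)) * ((1 + 2 * δ) * ((U / z + 1) * (10 * L / δ))) ≤ (U / y + 1) * (20 * K / δ) := by
  have h1 : Real.exp (-((1 + 8 * δ) * b)) ≤ Real.exp (-(a + b)) * Real.exp a := by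
    rw [← Real.exp_add]
    apply Real.exp_le_exp.2
    nlinarith [mul_nonneg hδ.le hb]
  have h2 : Real.exp (-(a + b)) * Real.exp a ≤ Real.exp (-(a + b)) * (8 / 7) :=
    mul_le_mul_of_nonneg_left (REC2_exp hδ1 ha2) (Real.exp_pos _).le
  have h3 : Real.exp (-((1 + 8 * δ) * b)) * L ≤ 8 / 7 * K := by
    calc Real.exp (-((1 + 8 * δ) * b)) * L ≤ Real.exp (-(a + b)) * (8 / 7) * L :=
          mul_le_mul_of_nonneg_right (h1.trans h2) hL
      _ = 8 / 7 * (Real.exp (-(a + b)) * L) := by ring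
      _ ≤ 8 / 7 * K := mul_le_mul_of_nonneg_left hK (by norm_num)
  have hz : 0 < z := hy.trans_le hyz
  have h4 : U / z + 1 ≤ U / y + 1 := by
    have := div_le_div_of_nonneg_left hU hy hyz
    linarith
  have h5 : 0 ≤ U / z + 1 := by positivity
  have h6 : 0 ≤ Real.exp (-((1 + 8 * δ) * b)) * L := mul_nonneg (Real.exp_pos _).le hL
  have hK0 : 0 ≤ K := (mul_nonneg (Real.exp_pos _).le hL).trans hK
  have h7 : (1 + 2 * δ) * (Real.exp (-((1 + 8 * δ) * b)) * L) ≤ 2 * K := by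
    calc (1 + 2 * δ) * (Real.exp (-((1 + 8 * δ) * b)) * L) ≤ (9 / 8) * (8 / 7 * K) :=
          mul_le_mul (by linarith) h3 h6 (by norm_num)
      _ ≤ 2 * K := by nlinarith
  have h8 : 0 ≤ (1 + 2 * δ) * (Real.exp (-((1 + 8 * δ) * b)) * L) * (10 / δ) :=
    mul_nonneg (mul_nonneg (by linarith) h6) (by positivity)
  calc Real.exp (-((1 + 8 * δ) * b)) * ((1 + 2 * δ) * ((U / z + 1) * (10 * L / δ)))
      = (U / z + 1) * (((1 + 2 * δ) * (Real.exp (-((1 + 8 * δ) * b)) * L)) * (10 / δ)) := by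
        ring
    _ ≤ (U / y + 1) * ((2 * K) * (10 / δ)) := by
        apply mul_le_mul h4 _ h8 (h5.trans h4)
        exact mul_le_mul_of_nonneg_right h7 (by positivity)
    _ = (U / y + 1) * (20 * K / δ) := by
        ring

theorem t_REC2 (h : S_HIT) : S_REC2 := by
  intro Q U y δ K c hy hyQ hδ hδ1 hyδ hw hK
  have hy0 : (0 : ℝ) < y := by exact_mod_cast (by omega : 0 < y)
  have hB : 0 ≤ mQ Q (wt Q c) := REC_mQ_nonneg hw
  have hKD : ∀ z : ℕ, y ≤ z → z ≤ Q → Real.exp (-RECD Q z) * (Real.log Q / Real.log z) ≤ K := hK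
  have hlog : ∀ z : ℕ, y ≤ z → 0 ≤ Real.log Q / Real.log z := fun z _ =>
    div_nonneg (Real.log_natCast_nonneg Q) (Real.log_natCast_nonneg z)
  have hK0 : 0 ≤ K := (mul_nonneg (Real.exp_pos _).le (hlog Q hyQ)).trans (hKD Q hyQ le_rfl)
  obtain ⟨E, hE⟩ : ∃ E : ℝ, E = (U / y + 1) * (20 * K / δ) := ⟨_, rfl⟩
  have hE0 : 0 ≤ E := by
    rw [hE]
    positivity
  obtain ⟨A, hA⟩ : ∃ A : ℕ → ℝ, ∀ z, A z = mQ Q (fun n => wt Q c n * ((Sv U z n).card : ℝ)) := ⟨_, fun _ => rfl⟩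
  have hA0 : ∀ z, 0 ≤ A z := fun z => by
    rw [hA]
    exact REC_mQ_nonneg (fun n => mul_nonneg (hw n) (Nat.cast_nonneg _))
  have hEB : 0 ≤ E * mQ Q (wt Q c) := mul_nonneg hE0 hB
  have step : ∀ z z', y ≤ z → z ≤ z' → z' ≤ Q → RECD z' z ≤ 2 * δ →
      Real.exp (-((1 + 8 * δ) * RECD Q z)) * A z - E * mQ Q (wt Q c) ≤
        Real.exp (-((1 + 8 * δ) * RECD Q z')) * A z' := by
    intro z z' h1 h2 h3 h4
    have h5 := REC2_step h Q U z z' δ c (hy.trans h1) h2 h3 hδ hδ1 hw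
    rw [← hA, ← hA] at h5
    have hd := RECD_add h2 h3
    have h6 := mul_le_mul_of_nonneg_right (REC_factor hδ hδ1 (RECD_nonneg z' z) h4) (hA0 z)
    have hk := hKD z h1 (h2.trans h3)
    rw [hd] at hk
    have h7 := REC2_err (U : ℝ) (y : ℝ) (z : ℝ) (Nat.cast_nonneg U) hy0 (by exact_mod_cast h1) hδ hδ1 h4
      (RECD_nonneg Q z') (hlog z h1) hk
    rw [← hE] at h7
    have h8 := mul_le_mul_of_nonneg_right h7 hB
    obtain ⟨f, hf⟩ : ∃ f, f = Real.exp (-((1 + 8 * δ) * RECD Q z')) := ⟨_, rfl⟩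
    have hf0 : 0 ≤ f := by rw [hf]; exact (Real.exp_pos _).le
    rw [← hf] at h8 ⊢
    have h9 : Real.exp (-((1 + 8 * δ) * RECD Q z)) = f * Real.exp (-((1 + 8 * δ) * RECD z' z)) := by
      rw [hf, ← Real.exp_add, hd]
      congr 1
      ring
    rw [h9]
    have h10 := mul_le_mul_of_nonneg_left h6 hf0
    have h11 := mul_le_mul_of_nonneg_left h5 hf0
    rw [mul_sub] at h11
    have h13 : f * ((1 + 2 * δ) * ((U / (z : ℝ) + 1) * (10 * (Real.log Q / Real.log z) / δ)) * mQ Q (wt Q c)) =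
      f * ((1 + 2 * δ) * ((U / (z : ℝ) + 1) * (10 * (Real.log Q / Real.log z) / δ))) * mQ Q (wt Q c) := by ring
    rw [h13] at h11
    have h14 : f * Real.exp (-((1 + 8 * δ) * RECD z' z)) * A z =
      f * (Real.exp (-((1 + 8 * δ) * RECD z' z)) * A z) := by ring
    rw [h14]
    linarith
  have main : ∀ k z, Q - z = k → y ≤ z → z ≤ Q →
      Real.exp (-((1 + 8 * δ) * RECD Q z)) * A z - (RECD Q z / δ + 1) * E * mQ Q (wt Q c) ≤ A Q := by
    intro k
    induction k using Nat.strong_induction_on with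
    | _ k ih =>
      intro z hk hyz hzQ
      by_cases hD : RECD Q z ≤ δ
      · have h1 := step z Q hyz hzQ le_rfl (by linarith)
        rw [RECD_self Q] at h1
        simp only [mul_zero, neg_zero, Real.exp_zero, one_mul] at h1
        have h2 : 0 ≤ RECD Q z / δ * (E * mQ Q (wt Q c)) :=
          mul_nonneg (div_nonneg (RECD_nonneg Q z) hδ.le) hEB
        have h3 : (RECD Q z / δ + 1) * E * mQ Q (wt Q c) =
          RECD Q z / δ * (E * mQ Q (wt Q c)) + E * mQ Q (wt Q c) := by ring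
        rw [h3]
        linarith
      · rw [not_le] at hD
        classical
        have hex : ∃ z', z ≤ z' ∧ δ < RECD z' z := ⟨Q, hzQ, hD⟩
        obtain ⟨z', hz', hmin⟩ : ∃ z', (z ≤ z' ∧ δ < RECD z' z) ∧ ∀ m < z', ¬ (z ≤ m ∧ δ < RECD m z) :=
          ⟨Nat.find hex, Nat.find_spec hex, fun m hm => Nat.find_min hex hm⟩
        have hzQ' : z' ≤ Q := by
          by_contra hcon
          exact hmin Q (not_le.1 hcon) ⟨hzQ, hD⟩
        have hne : z ≠ z' := by
          rintro rfl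
          have := hz'.2
          rw [RECD_self] at this
          linarith
        have hlt : z < z' := lt_of_le_of_ne hz'.1 hne
        obtain ⟨m, rfl⟩ : ∃ m, z' = m + 1 := ⟨z' - 1, by omega⟩
        have hm : RECD m z ≤ δ := by
          have := hmin m (by omega)
          push Not at this
          exact this (by omega)
        have h2 : RECD (m + 1) z ≤ 2 * δ := by
          have h3 := RECD_succ z m
          have h4 : 1 / ((m : ℝ) + 1) ≤ 1 / (y : ℝ) := by
            apply one_div_le_one_div_of_le hy0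
            exact_mod_cast (by omega : y ≤ m + 1)
          linarith
        have h3 := step z (m + 1) hyz hlt.le hzQ' h2
        have h4 := ih (Q - (m + 1)) (by omega) (m + 1) rfl (by omega) hzQ'
        have h5 := RECD_add hlt.le hzQ'
        have h10 : (RECD Q (m + 1) / δ + 2) * (E * mQ Q (wt Q c)) ≤ (RECD Q z / δ + 1) * (E * mQ Q (wt Q c)) := by
          apply mul_le_mul_of_nonneg_right _ hEB
          rw [h5, add_div]
          have h11 : 1 ≤ RECD (m + 1) z / δ := by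
            rw [le_div_iff₀ hδ]
            linarith [hz'.2]
          linarith
        have h12 : (RECD Q z / δ + 1) * E * mQ Q (wt Q c) = (RECD Q z / δ + 1) * (E * mQ Q (wt Q c)) := by ring
        have h13 : (RECD Q (m + 1) / δ + 1) * E * mQ Q (wt Q c) + E * mQ Q (wt Q c) =
          (RECD Q (m + 1) / δ + 2) * (E * mQ Q (wt Q c)) := by ring
        rw [h12]
        linarith
  have h1 := main (Q - y) y rfl le_rfl hyQ
  rw [hA, hA, hE] at h1
  exact h1

end Pool.Agent.N422.LG
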