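import Pool.Agent.N422.LG.MOD3
import Pool.Agent.N422.LG.ARG
import Pool.Agent.N422.LG.HIT
import Pool.Agent.N422.LG.REC
import Pool.Agent.N422.LG.REC2
import Pool.Agent.N422.LG.FUND
import Pool.Agent.N422.LG.LIN2
import Pool.Agent.N422.LG.MERB
import Pool.Agent.N422.LG.MERB2
import Pool.Agent.N422.LG.FIN
import Pool.Agent.N422.LG.FIN2
import Pool.Agent.N422.WS.ALL

/-! Project LG: assembly. Author: helper422 (parts: helpers 919, 286, 692, 289, 602, 545, 31, 80, 878, 81, 400). -/

set_option autoImplicit false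

namespace Pool.Agent.N422.LG

open Finset Pool.Agent.N422.NW Pool.Agent.N422.SL Pool.Agent.N422.WS

theorem hit_all : S_HIT := t_HIT (t_MOD3 (t_W t_AV) WS.km) t_ARG

theorem fin_all : S_FIN := t_FIN (t_REC hit_all) t_FUND t_MERB

theorem fin2_all : S_FIN2 2 := t_FIN2 2 le_rfl (t_REC2 hit_all) t_LIN2 t_MERB2

end Pool.Agent.N422.LG
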