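import Pool.Agent.N422.LG.Stm3
import Pool.Agent.N422.NW.AR

/-! Project LG (helper422), leaf ARDG (helper592; adapted from CD/ARD by helper273 and NW/AR by helper92):
from the model to periodic functions, general periods. -/

set_option autoImplicit false

open Finset

namespace Pool.Agent.N422.LG

open Pool.Agent.N422.NW Pool.Agent.N422.SL Pool.Agent.N422.WS

theorem t_ARDG : S_ARDG := by
  classical
  intro N k hs q ν n J M per F hinj hp hu hM hqM hF hν
  set pat : ℕ → St N k := ARpat hs q with hpat
  set W : ℕ → ℝ := fun x => ∑ j ∈ range J, F j x with hWd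
  set mu : St N k → ℝ := muP (fun i => (q i : ℝ)) with hmu
  have hmu0 : ∀ γ, 0 < mu γ := by
    intro γ
    have := AR_mu_pos q (fun i => (hp i).2) γ univ
    exact this
  have hM0 : (0 : ℝ) < M := by exact_mod_cast hM
  -- the functions on the states
  set tr : (ℕ → ℝ) → St N k → ℝ := fun u γ =>
    1 / (M * mu γ) * ∑ x ∈ range M, (if pat x = γ then u x else 0) with htr
  have htrW : ∀ (u : ℕ → ℝ) (Φ : St N k → ℝ),
      ∑ γ, mu γ * tr u γ * Φ γ = 1 / M * ∑ x ∈ range M, u x * Φ (pat x) := by
    intro u Φ
    have h1 : ∀ γ, mu γ * tr u γ * Φ γ =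
        1 / M * ∑ x ∈ range M, (if pat x = γ then u x * Φ γ else 0) := by
      intro γ
      have h2 : mu γ * tr u γ = 1 / M * ∑ x ∈ range M, (if pat x = γ then u x else 0) := by
        simp only [htr]
        have := (hmu0 γ).ne'
        field_simp
      rw [h2, mul_assoc, Finset.sum_mul]
      congr 1
      apply Finset.sum_congr rfl
      intro x _
      split_ifs <;> simp
    simp only [h1]
    rw [← Finset.mul_sum, Finset.sum_comm]
    congr 1
    apply Finset.sum_congr rfl
    intro x _
    rw [Finset.sum_ite_eq]
    simp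
  -- the level
  have hlev : ∀ d ∈ range J, ∀ γ γ' : St N k,
      (∀ i ∈ univ.filter (fun i => q i ∣ per d), γ i = γ' i) → tr (F d) γ = tr (F d) γ' := by
    intro d hd
    set S : Finset (Fin N) := univ.filter (fun i => q i ∣ per d) with hS
    have key : ∀ γ : St N k, tr (F d) γ = 1 / (M * ∏ i ∈ S, mu1 (q i : ℝ) (γ i)) *
        ∑ x ∈ range M, (if ∀ i ∈ S, pat x i = γ i then F d x else 0) := by
      intro γ
      have hper : Function.Periodic (fun x => if ∀ i ∈ S, pat x i = γ i then F d x else 0) (per d) := by
        intro x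
        have h1 := (hF d hd).1 x
        have h0 : ∀ i ∈ S, pat (x + per d) i = pat x i := by
          intro i hi
          rw [hS, Finset.mem_filter] at hi
          exact ARpat_per hs q hu (per d) i hi.2 x
        have h2 : (∀ i ∈ S, pat (x + per d) i = γ i) ↔ (∀ i ∈ S, pat x i = γ i) := by
          constructor
          · intro h i hi; rw [← h0 i hi]; exact h i hi
          · intro h i hi; rw [h0 i hi]; exact h i hi
        simp only [h1, h2]
      have h3 := AR_indep hs q hu hinj (fun i => (hp i).1) M hM hqM γ (univ \ S) (per d) _ hper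
        (hF d hd).2 (by
          intro i hi
          rw [Finset.mem_sdiff, hS, Finset.mem_filter] at hi
          intro h
          exact hi.2 ⟨Finset.mem_univ _, h⟩)
      have h4 : ∑ x ∈ range M, (if pat x = γ then F d x else 0) =
          ∑ x ∈ range M, (if ∀ i ∈ univ \ S, ARpat hs q x i = γ i then
            (if ∀ i ∈ S, pat x i = γ i then F d x else 0) else 0) := by
        apply Finset.sum_congr rfl
        intro x _
        by_cases h : pat x = γ
        · rw [if_pos h, if_pos (fun i _ => congrFun h i), if_pos (fun i _ => congrFun h i)]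
        · rw [if_neg h]
          by_cases h5 : ∀ i ∈ univ \ S, ARpat hs q x i = γ i
          · rw [if_pos h5, if_neg]
            intro h6
            apply h
            funext i
            by_cases hi : i ∈ S
            · exact h6 i hi
            · exact h5 i (Finset.mem_sdiff.mpr ⟨Finset.mem_univ _, hi⟩)
          · rw [if_neg h5]
      have h5 : mu γ = (∏ i ∈ univ \ S, mu1 (q i : ℝ) (γ i)) * ∏ i ∈ S, mu1 (q i : ℝ) (γ i) := by
        rw [Finset.prod_sdiff (Finset.subset_univ S)]
        rfl
      have h6 := AR_mu_pos q (fun i => (hp i).2) γ S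
      have h7 := AR_mu_pos q (fun i => (hp i).2) γ (univ \ S)
      simp only [htr]
      rw [h4, h3, h5]
      field_simp
    intro γ γ' hγ
    rw [key γ, key γ']
    have h1 : ∏ i ∈ S, mu1 (q i : ℝ) (γ i) = ∏ i ∈ S, mu1 (q i : ℝ) (γ' i) :=
      Finset.prod_congr rfl (fun i hi => by rw [hγ i hi])
    have h2 : ∀ x, (∀ i ∈ S, pat x i = γ i) ↔ (∀ i ∈ S, pat x i = γ' i) := by
      intro x
      constructor
      · intro h i hi; rw [← hγ i hi]; exact h i hi
      · intro h i hi; rw [hγ i hi]; exact h i hi
    rw [h1]
    simp only [h2]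
  have hWsum : ∀ γ, tr W γ = ∑ y : Fin J, tr (F y) γ := by
    intro γ
    rw [Fin.sum_univ_eq_sum_range (fun y => tr (F y) γ) J]
    simp only [htr]
    rw [← Finset.mul_sum, Finset.sum_comm]
    congr 1
    apply Finset.sum_congr rfl
    intro x _
    split_ifs
    · rfl
    · simp
  have hcnt : ∀ γ : St N k, ∑ x ∈ range M, (if pat x = γ then (1 : ℝ) else 0) = mu γ * M := by
    intro γ
    have h1 := AR_indep hs q hu hinj (fun i => (hp i).1) M hM hqM γ univ 1 (fun _ => (1 : ℝ))
      (fun _ => rfl) (one_dvd M) (fun i _ h => (hp i).1.one_lt.ne' (Nat.dvd_one.1 h))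
    have h2 : ∑ x ∈ range M, (if pat x = γ then (1 : ℝ) else 0) =
        ∑ x ∈ range M, (if ∀ i ∈ univ, ARpat hs q x i = γ i then (1 : ℝ) else 0) := by
      refine Finset.sum_congr rfl fun x _ => ?_
      by_cases h : pat x = γ
      · rw [if_pos h, if_pos (fun i _ => congrFun h i)]
      · rw [if_neg h, if_neg]
        intro h3
        exact h (funext fun i => h3 i (Finset.mem_univ _))
    rw [h2, h1]
    simp only [Finset.sum_const, Finset.card_range, nsmul_eq_mul, mul_one]
    rfl
  have hst : ∀ (γ : St N k) (x : ℕ), pat x = γ → ∀ i a, γ i = some a ↔ q i ∣ x + hs a := by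
    intro γ x h i a
    rw [← h]
    exact ARpat_some hs q hu x i a
  have e3 : ∀ x, (alive (pat x) N) = univ.filter (fun a : Fin k => ∀ i, ¬ q i ∣ x + hs a) := by
    intro x
    unfold alive
    ext a
    simp only [Finset.mem_filter, Finset.mem_univ, true_and]
    constructor
    · intro h i hd
      exact h i i.2 ((ARpat_some hs q hu x i a).mpr hd)
    · intro h i _ hd
      exact h i ((ARpat_some hs q hu x i a).mp hd)
  refine ⟨tr W, ⟨J, fun y => univ.filter (fun i => q i ∣ per y), fun y => tr (F y), by
        intro y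
        exact hν y (Finset.mem_range.mpr y.2), by
        intro y γ γ' h
        exact hlev y (Finset.mem_range.mpr y.2) γ γ' h, hWsum⟩, ?_, ?_, ?_⟩
  · intro γ b hb
    have h1 : b * (mu γ * M) ≤ ∑ x ∈ range M, (if pat x = γ then W x else 0) := by
      rw [← hcnt γ, Finset.mul_sum]
      refine Finset.sum_le_sum fun x _ => ?_
      by_cases h : pat x = γ
      · rw [if_pos h, if_pos h, mul_one]
        exact hb x (hst γ x h)
      · rw [if_neg h, if_neg h, mul_zero]
    have h2 := hmu0 γ
    simp only [htr]
    rw [one_div, ← div_eq_inv_mul, le_div_iff₀ (by positivity)]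
    linarith
  · have e2 := htrW W (fun _ => 1)
    simp only [mul_one] at e2
    rw [e2]
    ring
  · have e1 := htrW W (fun γ => ((alive γ N).card : ℝ))
    rw [e1]
    simp only [e3]
    ring

end Pool.Agent.N422.LG
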