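import Pool.Agent.N422.LG.Stm4
import Pool.Agent.N422.LG.FIN2

/-! Project LG (helper422), job LG/FIN3 (helper310): the upper bound with the exponent one. -/

set_option autoImplicit false

open Finset

namespace Pool.Agent.N422.LG

open Pool.Agent.N422.NW Pool.Agent.N422.SL Pool.Agent.N422.WS

theorem t_FIN3 (h1 : S_RECU2) (h2 : S_SUB) (h3 : S_MERB2) : S_FIN3 := by
  intro ε0 hε0
  -- we may assume `ε ≤ 1`
  obtain ⟨ε, hε, hε1, hεε⟩ : ∃ ε : ℝ, 0 < ε ∧ ε ≤ 1 ∧ ε ≤ ε0 :=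
    ⟨min ε0 1, lt_min hε0 one_pos, min_le_right _ _, min_le_left _ _⟩
  obtain ⟨c, hc, y0, hy0⟩ := h2 (ε / 2) (by positivity)
  obtain ⟨K, hK, h3⟩ := h3
  have hK0 : 0 < K := by linarith
  obtain ⟨a, ha⟩ : ∃ a : ℝ, a = ε / 8 := ⟨_, rfl⟩
  have ha0 : 0 < a := by rw [ha]; positivity
  have ha1 : a ≤ 1 / 8 := by rw [ha]; linarith
  obtain ⟨A, hA⟩ : ∃ A : ℝ, A = 1088 * Real.exp 1 * K := ⟨_, rfl⟩
  have hA0 : 0 < A := by rw [hA]; positivity
  obtain ⟨Q0, hQ0⟩ := Filter.eventually_atTop.1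
    (FIN2_ev y0 (Real.log K + 1) (8 * A) a (by positivity) ha0)
  refine ⟨Real.exp 1 * c * K ^ 2 + 1, by positivity, Q0, fun Q hQ U hU w hw => ?_⟩
  obtain ⟨q1, q2, q3, q4, q5, q6, q7, q8⟩ := hQ0 Q hQ
  set L : ℝ := Real.log Q with hL
  clear_value L
  have hL0 : 0 < L := by linarith
  have hL1 : 1 ≤ L := by linarith
  have hLL : 0 ≤ Real.log L := Real.log_nonneg hL1
  have hLK : 0 ≤ Real.log K := Real.log_nonneg hK
  have hU' : L ^ (1 + ε) ≤ U :=
    (Real.rpow_le_rpow_of_exponent_le hL1 (by linarith)).trans hU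
  -- the parameter `T`
  obtain ⟨T, hT⟩ : ∃ T : ℝ, T = Real.log L + Real.log K + 1 := ⟨_, rfl⟩
  have hT1 : 1 ≤ T := by rw [hT]; linarith
  have hT0 : 0 < T := by linarith
  have hT2 : T ≤ 2 * Real.log L := by rw [hT]; linarith
  have hAT : A * T ^ 3 ≤ L ^ a := by
    have h5 : T ^ 3 ≤ (2 * Real.log L) ^ 3 := pow_le_pow_left₀ hT0.le hT2 3
    calc A * T ^ 3 ≤ A * (2 * Real.log L) ^ 3 := mul_le_mul_of_nonneg_left h5 hA0.le
      _ = 8 * A * Real.log L ^ 3 := by ring
      _ ≤ L ^ a := q5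
  -- the first scale
  set y : ℕ := ⌈L ^ (1 + a)⌉₊ with hy
  have hLa : L ^ (1 + a) = L * L ^ a := by
    rw [Real.rpow_add hL0, Real.rpow_one]
  have hLa1 : L ≤ L ^ (1 + a) := by
    rw [hLa]
    nlinarith
  have hy1 : L ^ (1 + a) ≤ (y : ℝ) := Nat.le_ceil _
  have hy2 : (y : ℝ) < L ^ (1 + a) + 1 := Nat.ceil_lt_add_one (by positivity)
  have hyL : L ≤ (y : ℝ) := hLa1.trans hy1
  have hy5 : (y : ℝ) ≤ L ^ (1 + 2 * a) := by
    have h4 : L ^ (1 + 2 * a) = L ^ (1 + a) * L ^ a := by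
      rw [← Real.rpow_add hL0]
      congr 1
      ring
    rw [h4]
    nlinarith
  have hy3 : 3 ≤ y := by
    have : (3 : ℝ) ≤ y := by linarith
    exact_mod_cast this
  have hyQ : y ≤ Q := by
    have h4 : L ^ (1 + 2 * a) ≤ L ^ (2 : ℝ) := Real.rpow_le_rpow_of_exponent_le hL1 (by linarith)
    rw [Real.rpow_two] at h4
    have : (y : ℝ) ≤ Q := hy5.trans (h4.trans q7)
    exact_mod_cast this
  have hyy0 : y0 ≤ y := by
    have : (y0 : ℝ) ≤ y := by linarith
    exact_mod_cast this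
  have hUy : (y : ℝ) ^ (1 + ε / 2) ≤ U := by
    calc (y : ℝ) ^ (1 + ε / 2) ≤ (L ^ (1 + 2 * a)) ^ (1 + ε / 2) :=
          Real.rpow_le_rpow (by positivity) hy5 (by positivity)
      _ = L ^ ((1 + 2 * a) * (1 + ε / 2)) := by rw [← Real.rpow_mul hL0.le]
      _ ≤ L ^ (1 + ε) := by
          apply Real.rpow_le_rpow_of_exponent_le hL1
          rw [ha]
          nlinarith
      _ ≤ U := hU'
  have hf := hy0 y hyy0 U hUy
  have hlogy : 0 < Real.log y := by
    apply Real.log_pos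
    linarith
  -- Mertens
  obtain ⟨m1, m2, m3, m4⟩ := h3 y Q (by omega) hyQ
  have hU0 : (0 : ℝ) ≤ U := Nat.cast_nonneg _
  -- the mean
  set M : ℝ := mQ Q (wt Q w) with hM
  have hM0 : 0 ≤ M := FIN2_nonneg Q hw
  have hm : mQ Q (fun n => wt Q w n * ((Sv U y n).card : ℝ)) ≤
      c * (U * (K / Real.log y)) * M := by
    rw [hM, ← FIN2_smul]
    refine FIN2_mono Q fun n => ?_
    rw [mul_comm]
    refine mul_le_mul_of_nonneg_right (le_trans (hf n) ?_) (hw n)
    gcongr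
  -- the sums
  have hDz : ∀ z : ℕ, y ≤ z → z ≤ Q → ∑ p ∈ PQ Q z, 1 / (p : ℝ) ≤ T := by
    intro z hz1 hz2
    obtain ⟨n1, n2, n3, n4⟩ := h3 z Q (by omega) hz2
    set D : ℝ := ∑ p ∈ PQ Q z, 1 / (p : ℝ) with hD
    have hz3 : (3 : ℝ) ≤ z := by exact_mod_cast hy3.trans hz1
    have h4 : Real.log z / L ≤ K * Real.exp (-D) := by rw [hL]; exact n2
    have h5 : Real.exp D ≤ K * L := by
      have h6 : Real.log z / L * (Real.exp D * L) ≤ K * Real.exp (-D) * (Real.exp D * L) :=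
        mul_le_mul_of_nonneg_right h4 (by positivity)
      have h7 : K * Real.exp (-D) * (Real.exp D * L) = K * L := by
        rw [Real.exp_neg]
        field_simp
      have h8 : Real.log z / L * (Real.exp D * L) = Real.log z * Real.exp D := by
        field_simp
      rw [h7, h8] at h6
      have h9 : 1 ≤ Real.log z := by
        rw [Real.le_log_iff_exp_le (by linarith)]
        have := Real.exp_one_lt_d9
        linarith
      have h10 := Real.exp_pos D
      nlinarith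
    have h6 := Real.log_le_log (Real.exp_pos D) h5
    rw [Real.log_exp, Real.log_mul hK0.ne' hL0.ne'] at h6
    rw [hT]
    linarith
  -- the parameter `δ`
  obtain ⟨δ, hδ⟩ : ∃ δ : ℝ, δ = 1 / (16 * T) := ⟨_, rfl⟩
  have hδ0 : 0 < δ := by rw [hδ]; positivity
  have hδT : δ * (16 * T) = 1 := by rw [hδ]; field_simp
  have hδ1 : δ ≤ 1 / 16 := by nlinarith
  have hinv : 1 / δ = 16 * T := by rw [hδ]; field_simp
  have hyδ : 1 / (y : ℝ) ≤ δ := by
    have h4 : 1 / δ ≤ y := by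
      rw [hinv]
      linarith
    rw [div_le_iff₀ (by linarith)]
    rw [div_le_iff₀ hδ0] at h4
    linarith
  have hexpz : ∀ z : ℕ, y ≤ z → z ≤ Q → Real.exp (-((1 - 3 * δ) * ∑ p ∈ PQ Q z, 1 / (p : ℝ))) ≤
      Real.exp 1 * Real.exp (-(∑ p ∈ PQ Q z, 1 / (p : ℝ))) := by
    intro z hz1 hz2
    have h4 := hDz z hz1 hz2
    rw [← Real.exp_add]
    refine Real.exp_le_exp.2 ?_
    have h5 : 3 * δ * ∑ p ∈ PQ Q z, 1 / (p : ℝ) ≤ 1 := by
      have h6 : 3 * δ * ∑ p ∈ PQ Q z, 1 / (p : ℝ) ≤ 3 * δ * T :=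
        mul_le_mul_of_nonneg_left h4 (by positivity)
      nlinarith
    linarith
  have hmain := h1 Q U y δ (Real.exp 1 * K) w (by omega) hyQ hδ0 hδ1 hyδ hw (by
    intro z hz1 hz2
    have h4 := (h3 z Q (by omega) hz2).1
    have hz3 : (3 : ℝ) ≤ z := by exact_mod_cast hy3.trans hz1
    have h5 : 0 ≤ Real.log Q / Real.log z := by
      rw [← hL]
      exact div_nonneg hL0.le (Real.log_nonneg (by linarith))
    calc Real.exp (-((1 - 3 * δ) * ∑ p ∈ PQ Q z, 1 / (p : ℝ))) * (Real.log Q / Real.log z)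
        ≤ (Real.exp 1 * Real.exp (-(∑ p ∈ PQ Q z, 1 / (p : ℝ)))) * (Real.log Q / Real.log z) :=
          mul_le_mul_of_nonneg_right (hexpz z hz1 hz2) h5
      _ = Real.exp 1 * (Real.exp (-(∑ p ∈ PQ Q z, 1 / (p : ℝ))) * (Real.log Q / Real.log z)) := by
          ring
      _ ≤ Real.exp 1 * K := mul_le_mul_of_nonneg_left h4 (Real.exp_pos _).le)
  have hexpy := hexpz y le_rfl hyQ
  have hDT := hDz y le_rfl hyQ
  set D : ℝ := ∑ p ∈ PQ Q y, 1 / (p : ℝ) with hD
  have hD0 : 0 ≤ D := Finset.sum_nonneg fun p _ => by positivity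
  rw [← hM] at hmain
  -- the main term
  have hexp : Real.exp (-((1 - 3 * δ) * D)) ≤ Real.exp 1 * (K * Real.log y / L) := by
    refine hexpy.trans (mul_le_mul_of_nonneg_left ?_ (Real.exp_pos _).le)
    have h5 : Real.exp (-D) * (L / Real.log y) ≤ K := by rw [hL]; exact m1
    rw [le_div_iff₀ hL0]
    have h6 : Real.exp (-D) * (L / Real.log y) * Real.log y ≤ K * Real.log y :=
      mul_le_mul_of_nonneg_right h5 hlogy.le
    have h7 : Real.exp (-D) * (L / Real.log y) * Real.log y = Real.exp (-D) * L := by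
      field_simp
    linarith
  have hMT : Real.exp (-((1 - 3 * δ) * D)) * mQ Q (fun n => wt Q w n * ((Sv U y n).card : ℝ)) ≤
      Real.exp 1 * c * K ^ 2 * (U / L) * M := by
    calc Real.exp (-((1 - 3 * δ) * D)) * mQ Q (fun n => wt Q w n * ((Sv U y n).card : ℝ))
        ≤ (Real.exp 1 * (K * Real.log y / L)) * (c * (U * (K / Real.log y)) * M) :=
          mul_le_mul hexp hm (FIN2_nonneg Q fun n => mul_nonneg (hw n) (Nat.cast_nonneg _))
            (by positivity)
      _ = Real.exp 1 * c * K ^ 2 * (U / L) * M := by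
          field_simp
  -- the error
  have hE : (D / δ + 1) * ((U / y + 1) * (2 * (Real.exp 1 * K) / δ)) ≤ U / L := by
    have f1 : D / δ + 1 ≤ 17 * T ^ 2 := by
      have g1 : D / δ ≤ T / δ := div_le_div_of_nonneg_right hDT hδ0.le
      have g2 : T / δ = 16 * T ^ 2 := by
        rw [div_eq_mul_one_div, hinv]
        ring
      have g3 : 1 ≤ T ^ 2 := one_le_pow₀ hT1
      linarith
    have f2 : (U : ℝ) / y + 1 ≤ 2 * (U / L ^ (1 + a)) := by
      have g1 : (U : ℝ) / y ≤ U / L ^ (1 + a) := div_le_div_of_nonneg_left hU0 (by positivity) hy1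
      have g2 : 1 ≤ (U : ℝ) / L ^ (1 + a) := by
        rw [le_div_iff₀ (by positivity), one_mul]
        refine le_trans ?_ hU'
        exact Real.rpow_le_rpow_of_exponent_le hL1 (by rw [ha]; linarith)
      linarith
    have f3 : 2 * (Real.exp 1 * K) / δ = 32 * (Real.exp 1 * K) * T := by
      rw [div_eq_mul_one_div, hinv]
      ring
    have f4 : (0 : ℝ) ≤ D / δ + 1 := by positivity
    have f5 : (0 : ℝ) < L ^ a := by positivity
    rw [f3]
    calc (D / δ + 1) * ((U / y + 1) * (32 * (Real.exp 1 * K) * T))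
        ≤ (17 * T ^ 2) * ((2 * (U / L ^ (1 + a))) * (32 * (Real.exp 1 * K) * T)) := by
          refine mul_le_mul f1 ?_ (by positivity) (by positivity)
          exact mul_le_mul_of_nonneg_right f2 (by positivity)
      _ = (A * T ^ 3) * (U / (L * L ^ a)) := by
          rw [hA, hLa]
          field_simp
          ring
      _ ≤ L ^ a * (U / (L * L ^ a)) :=
          mul_le_mul_of_nonneg_right hAT (by positivity)
      _ = _ := by
          field_simp
  have hE2 := mul_le_mul_of_nonneg_right hE hM0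
  have hfin : (Real.exp 1 * c * K ^ 2 + 1) * (U / L) * M =
      Real.exp 1 * c * K ^ 2 * (U / L) * M + U / L * M := by
    ring
  rw [hfin]
  linarith

end Pool.Agent.N422.LG
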