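import Pool.Agent.N422.LG.Stm3
import Pool.Agent.N422.LG.HIT

/-! Project LG (helper422), part HITU: the number of numbers not hit under a nonnegative weight, one window, upper
bound, by helper602. -/

set_option autoImplicit false

open Finset

namespace Pool.Agent.N422.LG

open Pool.Agent.N422.NW Pool.Agent.N422.SL Pool.Agent.N422.WS

/-- one residue class modulo `R`, one block of sites -/
theorem HITU_one (h1 : S_UB) (h2 : S_ARDG) (Q R r m n : ℕ) (l : ℝ) (P T : Finset ℕ)
    (ν : ℕ → ℕ) (c : ℕ → ℕ → ℝ) (hR : R ∣ Q.factorial)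
    (hP : ∀ p ∈ P, p.Prime ∧ p ≤ Q ∧ ¬ p ∣ R) (hT : ∀ p ∈ P, T.card < p)
    (hT2 : ∀ p ∈ P, ∀ h ∈ T, ∀ h' ∈ T, h' < h + p)
    (hν : ∀ p ∈ P, m ≤ ν p) (hm : 0 < m)
    (hlev : ∀ d, 1 ≤ d → d ≤ Q → ∑ p ∈ P.filter (fun p => p ∣ d), ν p ≤ n)
    (hw : ∀ x, 0 ≤ wt Q c x) (hl : 0 < l) (hl2 : l ≤ 1 / 8) :
    (1 + (1 - 2 * l) * ∑ p ∈ P, 1 / (p : ℝ)) * mQ Q (fun x => wt Q c x * (if x % R = r then 1 else 0)
        * ((left P T x).card : ℝ)) ≤
      (T.card + ((n : ℝ) / m) / l) * mQ Q (fun x => wt Q c x * (if x % R = r then 1 else 0)) := by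
  classical
  set q : Fin P.card → ℕ := fun i => P.equivFin.symm i with hq
  have hqP : ∀ i, q i ∈ P := fun i => (P.equivFin.symm i).2
  have hinj : Function.Injective q := Subtype.val_injective.comp P.equivFin.symm.injective
  set hs : Fin T.card → ℕ := fun a => T.equivFin.symm a with hhs
  have hsT : ∀ a, hs a ∈ T := fun a => (T.equivFin.symm a).2
  have hsinj : Function.Injective hs := Subtype.val_injective.comp T.equivFin.symm.injective
  obtain ⟨f, hf1, hf2, hf3, hf4⟩ := h2 P.card T.card hs q (fun i => ν (q i)) n Q Q.factorial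
    (fun j => Nat.lcm (j + 1) R) (fun j x => c (j + 1) (x % (j + 1)) * (if x % R = r then 1 else 0))
    hinj (fun i => ⟨(hP _ (hqP i)).1, hT _ (hqP i)⟩)
    (by
      intro i x a a' ha ha'
      apply hsinj
      rcases le_total (hs a) (hs a') with hle | hle
      · have h3 := Nat.dvd_sub ha' ha
        have h4 : x + hs a' - (x + hs a) = hs a' - hs a := by omega
        rw [h4] at h3
        have h5 := hT2 _ (hqP i) _ (hsT a) _ (hsT a')
        have h6 := Nat.eq_zero_of_dvd_of_lt h3 (by omega)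
        omega
      · have h3 := Nat.dvd_sub ha ha'
        have h4 : x + hs a - (x + hs a') = hs a - hs a' := by omega
        rw [h4] at h3
        have h5 := hT2 _ (hqP i) _ (hsT a') _ (hsT a)
        have h6 := Nat.eq_zero_of_dvd_of_lt h3 (by omega)
        omega)
    (Nat.factorial_pos _) (fun i => Nat.dvd_factorial (hP _ (hqP i)).1.pos (hP _ (hqP i)).2.1)
    (by
      intro j hj
      have hj' := mem_range.mp hj
      refine ⟨?_, Nat.lcm_dvd (Nat.dvd_factorial (by omega) (by omega)) hR⟩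
      intro x
      have e1 : (x + Nat.lcm (j + 1) R) % (j + 1) = x % (j + 1) := by
        obtain ⟨k, hk⟩ := Nat.dvd_lcm_left (j + 1) R
        rw [hk, Nat.add_mul_mod_self_left]
      have e2 : (x + Nat.lcm (j + 1) R) % R = x % R := by
        obtain ⟨k, hk⟩ := Nat.dvd_lcm_right (j + 1) R
        rw [hk, Nat.add_mul_mod_self_left]
      simp only [e1, e2])
    (by
      intro j hj
      have hj' := mem_range.mp hj
      refine le_trans ?_ (hlev (j + 1) (by omega) (by omega))
      rw [Finset.sum_filter]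
      have e0 := HIT_sum P (fun p => if p ∣ Nat.lcm (j + 1) R then ν p else 0)
      simp only [hq]
      rw [e0, ← Finset.sum_filter]
      refine Finset.sum_le_sum_of_subset ?_
      intro p hp
      rw [mem_filter] at hp ⊢
      refine ⟨hp.1, ?_⟩
      rcases ((hP p hp.1).1.dvd_lcm).mp hp.2 with h | h
      · exact h
      · exact absurd h (hP p hp.1).2.2)
  have hFs : ∀ x : ℕ, ∑ j ∈ range Q, c (j + 1) (x % (j + 1)) * (if x % R = r then (1 : ℝ) else 0)
      = wt Q c x * (if x % R = r then 1 else 0) := by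
    intro x
    rw [← sum_mul, HIT_wt]
  have hwr : ∀ x : ℕ, 0 ≤ wt Q c x * (if x % R = r then (1 : ℝ) else 0) := by
    intro x
    refine mul_nonneg (hw x) ?_
    split_ifs <;> norm_num
  have hf0 : ∀ γ, 0 ≤ f γ := fun γ => hf2 γ 0 fun x _ => by
    rw [hFs]
    exact hwr x
  have h4 := h1 P.card T.card m n (fun i => (q i : ℝ)) (fun i => ν (q i)) f l hm
    (fun i => by exact_mod_cast hT _ (hqP i)) (fun i => hν _ (hqP i)) hf0 hf1 hl hl2
  rw [hf3, hf4] at h4
  have e1 : ∑ i, 1 / (q i : ℝ) = ∑ p ∈ P, 1 / (p : ℝ) := HIT_sum P (fun p => 1 / (p : ℝ))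
  rw [e1] at h4
  have e2 : ∀ x : ℕ, (univ.filter (fun a : Fin T.card => ∀ i, ¬ q i ∣ x + hs a)).card = (left P T x).card := by
    intro x
    refine Finset.card_bij (fun a _ => hs a) ?_ ?_ ?_
    · intro a ha
      rw [mem_filter] at ha
      refine mem_filter.2 ⟨hsT a, ?_⟩
      intro p hp
      have h5 := ha.2 (P.equivFin ⟨p, hp⟩)
      simpa [hq] using h5
    · intro a _ b _ h
      exact hsinj h
    · intro b hb
      rw [left, mem_filter] at hb
      refine ⟨T.equivFin ⟨b, hb.1⟩, ?_, by simp [hhs]⟩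
      rw [mem_filter]
      refine ⟨mem_univ _, fun i => ?_⟩
      have h5 := hb.2 (q i) (hqP i)
      simpa [hhs] using h5
  have e3 : (∑ x ∈ range Q.factorial, (∑ j ∈ range Q, c (j + 1) (x % (j + 1)) * (if x % R = r then (1 : ℝ) else 0)) *
      ((univ.filter (fun a : Fin T.card => ∀ i, ¬ q i ∣ x + hs a)).card : ℝ)) / (Q.factorial : ℝ) =
      mQ Q (fun x => wt Q c x * (if x % R = r then 1 else 0) * ((left P T x).card : ℝ)) := by
    unfold mQ
    congr 1
    refine sum_congr rfl fun x _ => ?_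
    rw [hFs, e2]
  have e4 : (∑ x ∈ range Q.factorial, ∑ j ∈ range Q, c (j + 1) (x % (j + 1)) * (if x % R = r then (1 : ℝ) else 0)) /
      (Q.factorial : ℝ) = mQ Q (fun x => wt Q c x * (if x % R = r then 1 else 0)) := by
    unfold mQ
    congr 1
    exact sum_congr rfl fun x _ => hFs x
  rw [e3, e4] at h4
  exact h4

/-- the blocks -/
def HITU_blk (s : Finset ℕ) (y j : ℕ) : Finset ℕ := s.filter (fun h => h / y = j)

theorem HITU_blk_card (s : Finset ℕ) (y j : ℕ) (hy : 0 < y) : (HITU_blk s y j).card ≤ y := by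
  have h1 : HITU_blk s y j ⊆ Ico (j * y) (j * y + y) := by
    intro h hh
    have h2 := (mem_filter.1 hh).2
    rw [mem_Ico]
    have h3 := Nat.div_add_mod h y
    have h4 := Nat.mod_lt h hy
    rw [h2, mul_comm] at h3
    omega
  exact (card_le_card h1).trans (by simp)

theorem HITU_blk_diff (s : Finset ℕ) (y j p : ℕ) (hy : 0 < y) (hp : y < p) (h h' : ℕ) (hh : h ∈ HITU_blk s y j)
    (hh' : h' ∈ HITU_blk s y j) : h' < h + p := by
  have h2 := (mem_filter.1 hh).2
  have h2' := (mem_filter.1 hh').2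
  have h3 := Nat.div_add_mod h y
  have h4 := Nat.mod_lt h' hy
  have h3' := Nat.div_add_mod h' y
  rw [h2] at h3
  rw [h2'] at h3'
  omega

theorem HITU_split (s : Finset ℕ) (U y : ℕ) (hs : s ⊆ Icc 1 U) (φ : ℕ → ℝ) :
    ∑ j ∈ range (U / y + 1), ∑ h ∈ HITU_blk s y j, φ h = ∑ h ∈ s, φ h := by
  unfold HITU_blk
  rw [Finset.sum_fiberwise_of_maps_to]
  intro h hh
  rw [mem_range]
  have h1 := mem_Icc.1 (hs hh)
  exact Nat.lt_succ_of_le (Nat.div_le_div_right h1.2)

/-- one residue class modulo `R` -/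
theorem HITU_cls (h1 : S_UB) (h2 : S_ARDG) (Q R r m n U y : ℕ) (l : ℝ) (P : Finset ℕ)
    (s : Finset ℕ) (ν : ℕ → ℕ) (c : ℕ → ℕ → ℝ) (hR : R ∣ Q.factorial) (hy : 0 < y)
    (hP : ∀ p ∈ P, p.Prime ∧ p ≤ Q ∧ ¬ p ∣ R) (hPy : ∀ p ∈ P, y < p) (hs : s ⊆ Icc 1 U)
    (hν : ∀ p ∈ P, m ≤ ν p) (hm : 0 < m)
    (hlev : ∀ d, 1 ≤ d → d ≤ Q → ∑ p ∈ P.filter (fun p => p ∣ d), ν p ≤ n)
    (hw : ∀ x, 0 ≤ wt Q c x) (hl : 0 < l) (hl2 : l ≤ 1 / 8) :
    (1 + (1 - 2 * l) * ∑ p ∈ P, 1 / (p : ℝ)) * mQ Q (fun x => wt Q c x * (if x % R = r then 1 else 0)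
        * ((left P s x).card : ℝ)) ≤
      (s.card + ((U / y + 1 : ℕ) : ℝ) * (((n : ℝ) / m) / l)) *
        mQ Q (fun x => wt Q c x * (if x % R = r then 1 else 0)) := by
  have h3 := Finset.sum_le_sum (fun j (_ : j ∈ range (U / y + 1)) =>
    HITU_one h1 h2 Q R r m n l P (HITU_blk s y j) ν c hR hP
      (fun p hp => (HITU_blk_card s y j hy).trans_lt (hPy p hp))
      (fun p hp h hh h' hh' => HITU_blk_diff s y j p hy (hPy p hp) h h' hh hh') hν hm hlev hw hl hl2)
  rw [← mul_sum, ← HIT_mQ_sum, ← sum_mul, sum_add_distrib] at h3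
  have e1 : ∑ j ∈ range (U / y + 1), ((HITU_blk s y j).card : ℝ) = s.card := by
    have := HITU_split s U y hs (fun _ => 1)
    simpa using this
  have e2 : ∀ x : ℕ, ∑ j ∈ range (U / y + 1), wt Q c x * (if x % R = r then 1 else 0) *
      ((left P (HITU_blk s y j) x).card : ℝ) = wt Q c x * (if x % R = r then 1 else 0) * ((left P s x).card : ℝ) := by
    intro x
    rw [← mul_sum]
    congr 1
    have h4 := HITU_split s U y hs (fun h => if ∀ p ∈ P, ¬ p ∣ x + h then 1 else 0)
    have h5 : ∀ t : Finset ℕ, ((left P t x).card : ℝ) = ∑ h ∈ t, (if ∀ p ∈ P, ¬ p ∣ x + h then (1 : ℝ) else 0) := by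
      intro t
      rw [← sum_filter, left]
      simp
    simp only [h5]
    exact h4
  simp only [e2, e1] at h3
  rw [sum_const, card_range, nsmul_eq_mul] at h3
  exact h3

theorem t_HITU (h1 : S_UB) (h2 : S_ARDG) : S_HITU := by
  intro Q U R y l P S c hy hl hl2 hR0 hR hP hS hSU hw
  have hyR : (1 : ℝ) < y := by exact_mod_cast (by omega : 1 < y)
  have hlogy : 0 < Real.log y := Real.log_pos hyR
  have hlogQ0 : 0 ≤ Real.log Q := Real.log_natCast_nonneg Q
  have hW0 : 0 ≤ mQ Q (wt Q c) := HIT_mQ_nonneg _ _ hw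
  rcases P.eq_empty_or_nonempty with rfl | hne
  · have e1 : ∀ n, left ∅ (S n) n = S n := by
      intro n
      unfold left
      simp
    simp only [sum_empty, mul_zero, add_zero, one_mul, e1]
    have : 0 ≤ ((U : ℝ) / y + 1) * (2 * (Real.log Q / Real.log y) / l) * mQ Q (wt Q c) := by positivity
    linarith
  obtain ⟨p0, hp0⟩ := hne
  have hyQ : (y : ℝ) < Q := by
    have h3 := (hP p0 hp0).2.1
    have h4 := (hP p0 hp0).2.2.1
    exact_mod_cast h3.trans_le h4
  have hlogQ : Real.log y < Real.log Q := Real.log_lt_log (by linarith) hyQ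
  have hlogQp : 0 < Real.log Q := hlogy.trans hlogQ
  set La : ℝ := Real.log Q / Real.log y with hLa
  have hLa1 : 1 < La := by
    rw [hLa, one_lt_div hlogy]
    exact hlogQ
  obtain ⟨n, hn⟩ : ∃ n : ℕ, 2 * La ≤ n := exists_nat_ge _
  have hnpos : (0 : ℝ) < n := by linarith
  set m : ℕ := ⌊(n : ℝ) / La⌋₊ with hm
  have hnL : 2 ≤ (n : ℝ) / La := by
    rw [le_div_iff₀ (by linarith)]
    exact hn
  have hm1 : (n : ℝ) / La - 1 < m := by
    have := Nat.lt_floor_add_one ((n : ℝ) / La)
    rw [← hm] at this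
    linarith
  have hm2 : (n : ℝ) / La / 2 ≤ m := by linarith
  have hmpos : 0 < m := by
    have : (0 : ℝ) < m := by linarith
    exact_mod_cast this
  have hmR : (0 : ℝ) < m := by exact_mod_cast hmpos
  have hnm : (n : ℝ) / m ≤ 2 * La := by
    rw [div_le_iff₀ hmR]
    have h3 : (n : ℝ) = 2 * La * ((n : ℝ) / La / 2) := by
      field_simp
    calc (n : ℝ) = 2 * La * ((n : ℝ) / La / 2) := h3
      _ ≤ 2 * La * m := mul_le_mul_of_nonneg_left hm2 (by linarith)
  set ν : ℕ → ℕ := fun p => ⌊(n : ℝ) * Real.log p / Real.log Q⌋₊ with hν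
  have hνm : ∀ p ∈ P, m ≤ ν p := by
    intro p hp
    refine Nat.floor_le_floor ?_
    rw [hLa, div_div_eq_mul_div]
    refine div_le_div_of_nonneg_right ?_ hlogQ0
    refine mul_le_mul_of_nonneg_left ?_ hnpos.le
    refine Real.log_le_log (by linarith) ?_
    exact_mod_cast (hP p hp).2.1.le
  have hlev : ∀ d, 1 ≤ d → d ≤ Q → ∑ p ∈ P.filter (fun p => p ∣ d), ν p ≤ n := by
    intro d hd1 hd2
    have h3 : ∏ p ∈ P.filter (fun p => p ∣ d), p ∣ d := by
      refine Finset.prod_primes_dvd d ?_ ?_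
      · intro p hp
        exact (hP p (mem_filter.mp hp).1).1.prime
      · intro p hp
        exact (mem_filter.mp hp).2
    have h4 : ∏ p ∈ P.filter (fun p => p ∣ d), p ≤ Q := (Nat.le_of_dvd hd1 h3).trans hd2
    have h5 : ∑ p ∈ P.filter (fun p => p ∣ d), Real.log p ≤ Real.log Q := by
      rw [← Real.log_prod (fun p hp => by
        have := (hP p (mem_filter.mp hp).1).1.pos
        positivity)]
      have h4' : ((∏ p ∈ P.filter (fun p => p ∣ d), p : ℕ) : ℝ) ≤ Q := Nat.cast_le.mpr h4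
      rw [Nat.cast_prod] at h4'
      refine Real.log_le_log ?_ h4'
      refine prod_pos fun p hp => ?_
      have := (hP p (mem_filter.mp hp).1).1.pos
      positivity
    have h6 : ((∑ p ∈ P.filter (fun p => p ∣ d), ν p : ℕ) : ℝ) ≤ n := by
      push_cast
      calc ∑ p ∈ P.filter (fun p => p ∣ d), ((ν p : ℕ) : ℝ)
          ≤ ∑ p ∈ P.filter (fun p => p ∣ d), (n : ℝ) * Real.log p / Real.log Q := by
            refine sum_le_sum fun p _ => ?_
            refine Nat.floor_le ?_
            have := Real.log_natCast_nonneg p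
            positivity
        _ = n * (∑ p ∈ P.filter (fun p => p ∣ d), Real.log p) / Real.log Q := by
            rw [← sum_div, ← mul_sum]
        _ ≤ n * Real.log Q / Real.log Q := by
            refine div_le_div_of_nonneg_right ?_ hlogQ0
            exact mul_le_mul_of_nonneg_left h5 hnpos.le
        _ = n := by field_simp
    exact_mod_cast h6
  have hJR : ((U / y + 1 : ℕ) : ℝ) ≤ (U : ℝ) / y + 1 := by
    push_cast
    have := Nat.cast_div_le (α := ℝ) (m := U) (n := y)
    linarith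
  have hSr : ∀ x, S x = S (x % R) := by
    intro x
    have h3 : ∀ k x0, S (x0 + k * R) = S x0 := by
      intro k
      induction k with
      | zero => intro x0; simp
      | succ k ih =>
        intro x0
        rw [Nat.succ_mul, ← Nat.add_assoc, hS, ih]
    conv_lhs => rw [← Nat.mod_add_div x R, Nat.mul_comm R (x / R)]
    exact h3 _ _
  set D : ℝ := ((n : ℝ) / m) / l with hD
  set J : ℝ := ((U / y + 1 : ℕ) : ℝ) with hJ
  have hcls : ∀ r ∈ range R, (1 + (1 - 2 * l) * ∑ p ∈ P, 1 / (p : ℝ)) *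
        mQ Q (fun x => wt Q c x * (if x % R = r then 1 else 0) * ((left P (S r) x).card : ℝ)) ≤
      ((S r).card + J * D) * mQ Q (fun x => wt Q c x * (if x % R = r then 1 else 0)) := fun r _ =>
    HITU_cls h1 h2 Q R r m n U y l P (S r) ν c hR (by omega) (fun p hp => ⟨(hP p hp).1, (hP p hp).2.2⟩)
      (fun p hp => (hP p hp).2.1) (hSU r) hνm hmpos hlev hw hl hl2
  have h3 := sum_le_sum hcls
  rw [← mul_sum] at h3
  have hone : ∀ x : ℕ, ∑ r ∈ range R, (if x % R = r then (1 : ℝ) else 0) = 1 := by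
    intro x
    rw [sum_ite_eq, if_pos (mem_range.mpr (Nat.mod_lt x hR0))]
  have e1 : ∑ r ∈ range R, mQ Q (fun x => wt Q c x * (if x % R = r then 1 else 0)
        * ((left P (S r) x).card : ℝ)) = mQ Q (fun x => wt Q c x * ((left P (S x) x).card : ℝ)) := by
    rw [← HIT_mQ_sum]
    congr 1
    funext x
    have e2 : ∀ r ∈ range R, wt Q c x * (if x % R = r then (1 : ℝ) else 0) * ((left P (S r) x).card : ℝ)
        = (wt Q c x * ((left P (S x) x).card : ℝ)) * (if x % R = r then (1 : ℝ) else 0) := by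
      intro r _
      by_cases h : x % R = r
      · rw [if_pos h, hSr x, h]
        ring
      · rw [if_neg h]
        ring
    rw [sum_congr rfl e2, ← mul_sum, hone, mul_one]
  have e3 : ∑ r ∈ range R, (((S r).card : ℝ) + J * D) *
        mQ Q (fun x => wt Q c x * (if x % R = r then 1 else 0))
      = mQ Q (fun x => wt Q c x * ((S x).card : ℝ)) + J * D * mQ Q (wt Q c) := by
    have e4 : mQ Q (fun x => wt Q c x * ((S x).card : ℝ)) = ∑ r ∈ range R, ((S r).card : ℝ)
        * mQ Q (fun x => wt Q c x * (if x % R = r then 1 else 0)) := by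
      simp only [← HIT_mQ_mul]
      rw [← HIT_mQ_sum]
      congr 1
      funext x
      have e2 : ∀ r ∈ range R, ((S r).card : ℝ) * (wt Q c x * (if x % R = r then (1 : ℝ) else 0))
          = (wt Q c x * (S x).card) * (if x % R = r then (1 : ℝ) else 0) := by
        intro r _
        by_cases h : x % R = r
        · rw [if_pos h, hSr x, h]
          ring
        · rw [if_neg h]
          ring
      rw [sum_congr rfl e2, ← mul_sum, hone, mul_one]
    have e5 : mQ Q (wt Q c) = ∑ r ∈ range R,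
        mQ Q (fun x => wt Q c x * (if x % R = r then 1 else 0)) := by
      rw [← HIT_mQ_sum]
      congr 1
      funext x
      rw [← mul_sum, hone, mul_one]
    rw [e4, e5, mul_sum, ← sum_add_distrib]
    refine sum_congr rfl fun r _ => ?_
    ring
  rw [e1, e3] at h3
  refine h3.trans ?_
  refine add_le_add le_rfl ?_
  refine mul_le_mul_of_nonneg_right ?_ hW0
  refine mul_le_mul hJR ?_ (by positivity) (by positivity)
  rw [hD]
  refine div_le_div_of_nonneg_right ?_ hl.le
  linarith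

end Pool.Agent.N422.LG
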