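import Pool.Agent.N422.LG.Stm4
import Pool.Agent.N422.LG.RECU

/-! Project LG (helper422): the recursion over the scales, upper bound, relative errors (LG/RECU2), by helper75. -/

set_option autoImplicit false

open Finset

namespace Pool.Agent.N422.LG

open Pool.Agent.N422.NW Pool.Agent.N422.SL Pool.Agent.N422.WS

theorem t_RECU2 (h : S_HITU) : S_RECU2 := by
  intro Q U y δ K c hy hyQ hδ hδ1 hyδ hw hK
  have hy0 : (0 : ℝ) < y := by exact_mod_cast (by omega : 0 < y)
  have hB : 0 ≤ mQ Q (wt Q c) := REC_mQ_nonneg hw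
  have hKD : ∀ z : ℕ, y ≤ z → z ≤ Q →
      Real.exp (-((1 - 3 * δ) * RECD Q z)) * (Real.log Q / Real.log z) ≤ K := hK
  have hlog : ∀ z : ℕ, 0 ≤ Real.log Q / Real.log z := fun z =>
    div_nonneg (Real.log_natCast_nonneg Q) (Real.log_natCast_nonneg z)
  have hK0 : 0 ≤ K := (mul_nonneg (Real.exp_pos _).le (hlog Q)).trans (hKD Q hyQ le_rfl)
  obtain ⟨E, hE⟩ : ∃ E : ℝ, E = (U / y + 1) * (2 * K / δ) := ⟨_, rfl⟩
  have hE0 : 0 ≤ E := by
    rw [hE]
    positivity
  obtain ⟨A, hA⟩ : ∃ A : ℕ → ℝ, ∀ z, A z = mQ Q (fun n => wt Q c n * ((Sv U z n).card : ℝ)) := ⟨_, fun _ => rfl⟩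
  have hA0 : ∀ z, 0 ≤ A z := fun z => by
    rw [hA]
    exact REC_mQ_nonneg (fun n => mul_nonneg (hw n) (Nat.cast_nonneg _))
  have hEB : 0 ≤ E * mQ Q (wt Q c) := mul_nonneg hE0 hB
  have step : ∀ z z', y ≤ z → z ≤ z' → z' ≤ Q → RECD z' z ≤ 2 * δ →
      Real.exp (-((1 - 3 * δ) * RECD Q z')) * A z' ≤
        Real.exp (-((1 - 3 * δ) * RECD Q z)) * A z + E * mQ Q (wt Q c) := by
    intro z z' h1 h2 h3 h4
    have h5 := RECU_step h Q U z z z' δ c (hy.trans h1) le_rfl h2 h3 hδ hδ1 hw
    rw [← hA, ← hA] at h5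
    have hd := RECD_add h2 h3
    have hD := RECD_nonneg z' z
    have h6 := mul_le_mul_of_nonneg_right (RECU_factor hδ hδ1 hD h4) (hA0 z')
    rw [one_mul] at h6
    have h7 := mul_le_mul_of_nonneg_left h5 (Real.exp_pos (-((1 - 3 * δ) * RECD z' z))).le
    rw [← mul_assoc] at h7
    have h8 := h6.trans h7
    have h9 := mul_le_mul_of_nonneg_left h8 (Real.exp_pos (-((1 - 3 * δ) * RECD Q z'))).le
    have h10 : Real.exp (-((1 - 3 * δ) * RECD Q z)) =
        Real.exp (-((1 - 3 * δ) * RECD Q z')) * Real.exp (-((1 - 3 * δ) * RECD z' z)) := by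
      rw [← Real.exp_add, hd]
      congr 1
      ring
    rw [← mul_assoc, ← h10, mul_add] at h9
    refine h9.trans ?_
    have h11 : Real.exp (-((1 - 3 * δ) * RECD Q z)) *
        (((U : ℝ) / z + 1) * (2 * (Real.log Q / Real.log z) / δ) * mQ Q (wt Q c)) =
        (((U : ℝ) / z + 1) * (2 * (Real.exp (-((1 - 3 * δ) * RECD Q z)) *
          (Real.log Q / Real.log z)) / δ)) * mQ Q (wt Q c) := by ring
    rw [h11]
    have hyz' : (y : ℝ) ≤ z := by exact_mod_cast h1
    have a1 : (U : ℝ) / z + 1 ≤ U / y + 1 := by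
      have := div_le_div_of_nonneg_left (Nat.cast_nonneg U) hy0 hyz'
      linarith
    have a0 : (0 : ℝ) ≤ (U : ℝ) / y + 1 := by positivity
    have a2 : 2 * (Real.exp (-((1 - 3 * δ) * RECD Q z)) * (Real.log Q / Real.log z)) / δ ≤ 2 * K / δ := by
      have := hKD z h1 (h2.trans h3)
      exact div_le_div_of_nonneg_right (by linarith) hδ.le
    have a3 : 0 ≤ 2 * (Real.exp (-((1 - 3 * δ) * RECD Q z)) * (Real.log Q / Real.log z)) / δ := by
      have := mul_nonneg (Real.exp_pos (-((1 - 3 * δ) * RECD Q z))).le (hlog z)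
      positivity
    have a4 := mul_le_mul_of_nonneg_right (mul_le_mul a1 a2 a3 a0) hB
    rw [← hE] at a4
    linarith
  have main : ∀ k z, Q - z = k → y ≤ z → z ≤ Q →
      A Q ≤ Real.exp (-((1 - 3 * δ) * RECD Q z)) * A z + (RECD Q z / δ + 1) * E * mQ Q (wt Q c) := by
    intro k
    induction k using Nat.strong_induction_on with
    | _ k ih =>
      intro z hk hyz hzQ
      by_cases hD : RECD Q z ≤ δ
      · have h1 := step z Q hyz hzQ le_rfl (by linarith)
        rw [RECD_self Q] at h1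
        simp only [mul_zero, neg_zero, Real.exp_zero, one_mul] at h1
        have h2 : 0 ≤ RECD Q z / δ * (E * mQ Q (wt Q c)) :=
          mul_nonneg (div_nonneg (RECD_nonneg Q z) hδ.le) hEB
        have h3 : (RECD Q z / δ + 1) * E * mQ Q (wt Q c) =
          RECD Q z / δ * (E * mQ Q (wt Q c)) + E * mQ Q (wt Q c) := by ring
        rw [h3]
        linarith
      · rw [not_le] at hD
        classical
        have hex : ∃ z', z ≤ z' ∧ δ < RECD z' z := ⟨Q, hzQ, hD⟩
        obtain ⟨z', hz', hmin⟩ : ∃ z', (z ≤ z' ∧ δ < RECD z' z) ∧ ∀ m < z', ¬ (z ≤ m ∧ δ < RECD m z) :=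
          ⟨Nat.find hex, Nat.find_spec hex, fun m hm => Nat.find_min hex hm⟩
        have hzQ' : z' ≤ Q := by
          by_contra hcon
          exact hmin Q (not_le.1 hcon) ⟨hzQ, hD⟩
        have hne : z ≠ z' := by
          rintro rfl
          have := hz'.2
          rw [RECD_self] at this
          linarith
        have hlt : z < z' := lt_of_le_of_ne hz'.1 hne
        obtain ⟨m, rfl⟩ : ∃ m, z' = m + 1 := ⟨z' - 1, by omega⟩
        have hm : RECD m z ≤ δ := by
          have := hmin m (by omega)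
          push Not at this
          exact this (by omega)
        have h2 : RECD (m + 1) z ≤ 2 * δ := by
          have h3 := RECD_succ z m
          have h4 : 1 / ((m : ℝ) + 1) ≤ 1 / (y : ℝ) := by
            apply one_div_le_one_div_of_le hy0
            exact_mod_cast (by omega : y ≤ m + 1)
          linarith
        have h3 := step z (m + 1) hyz hlt.le hzQ' h2
        have h4 := ih (Q - (m + 1)) (by omega) (m + 1) rfl (by omega) hzQ'
        have h5 := RECD_add hlt.le hzQ'
        have h10 : (RECD Q (m + 1) / δ + 2) * (E * mQ Q (wt Q c)) ≤ (RECD Q z / δ + 1) * (E * mQ Q (wt Q c)) := by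
          apply mul_le_mul_of_nonneg_right _ hEB
          rw [h5, add_div]
          have h11 : 1 ≤ RECD (m + 1) z / δ := by
            rw [le_div_iff₀ hδ]
            linarith [hz'.2]
          linarith
        have h12 : (RECD Q z / δ + 1) * E * mQ Q (wt Q c) = (RECD Q z / δ + 1) * (E * mQ Q (wt Q c)) := by ring
        have h13 : (RECD Q (m + 1) / δ + 1) * E * mQ Q (wt Q c) + E * mQ Q (wt Q c) =
          (RECD Q (m + 1) / δ + 2) * (E * mQ Q (wt Q c)) := by ring
        rw [h12]
        linarith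
  have h1 := main (Q - y) y rfl le_rfl hyQ
  rw [hA, hA, hE] at h1
  exact h1

end Pool.Agent.N422.LG
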