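import Pool.Agent.N422.LG.Stm2
import Pool.Agent.W89.Sv.Iter
import Pool.Agent.H510R2.Div

/-! Project LG, leaf LINW: the linear sieve lower bound with the exponent 17/8 + eps, for all shifts at once. -/

set_option autoImplicit false

open Finset Filter Topology

namespace Pool.Agent.N422.LG

namespace LINW

open Pool.Agent.W89.Sv (PP PZ VZ rem RR sift UA LA mem_PP dvd_PZ prime_dvd_PZ V_lim cV cV_pos VZ_pos PL PU getI
  finL iterU lowGo a0 Good iterU_good getI_good lowGo_good lowGo_length PL_start)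

/-- `S_LIN` for one `ε` with an admissible constant of the linear sieve -/
def Lin1 (s ε : ℝ) : Prop := ∃ c : ℝ, 0 < c ∧ ∃ y0 : ℕ, ∀ y : ℕ, y0 ≤ y → ∀ U : ℕ,
  (y : ℝ) ^ (s + ε) ≤ U → ∀ n : ℕ, c * (U * VV y) ≤ ((Sv U y n).card : ℝ)

theorem odd_dvd_mod (l m : ℕ) (hl : Odd l) : (¬ 2 ∣ m ∧ l ∣ m) ↔ m ≡ l [MOD 2 * l] := by
  obtain ⟨k, hk⟩ := hl
  constructor
  · rintro ⟨h1, q, hq⟩
    have hqo : ¬ 2 ∣ q := fun h => h1 (hq ▸ Dvd.dvd.mul_left h l)
    have : q % 2 = 1 := by omega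
    obtain ⟨r, hr⟩ : ∃ r, q = 2 * r + 1 := ⟨q / 2, by omega⟩
    have e : m = l + 2 * l * r := by rw [hq, hr]; ring
    rw [e]
    exact (Nat.ModEq.rfl.add (Nat.modEq_zero_iff_dvd.2 (dvd_mul_right (2 * l) r)))
  · intro h
    have h1 : m ≡ l [MOD 2] := h.of_dvd (dvd_mul_right 2 l)
    have h2 : m ≡ l [MOD l] := h.of_dvd (dvd_mul_left l 2)
    refine ⟨?_, ?_⟩
    · unfold Nat.ModEq at h1
      omega
    · exact (Nat.modEq_zero_iff_dvd).1 (h2.trans (Nat.modEq_zero_iff_dvd.2 dvd_rfl))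

theorem cnt (n U l : ℕ) (hl : Odd l) :
    |((((Icc 1 U).filter (fun h => ¬ 2 ∣ n + h)).filter (fun h => l ∣ n + h)).card : ℝ) - (U : ℝ) / 2 / l| ≤ 1 := by
  have hl0 : 0 < l := hl.pos
  have e : (((Icc 1 U).filter (fun h => ¬ 2 ∣ n + h)).filter (fun h => l ∣ n + h)).card =
      ((Ioc n (n + U)).filter (fun m => m ≡ l [MOD 2 * l])).card := by
    refine card_bij (fun h _ => n + h) ?_ ?_ ?_
    · intro h hh
      rw [mem_filter, mem_filter, mem_Icc] at hh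
      rw [mem_filter, mem_Ioc]
      exact ⟨⟨by omega, by omega⟩, (odd_dvd_mod l (n + h) hl).1 ⟨hh.1.2, hh.2⟩⟩
    · intro h _ h' _ hhh
      exact Nat.add_left_cancel hhh
    · intro m hm
      rw [mem_filter, mem_Ioc] at hm
      obtain ⟨h1, h2⟩ := (odd_dvd_mod l m hl).2 hm.2
      refine ⟨m - n, ?_, by omega⟩
      rw [mem_filter, mem_filter, mem_Icc]
      have e2 : n + (m - n) = m := by omega
      rw [e2]
      exact ⟨⟨⟨by omega, by omega⟩, h1⟩, h2⟩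
  rw [e]
  have h := Nat.Ioc_filter_modEq_card n (n + U) (r := 2 * l) (by positivity) l
  set A : ℚ := (((n + U : ℕ) : ℚ) - (l : ℚ)) / ((2 * l : ℕ) : ℚ) with hA
  set B : ℚ := ((n : ℚ) - (l : ℚ)) / ((2 * l : ℕ) : ℚ) with hB
  have hAB : A - B = (U : ℚ) / 2 / l := by
    rw [hA, hB]
    have : (l : ℚ) ≠ 0 := by exact_mod_cast hl0.ne'
    push_cast
    field_simp
    ring
  have hABle : B ≤ A := by
    have : (0 : ℚ) ≤ (U : ℚ) / 2 / l := by positivity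
    linarith
  have hfl : ⌊B⌋ ≤ ⌊A⌋ := Int.floor_mono hABle
  have h2 : (((((Ioc n (n + U)).filter (fun m => m ≡ l [MOD 2 * l])).card : ℕ) : ℤ)) = ⌊A⌋ - ⌊B⌋ := by
    rw [h]
    exact max_eq_left (by omega)
  have h3 : (((((Ioc n (n + U)).filter (fun m => m ≡ l [MOD 2 * l])).card : ℕ) : ℚ)) = (⌊A⌋ : ℚ) - ⌊B⌋ := by
    exact_mod_cast h2
  have hA1 := Int.floor_le A
  have hA2 := Int.lt_floor_add_one A
  have hB1 := Int.floor_le B
  have hB2 := Int.lt_floor_add_one B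
  have h4 : |(((((Ioc n (n + U)).filter (fun m => m ≡ l [MOD 2 * l])).card : ℕ) : ℚ)) - (U : ℚ) / 2 / l| ≤ 1 := by
    rw [h3, ← hAB, abs_le]
    constructor
    · linarith
    · linarith
  have h5 : ((|(((((Ioc n (n + U)).filter (fun m => m ≡ l [MOD 2 * l])).card : ℕ) : ℚ)) - (U : ℚ) / 2 / l| : ℚ) : ℝ) ≤
      ((1 : ℚ) : ℝ) := Rat.cast_le.2 h4
  push_cast at h5
  exact h5

/-- the remainder sum -/
theorem RR_le (C η : ℝ) (hC : 0 < C) (hη : 0 < η)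
    (hdiv : ∀ n : ℕ, 1 ≤ n → (n.divisors.card : ℝ) ≤ C * (n : ℝ) ^ η) (U n z : ℕ) (D : ℝ) (hD : 1 ≤ D) :
    RR 2 ((Icc 1 U).filter (fun h => ¬ 2 ∣ n + h)) (fun h => n + h) ((U : ℝ) / 2) 1 z D ≤
      C ^ 2 * D ^ (1 + 2 * η) := by
  unfold RR
  have hD0 : 0 ≤ D := by linarith
  have hodd : ∀ l : ℕ, l ∣ PZ 2 z → Odd l := by
    intro l hl
    rw [← Nat.not_even_iff_odd]
    intro he
    have h2 : 2 ∣ PZ 2 z := (even_iff_two_dvd.1 he).trans hl
    exact (prime_dvd_PZ Nat.prime_two h2).2 dvd_rfl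
  calc ∑ l ∈ (PZ 2 z).divisors.filter (fun l : ℕ => (l : ℝ) ≤ D), (l.divisors.card : ℝ) ^ 2 *
        |rem ((Icc 1 U).filter (fun h => ¬ 2 ∣ n + h)) (fun h => n + h) ((U : ℝ) / 2) (1 * l)|
      ≤ ∑ l ∈ (PZ 2 z).divisors.filter (fun l : ℕ => (l : ℝ) ≤ D), C ^ 2 * D ^ (2 * η) := by
        apply sum_le_sum
        intro l hl
        rw [mem_filter, Nat.mem_divisors] at hl
        have ho := hodd l hl.1.1
        have h1 : |rem ((Icc 1 U).filter (fun h => ¬ 2 ∣ n + h)) (fun h => n + h) ((U : ℝ) / 2) (1 * l)| ≤ 1 := by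
          rw [one_mul]
          exact cnt n U l ho
        have h2 := hdiv l ho.pos
        have h3 : (l : ℝ) ^ η ≤ D ^ η := Real.rpow_le_rpow (Nat.cast_nonneg _) hl.2 hη.le
        have h4 : (l.divisors.card : ℝ) ≤ C * D ^ η := h2.trans (mul_le_mul_of_nonneg_left h3 hC.le)
        have h5 : (l.divisors.card : ℝ) ^ 2 ≤ (C * D ^ η) ^ 2 := pow_le_pow_left₀ (Nat.cast_nonneg _) h4 2
        have h6 : (C * D ^ η) ^ 2 = C ^ 2 * D ^ (2 * η) := by
          rw [mul_pow, ← Real.rpow_natCast (D ^ η) 2, ← Real.rpow_mul hD0]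
          congr 2
          push_cast
          ring
        rw [h6] at h5
        calc _ ≤ (l.divisors.card : ℝ) ^ 2 * 1 := mul_le_mul_of_nonneg_left h1 (by positivity)
          _ ≤ _ := by rw [mul_one]; exact h5
    _ = ((PZ 2 z).divisors.filter (fun l : ℕ => (l : ℝ) ≤ D)).card * (C ^ 2 * D ^ (2 * η)) := by
        rw [sum_const, nsmul_eq_mul]
    _ ≤ D * (C ^ 2 * D ^ (2 * η)) := by
        apply mul_le_mul_of_nonneg_right _ (by positivity)
        have h1 : (PZ 2 z).divisors.filter (fun l : ℕ => (l : ℝ) ≤ D) ⊆ Icc 1 ⌊D⌋₊ := by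
          intro l hl
          rw [mem_filter, Nat.mem_divisors] at hl
          rw [mem_Icc]
          exact ⟨(hodd l hl.1.1).pos, Nat.le_floor hl.2⟩
        have h2 := card_le_card h1
        rw [Nat.card_Icc, Nat.add_sub_cancel] at h2
        have h3 : ((((PZ 2 z).divisors.filter (fun l : ℕ => (l : ℝ) ≤ D)).card : ℕ) : ℝ) ≤ (⌊D⌋₊ : ℝ) := by
          exact_mod_cast h2
        exact h3.trans (Nat.floor_le hD0)
    _ = C ^ 2 * D ^ (1 + 2 * η) := by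
        rw [Real.rpow_add (by linarith), Real.rpow_one]
        ring

theorem VV_eq (y : ℕ) (hy : 2 ≤ y) : VV y = VZ 2 (y + 1) / 2 := by
  unfold VV VZ
  have h1 : (Icc 1 y).filter Nat.Prime = insert 2 (PP 2 (y + 1)) := by
    ext p
    rw [mem_insert, mem_filter, mem_Icc, mem_PP]
    constructor
    · rintro ⟨⟨h1, h2⟩, h3⟩
      by_cases h : p = 2
      · exact Or.inl h
      · refine Or.inr ⟨by omega, h3, fun hd => h ?_⟩
        exact (Nat.prime_dvd_prime_iff_eq h3 Nat.prime_two).1 hd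
    · rintro (rfl | ⟨h1, h2, h3⟩)
      · exact ⟨⟨by norm_num, hy⟩, Nat.prime_two⟩
      · exact ⟨⟨h2.pos, by omega⟩, h2⟩
  have h2 : 2 ∉ PP 2 (y + 1) := by
    rw [mem_PP]
    rintro ⟨_, _, h⟩
    exact h dvd_rfl
  rw [h1, prod_insert h2]
  push_cast
  ring

theorem sift_le (U n y : ℕ) :
    sift 2 ((Icc 1 U).filter (fun h => ¬ 2 ∣ n + h)) (fun h => n + h) 1 (y + 1) ≤ ((Sv U y n).card : ℝ) := by
  unfold sift Sv
  rw [Nat.cast_le]
  apply card_le_card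
  intro h hh
  rw [mem_filter, mem_filter] at hh
  rw [mem_filter]
  refine ⟨hh.1.1, fun p hp hpd => ?_⟩
  rw [mem_filter, mem_Icc] at hp
  by_cases h2 : p = 2
  · rw [h2] at hpd
    exact hh.1.2 hpd
  · have h3 : p ∣ PZ 2 (y + 1) := dvd_PZ hp.2 (by omega) (fun hd => h2
      ((Nat.prime_dvd_prime_iff_eq hp.2 Nat.prime_two).1 hd))
    have h4 := Nat.dvd_gcd hpd h3
    rw [hh.2.2] at h4
    exact hp.2.one_lt.ne' (Nat.dvd_one.1 h4)

theorem lin_of_LA {s c : ℝ} (hs : 0 < s) (hc : 0 < c) (h : LA 2 s c) (ε : ℝ) (hε : 0 < ε) : Lin1 s ε := by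
  obtain ⟨z0, hz0⟩ := h (c / 2) (by positivity)
  obtain ⟨C, hC, hdiv⟩ := Pool.Agent.H510R2.divisor_bound (ε / (4 * s)) (by positivity)
  have hcV := cV_pos 2
  have hlim := V_lim 2 (by norm_num)
  have hev1 : ∀ᶠ z : ℕ in atTop, cV 2 / 2 < VZ 2 z * Real.log z :=
    hlim.eventually_const_lt (by linarith)
  obtain ⟨z1, hz1⟩ := eventually_atTop.1 hev1
  set c1 : ℝ := cV 2 * ε / 8 with hc1
  have hc1pos : 0 < c1 := by positivity
  -- the inequality for the main term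
  set K : ℝ := C ^ 2 * 2 ^ (s + 3 * ε / 4) * 8 / (c * c1) with hK
  have hev2 : ∀ᶠ y : ℕ in atTop, K ≤ (y : ℝ) ^ (ε / 4) :=
    ((tendsto_rpow_atTop (by positivity : 0 < ε / 4)).comp tendsto_natCast_atTop_atTop).eventually_ge_atTop K
  obtain ⟨y1, hy1⟩ := eventually_atTop.1 hev2
  refine ⟨c / 4, by positivity, max (max z0 z1) (max y1 2), fun y hy U hU n => ?_⟩
  have hyz0 : z0 ≤ y := le_trans (le_trans (le_max_left _ _) (le_max_left _ _)) hy
  have hyz1 : z1 ≤ y := le_trans (le_trans (le_max_right _ _) (le_max_left _ _)) hy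
  have hyy1 : y1 ≤ y := le_trans (le_trans (le_max_left _ _) (le_max_right _ _)) hy
  have hy2 : 2 ≤ y := le_trans (le_trans (le_max_right _ _) (le_max_right _ _)) hy
  have hyR : (2 : ℝ) ≤ y := by exact_mod_cast hy2
  set z : ℕ := y + 1 with hz
  have hzR : (z : ℝ) = y + 1 := by rw [hz]; push_cast; ring
  have hz0R : (0 : ℝ) < z := by rw [hzR]; linarith
  have hz1R : (1 : ℝ) ≤ z := by rw [hzR]; linarith
  have hz2y : (z : ℝ) ≤ 2 * y := by rw [hzR]; linarith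
  have hmain := hz0 z (by omega) ((z : ℝ) ^ s) le_rfl ℕ ((Icc 1 U).filter (fun h => ¬ 2 ∣ n + h)) (fun h => n + h)
    ((U : ℝ) / 2) (by positivity) 1 one_pos (Nat.coprime_one_left _)
  have hRR := RR_le C (ε / (4 * s)) hC (by positivity) hdiv U n z ((z : ℝ) ^ s)
    (Real.one_le_rpow hz1R hs.le)
  have hRR2 : ((z : ℝ) ^ s) ^ (1 + 2 * (ε / (4 * s))) = (z : ℝ) ^ (s + ε / 2) := by
    rw [← Real.rpow_mul hz0R.le]
    congr 1
    field_simp
    ring
  rw [hRR2] at hRR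
  have hV := VV_eq y hy2
  have hVpos : 0 < VZ 2 z := VZ_pos 2 z
  -- lower bound for VZ
  have hVlow : c1 ≤ VZ 2 z * (z : ℝ) ^ (ε / 4) := by
    have h1 := hz1 z (by omega)
    have h2 : Real.log z ≤ (z : ℝ) ^ (ε / 4) / (ε / 4) := Real.log_le_rpow_div hz0R.le (by positivity)
    have h3 : VZ 2 z * Real.log z ≤ VZ 2 z * ((z : ℝ) ^ (ε / 4) / (ε / 4)) :=
      mul_le_mul_of_nonneg_left h2 hVpos.le
    have h4 : cV 2 / 2 ≤ VZ 2 z * ((z : ℝ) ^ (ε / 4) / (ε / 4)) := h1.le.trans h3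
    have h5 : VZ 2 z * ((z : ℝ) ^ (ε / 4) / (ε / 4)) = (VZ 2 z * (z : ℝ) ^ (ε / 4)) * (4 / ε) := by
      field_simp
    rw [h5] at h4
    rw [hc1]
    have h6 : cV 2 / 2 * (ε / 4) ≤ (VZ 2 z * (z : ℝ) ^ (ε / 4)) * (4 / ε) * (ε / 4) :=
      mul_le_mul_of_nonneg_right h4 (by positivity)
    have h7 : (VZ 2 z * (z : ℝ) ^ (ε / 4)) * (4 / ε) * (ε / 4) = VZ 2 z * (z : ℝ) ^ (ε / 4) := by
      field_simp
    rw [h7] at h6
    linarith
  -- the remainder is smaller than a quarter of the main term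
  have hKy := hy1 y hyy1
  have hsmall : C ^ 2 * (z : ℝ) ^ (s + ε / 2) ≤ c / 4 * ((U : ℝ) / 2 * VZ 2 z) := by
    have h1 : (z : ℝ) ^ (s + 3 * ε / 4) ≤ 2 ^ (s + 3 * ε / 4) * (y : ℝ) ^ (s + 3 * ε / 4) := by
      rw [← Real.mul_rpow (by norm_num) (by positivity)]
      exact Real.rpow_le_rpow hz0R.le hz2y (by positivity)
    have h2 : C ^ 2 * 2 ^ (s + 3 * ε / 4) ≤ c * c1 / 8 * (y : ℝ) ^ (ε / 4) := by
      rw [hK, div_le_iff₀ (by positivity)] at hKy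
      linarith
    have h3 : C ^ 2 * (z : ℝ) ^ (s + 3 * ε / 4) ≤ c * c1 / 8 * (y : ℝ) ^ (s + ε) := by
      calc C ^ 2 * (z : ℝ) ^ (s + 3 * ε / 4) ≤ C ^ 2 * (2 ^ (s + 3 * ε / 4) * (y : ℝ) ^ (s + 3 * ε / 4)) :=
            mul_le_mul_of_nonneg_left h1 (by positivity)
        _ = (C ^ 2 * 2 ^ (s + 3 * ε / 4)) * (y : ℝ) ^ (s + 3 * ε / 4) := by ring
        _ ≤ (c * c1 / 8 * (y : ℝ) ^ (ε / 4)) * (y : ℝ) ^ (s + 3 * ε / 4) :=
            mul_le_mul_of_nonneg_right h2 (by positivity)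
        _ = c * c1 / 8 * (y : ℝ) ^ (s + ε) := by
            rw [mul_assoc, ← Real.rpow_add (by linarith)]
            congr 2
            ring
    have h4 : (z : ℝ) ^ (s + 3 * ε / 4) = (z : ℝ) ^ (s + ε / 2) * (z : ℝ) ^ (ε / 4) := by
      rw [← Real.rpow_add hz0R]
      congr 1
      ring
    have h5 : c * c1 / 8 * (y : ℝ) ^ (s + ε) ≤ c / 8 * (U : ℝ) * (VZ 2 z * (z : ℝ) ^ (ε / 4)) := by
      calc c * c1 / 8 * (y : ℝ) ^ (s + ε) = c / 8 * (y : ℝ) ^ (s + ε) * c1 := by ring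
        _ ≤ c / 8 * (U : ℝ) * (VZ 2 z * (z : ℝ) ^ (ε / 4)) := by
            apply mul_le_mul _ hVlow hc1pos.le (by positivity)
            exact mul_le_mul_of_nonneg_left hU (by positivity)
    have h6 : (C ^ 2 * (z : ℝ) ^ (s + ε / 2)) * (z : ℝ) ^ (ε / 4) ≤
        (c / 4 * ((U : ℝ) / 2 * VZ 2 z)) * (z : ℝ) ^ (ε / 4) := by
      calc (C ^ 2 * (z : ℝ) ^ (s + ε / 2)) * (z : ℝ) ^ (ε / 4) = C ^ 2 * (z : ℝ) ^ (s + 3 * ε / 4) := by
            rw [h4]; ring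
        _ ≤ _ := h3.trans h5
        _ = _ := by ring
    exact le_of_mul_le_mul_right h6 (by positivity)
  have hfin := sift_le U n y
  rw [Nat.cast_one, div_one] at hmain
  rw [hV]
  have e1 : (U : ℝ) * (VZ 2 (y + 1) / 2) = (U : ℝ) / 2 * VZ 2 z := by rw [hz]; ring
  rw [e1]
  have e2 : (c - c / 2) * ((U : ℝ) / 2 * VZ 2 z) = c / 4 * ((U : ℝ) / 2 * VZ 2 z) + c / 4 * ((U : ℝ) / 2 * VZ 2 z) := by
    ring
  rw [e2] at hmain
  linarith

theorem chk34 : 34 * 5000000 ≤ getI finL 34 * 16 := by decide +kernel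

/-- `1 / 200` is admissible for the lower bound sieve at level `z ^ (17 / 8)` -/
theorem LA34 : LA 2 (17 / 8) (1 / 200) := by
  have hm : (2 : ℕ) ≠ 0 := by norm_num
  have h := iterU_good hm dvd_rfl 9
  have h1 : ((iterU 9).drop 16).length = 239 := by rw [List.length_drop, h.1]
  have h2 : Good (PU 2) 239 ((iterU 9).drop 16) := Good.drop 16 255 _ h.2
  have h3 := lowGo_length 239 a0 _ h1
  have h4 := lowGo_good hm 239 a0 _ h1 (PL_start hm dvd_rfl) h2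
  have h5 : PL 2 34 (getI finL 34) := getI_good h3 h4 (by norm_num) (by norm_num)
  unfold PL at h5
  have e : ((34 : ℕ) : ℝ) / 16 = 17 / 8 := by norm_num
  rw [e] at h5
  refine h5.mono ?_
  rw [le_div_iff₀ (by norm_num)]
  have h7 : (34 * 5000000 : ℝ) ≤ getI finL 34 * 16 := by exact_mod_cast chk34
  push_cast
  linarith

end LINW

/-- Leaf LINW. -/
theorem t_LINW : S_LIN (17 / 8) := fun ε hε => LINW.lin_of_LA (by norm_num) (by norm_num) LINW.LA34 ε hε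

end Pool.Agent.N422.LG
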