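import Pool.Agent.N422.LG.Stm4
import Pool.Agent.N422.LG.LINW
import Pool.Agent.W89.Sv.Start

/-! Project LG, leaf SUB: an upper bound sieve for intervals (Selberg's sieve at level `z`). -/

set_option autoImplicit false

open Finset Filter Topology

namespace Pool.Agent.N422.LG

namespace SUB

open Pool.Agent.W89.Sv (PP PZ VZ rem RR sift UA mem_PP dvd_PZ prime_dvd_PZ V_lim cV cV_pos VZ_pos upper_anti
  start_upper)

theorem le_sift (U n y : ℕ) (hy : 2 ≤ y) :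
    ((Sv U y n).card : ℝ) ≤
      sift 2 ((Icc 1 U).filter (fun h => ¬ 2 ∣ n + h)) (fun h => n + h) 1 (y + 1) := by
  unfold sift Sv
  rw [Nat.cast_le]
  apply card_le_card
  intro h hh
  rw [mem_filter] at hh
  rw [mem_filter, mem_filter]
  refine ⟨⟨hh.1, ?_⟩, one_dvd _, ?_⟩
  · exact hh.2 2 (mem_filter.2 ⟨mem_Icc.2 ⟨by norm_num, hy⟩, Nat.prime_two⟩)
  · unfold PZ
    refine Nat.Coprime.prod_right fun p hp => ?_
    rw [mem_PP] at hp
    refine Nat.Coprime.symm ((Nat.Prime.coprime_iff_not_dvd hp.2.1).2 ?_)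
    exact hh.2 p (mem_filter.2 ⟨mem_Icc.2 ⟨hp.2.1.pos, by omega⟩, hp.2.1⟩)

theorem sub_of_UA {c : ℝ} (hc : 0 < c) (h : UA 2 1 c) (ε : ℝ) (hε : 0 < ε) :
    ∃ C : ℝ, 0 < C ∧ ∃ y0 : ℕ, ∀ y : ℕ, y0 ≤ y → ∀ U : ℕ,
      (y : ℝ) ^ (1 + ε) ≤ U → ∀ n : ℕ, ((Sv U y n).card : ℝ) ≤ C * (U * VV y) := by
  obtain ⟨z0, hz0⟩ := h 1 one_pos
  obtain ⟨C, hC, hdiv⟩ := Pool.Agent.H510R2.divisor_bound (ε / 4) (by positivity)
  have hcV := cV_pos 2
  have hlim := V_lim 2 (by norm_num)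
  have hev1 : ∀ᶠ z : ℕ in atTop, cV 2 / 2 < VZ 2 z * Real.log z :=
    hlim.eventually_const_lt (by linarith)
  obtain ⟨z1, hz1⟩ := eventually_atTop.1 hev1
  set c1 : ℝ := cV 2 * ε / 8 with hc1
  have hc1pos : 0 < c1 := by positivity
  set K : ℝ := C ^ 2 * 2 ^ (1 + 3 * ε / 4) / c1 with hK
  have hKpos : 0 < K := by positivity
  refine ⟨(c + 1) + 2 * K, by positivity, max (max z0 z1) 2, fun y hy U hU n => ?_⟩
  have hyz0 : z0 ≤ y := le_trans (le_trans (le_max_left _ _) (le_max_left _ _)) hy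
  have hyz1 : z1 ≤ y := le_trans (le_trans (le_max_right _ _) (le_max_left _ _)) hy
  have hy2 : 2 ≤ y := le_trans (le_max_right _ _) hy
  have hyR : (2 : ℝ) ≤ y := by exact_mod_cast hy2
  set z : ℕ := y + 1 with hz
  have hzR : (z : ℝ) = y + 1 := by rw [hz]; push_cast; ring
  have hz0R : (0 : ℝ) < z := by rw [hzR]; linarith
  have hz1R : (1 : ℝ) ≤ z := by rw [hzR]; linarith
  have hz2y : (z : ℝ) ≤ 2 * y := by rw [hzR]; linarith
  have hmain := hz0 z (by omega) (z : ℝ) (by rw [Real.rpow_one]) ℕ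
    ((Icc 1 U).filter (fun h => ¬ 2 ∣ n + h)) (fun h => n + h)
    ((U : ℝ) / 2) (by positivity) 1 one_pos (Nat.coprime_one_left _)
  have hRR := LINW.RR_le C (ε / 4) hC (by positivity) hdiv U n z (z : ℝ) hz1R
  have hV := LINW.VV_eq y hy2
  have hVpos : 0 < VZ 2 z := VZ_pos 2 z
  -- lower bound for VZ
  have hVlow : c1 ≤ VZ 2 z * (z : ℝ) ^ (ε / 4) := by
    have h1 := hz1 z (by omega)
    have h2 : Real.log z ≤ (z : ℝ) ^ (ε / 4) / (ε / 4) := Real.log_le_rpow_div hz0R.le (by positivity)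
    have h3 : VZ 2 z * Real.log z ≤ VZ 2 z * ((z : ℝ) ^ (ε / 4) / (ε / 4)) :=
      mul_le_mul_of_nonneg_left h2 hVpos.le
    have h4 : cV 2 / 2 ≤ VZ 2 z * ((z : ℝ) ^ (ε / 4) / (ε / 4)) := h1.le.trans h3
    have h5 : VZ 2 z * ((z : ℝ) ^ (ε / 4) / (ε / 4)) = (VZ 2 z * (z : ℝ) ^ (ε / 4)) * (4 / ε) := by
      field_simp
    rw [h5] at h4
    rw [hc1]
    have h6 : cV 2 / 2 * (ε / 4) ≤ (VZ 2 z * (z : ℝ) ^ (ε / 4)) * (4 / ε) * (ε / 4) :=
      mul_le_mul_of_nonneg_right h4 (by positivity)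
    have h7 : (VZ 2 z * (z : ℝ) ^ (ε / 4)) * (4 / ε) * (ε / 4) = VZ 2 z * (z : ℝ) ^ (ε / 4) := by
      field_simp
    rw [h7] at h6
    linarith
  have hsmall : C ^ 2 * (z : ℝ) ^ (1 + 2 * (ε / 4)) ≤ K * ((U : ℝ) * VZ 2 z) := by
    have h1 : (z : ℝ) ^ (1 + 3 * ε / 4) ≤ 2 ^ (1 + 3 * ε / 4) * (y : ℝ) ^ (1 + 3 * ε / 4) := by
      rw [← Real.mul_rpow (by norm_num) (by positivity)]
      exact Real.rpow_le_rpow hz0R.le hz2y (by positivity)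
    have h2 : (y : ℝ) ^ (1 + 3 * ε / 4) ≤ (y : ℝ) ^ (1 + ε) :=
      Real.rpow_le_rpow_of_exponent_le (by linarith) (by linarith)
    have h4 : (z : ℝ) ^ (1 + 3 * ε / 4) = (z : ℝ) ^ (1 + 2 * (ε / 4)) * (z : ℝ) ^ (ε / 4) := by
      rw [← Real.rpow_add hz0R]
      congr 1
      ring
    have h5 : (C ^ 2 * (z : ℝ) ^ (1 + 2 * (ε / 4))) * (z : ℝ) ^ (ε / 4) ≤
        (K * ((U : ℝ) * VZ 2 z)) * (z : ℝ) ^ (ε / 4) := by
      calc (C ^ 2 * (z : ℝ) ^ (1 + 2 * (ε / 4))) * (z : ℝ) ^ (ε / 4)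
          = C ^ 2 * (z : ℝ) ^ (1 + 3 * ε / 4) := by rw [h4]; ring
        _ ≤ C ^ 2 * (2 ^ (1 + 3 * ε / 4) * (U : ℝ)) := by
            refine mul_le_mul_of_nonneg_left (h1.trans ?_) (by positivity)
            exact mul_le_mul_of_nonneg_left (h2.trans hU) (by positivity)
        _ = K * (U : ℝ) * c1 := by rw [hK]; field_simp
        _ ≤ K * (U : ℝ) * (VZ 2 z * (z : ℝ) ^ (ε / 4)) :=
            mul_le_mul_of_nonneg_left hVlow (by positivity)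
        _ = _ := by ring
    exact le_of_mul_le_mul_right h5 (by positivity)
  have hfin := le_sift U n y hy2
  rw [Nat.cast_one, div_one] at hmain
  rw [hV]
  have e1 : ((c + 1) + 2 * K) * ((U : ℝ) * (VZ 2 (y + 1) / 2)) =
      (c + 1) * ((U : ℝ) / 2 * VZ 2 z) + K * ((U : ℝ) * VZ 2 z) := by rw [hz]; ring
  rw [e1]
  calc ((Sv U y n).card : ℝ) ≤ _ := hfin
    _ ≤ _ := hmain
    _ ≤ (c + 1) * ((U : ℝ) / 2 * VZ 2 z) + K * ((U : ℝ) * VZ 2 z) := by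
      have := hRR.trans hsmall
      linarith

end SUB

/-- Leaf SUB. -/
theorem t_SUB : S_SUB := fun ε hε =>
  SUB.sub_of_UA (by norm_num) (Pool.Agent.W89.Sv.upper_anti 2 (by norm_num) one_pos (by norm_num)
    (Pool.Agent.W89.Sv.start_upper 2)) ε hε

end Pool.Agent.N422.LG
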