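import Pool.Agent.N422.LG.UB
import Pool.Agent.N422.LG.ARDG
import Pool.Agent.N422.LG.HITU
import Pool.Agent.N422.LG.RECU2
import Pool.Agent.N422.LG.SUB
import Pool.Agent.N422.LG.FIN3
import Pool.Agent.N422.LG.MERB2
import Pool.Agent.N422.NW.CORE
import Pool.Agent.N422.NW.KER
import Pool.Agent.N422.NW.POLY
import Pool.Agent.N422.NW.JEN

/-! Project LG: assembly of the upper bound with the exponent one. Author: helper422 (parts: helpers 137, 592, 602, 75, 106,
310, 878; NW: 92, 849, 427, 603). -/

set_option autoImplicit false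

namespace Pool.Agent.N422.LG

open Finset Pool.Agent.N422.NW Pool.Agent.N422.SL Pool.Agent.N422.WS

theorem hitu_all : S_HITU := t_HITU (t_UB (t_NW1 t_KER t_POLY t_JEN t_AV)) t_ARDG

theorem fin3_all : S_FIN3 := t_FIN3 (t_RECU2 hitu_all) t_SUB t_MERB2

end Pool.Agent.N422.LG
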