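import Pool.Agent.N422.LG.Stm

/-! Project LG (helper422), third part: the upper bound. -/

set_option autoImplicit false

open Finset

namespace Pool.Agent.N422.LG

open Pool.Agent.N422.NW Pool.Agent.N422.SL Pool.Agent.N422.WS

/-- the number of sites not hit, in the model (LG/UB) -/
def S_UB : Prop := ∀ (N k m n : ℕ) (q : Fin N → ℝ) (ν : Fin N → ℕ) (f : St N k → ℝ) (l : ℝ), 0 < m →
  (∀ i, (k : ℝ) < q i) → (∀ i, m ≤ ν i) → (∀ γ, 0 ≤ f γ) → Lev ν n f → 0 < l → l ≤ 1 / 8 →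
  (1 + (1 - 2 * l) * ∑ i, 1 / q i) * ∑ γ, muP q γ * f γ * ((alive γ N).card : ℝ) ≤
    (k + (n / m) / l) * ∑ γ, muP q γ * f γ

/-- from the model to periodic functions, general periods (LG/ARDG) -/
def S_ARDG : Prop := ∀ (N k : ℕ) (hs : Fin k → ℕ) (q ν : Fin N → ℕ) (n J M : ℕ) (per : ℕ → ℕ) (F : ℕ → ℕ → ℝ),
  Function.Injective q → (∀ i, (q i).Prime ∧ k < q i) →
  (∀ (i : Fin N) (x : ℕ) (a a' : Fin k), q i ∣ x + hs a → q i ∣ x + hs a' → a = a') →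
  0 < M → (∀ i, q i ∣ M) → (∀ j ∈ range J, Function.Periodic (F j) (per j) ∧ per j ∣ M) →
  (∀ j ∈ range J, ∑ i ∈ univ.filter (fun i => q i ∣ per j), ν i ≤ n) →
  ∃ f : St N k → ℝ, Lev ν n f ∧
    (∀ (γ : St N k) (b : ℝ), (∀ x : ℕ, (∀ i a, γ i = some a ↔ q i ∣ x + hs a) → b ≤ ∑ j ∈ range J, F j x) → b ≤ f γ) ∧
    ∑ γ, muP (fun i => (q i : ℝ)) γ * f γ = (∑ x ∈ range M, ∑ j ∈ range J, F j x) / M ∧
    ∑ γ, muP (fun i => (q i : ℝ)) γ * f γ * ((alive γ N).card : ℝ) =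
      (∑ x ∈ range M, (∑ j ∈ range J, F j x) * ((univ.filter (fun a : Fin k => ∀ i, ¬ q i ∣ x + hs a)).card : ℝ)) / M

/-- the `h ∈ S` with `n + h` not divisible by any `p ∈ P` -/
def left (P S : Finset ℕ) (n : ℕ) : Finset ℕ := S.filter (fun h => ∀ p ∈ P, ¬ p ∣ n + h)

/-- one window, upper bound (LG/HITU) -/
def S_HITU : Prop := ∀ (Q U R y : ℕ) (l : ℝ) (P : Finset ℕ) (S : ℕ → Finset ℕ) (c : ℕ → ℕ → ℝ), 2 ≤ y → 0 < l →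
  l ≤ 1 / 8 → 0 < R → R ∣ Q.factorial → (∀ p ∈ P, p.Prime ∧ y < p ∧ p ≤ Q ∧ ¬ p ∣ R) →
  (∀ n, S (n + R) = S n) → (∀ n, S n ⊆ Icc 1 U) → (∀ n, 0 ≤ wt Q c n) →
  (1 + (1 - 2 * l) * ∑ p ∈ P, 1 / (p : ℝ)) * mQ Q (fun n => wt Q c n * ((left P (S n) n).card : ℝ)) ≤
    mQ Q (fun n => wt Q c n * ((S n).card : ℝ)) +
      (U / y + 1) * (2 * (Real.log Q / Real.log y) / l) * mQ Q (wt Q c)

/-- the recursion over the scales, upper bound (LG/RECU) -/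
def S_RECU : Prop := ∀ (Q U y : ℕ) (δ : ℝ) (c : ℕ → ℕ → ℝ), 2 ≤ y → y ≤ Q → 0 < δ → δ ≤ 1 / 16 → 1 / (y : ℝ) ≤ δ →
  (∀ n, 0 ≤ wt Q c n) →
  mQ Q (fun n => wt Q c n * ((Sv U Q n).card : ℝ)) ≤
    Real.exp (-((1 - 3 * δ) * ∑ p ∈ (Icc 1 Q).filter (fun p : ℕ => p.Prime ∧ y < p), 1 / (p : ℝ))) *
      mQ Q (fun n => wt Q c n * ((Sv U y n).card : ℝ)) +
    ((∑ p ∈ (Icc 1 Q).filter (fun p : ℕ => p.Prime ∧ y < p), 1 / (p : ℝ)) / δ + 1) * ((U / y + 1) *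
      (2 * (Real.log Q / Real.log y) / δ)) * mQ Q (wt Q c)

/-- the fundamental lemma, upper bound (LG/FUNDU) -/
def S_FUNDU : Prop := ∃ C : ℕ, 1 ≤ C ∧ ∀ b : ℕ, ∃ y0 : ℕ, ∀ y : ℕ, y0 ≤ y → ∀ U : ℕ, y ^ (C * (b + 1)) ≤ U → ∀ n : ℕ,
  ((Sv U y n).card : ℝ) ≤ (1 + (1 / 2 : ℝ) ^ b) * (U * VV y)

/-- the theorem, upper bound (LG/FINU) -/
def S_FINU : Prop := ∃ C : ℕ, 1 ≤ C ∧ ∀ b : ℕ, ∃ Q0 : ℕ, ∀ Q : ℕ, Q0 ≤ Q → ∀ U : ℕ,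
  Real.log Q ^ (C * (b + 1)) ≤ U → ∀ c : ℕ → ℕ → ℝ, (∀ n, 0 ≤ wt Q c n) →
  mQ Q (fun n => wt Q c n * ((Sv U Q n).card : ℝ)) ≤ (1 + (1 / 2 : ℝ) ^ b) * (U * VV Q) * mQ Q (wt Q c)

end Pool.Agent.N422.LG
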