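import Pool.Agent.N422.LG.Stm3
import Pool.Agent.N422.LG.FIN

/-! Project LG (helper422), job LG/FINU (helper628): the theorem, upper bound, from the recursion over the scales, the
fundamental lemma and Mertens. -/

set_option autoImplicit false

open Finset

namespace Pool.Agent.N422.LG

open Pool.Agent.N422.NW Pool.Agent.N422.SL Pool.Agent.N422.WS

theorem FINU_fac {x : ℝ} (h0 : 0 ≤ x) (h1 : x ≤ 1 / 2) : Real.exp (-x - 2 * x ^ 2) ≤ 1 - x := by
  have h2 : 1 + x + 2 * x ^ 2 ≤ Real.exp (x + 2 * x ^ 2) := by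
    have := Real.add_one_le_exp (x + 2 * x ^ 2)
    linarith
  have h3 : Real.exp (-x - 2 * x ^ 2) = (Real.exp (x + 2 * x ^ 2))⁻¹ := by
    rw [← Real.exp_neg]
    congr 1
    ring
  rw [h3, inv_le_iff_one_le_mul₀ (Real.exp_pos _)]
  have h4 : 1 ≤ (1 - x) * (1 + x + 2 * x ^ 2) := by nlinarith [sq_nonneg x]
  exact h4.trans (mul_le_mul_of_nonneg_left h2 (by linarith))

theorem FINU_sq (y Q : ℕ) (hy : 2 ≤ y) (h : y ≤ Q) :
    ∑ p ∈ (Icc 1 Q).filter (fun p : ℕ => p.Prime ∧ y < p), 2 * (1 / (p : ℝ)) ^ 2 ≤ 2 / (y : ℝ) := by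
  have h1 : ∑ p ∈ (Icc 1 Q).filter (fun p : ℕ => p.Prime ∧ y < p), 2 * (1 / (p : ℝ)) ^ 2 ≤
      ∑ p ∈ Ioc y Q, 2 * (1 / (p : ℝ)) ^ 2 := by
    refine Finset.sum_le_sum_of_subset_of_nonneg ?_ fun p _ _ => by positivity
    intro p hp
    rw [Finset.mem_filter, Finset.mem_Icc] at hp
    rw [Finset.mem_Ioc]
    exact ⟨hp.2.2, hp.1.2⟩
  have h2 : ∑ p ∈ Ioc y Q, 2 * (1 / (p : ℝ)) ^ 2 = 2 * ∑ p ∈ Ioc y Q, ((p : ℝ) ^ 2)⁻¹ := by
    rw [Finset.mul_sum]
    refine Finset.sum_congr rfl fun p _ => ?_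
    rw [one_div, inv_pow]
  have h3 := sum_Ioc_inv_sq_le_sub (α := ℝ) (k := y) (n := Q) (by omega) h
  have h4 : (0 : ℝ) ≤ (Q : ℝ)⁻¹ := by positivity
  rw [h2] at h1
  have h5 : (2 : ℝ) / y = 2 * (y : ℝ)⁻¹ := div_eq_mul_inv _ _
  linarith

/-- `exp(-D) VV y ≤ exp(2/y) VV Q` -/
theorem FINU_VV (y Q : ℕ) (hy : 2 ≤ y) (h : y ≤ Q) :
    Real.exp (-∑ p ∈ (Icc 1 Q).filter (fun p : ℕ => p.Prime ∧ y < p), 1 / (p : ℝ)) * VV y ≤
      Real.exp (2 / (y : ℝ)) * VV Q := by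
  have h1 : (Icc 1 Q).filter Nat.Prime =
      (Icc 1 Q).filter (fun p : ℕ => p.Prime ∧ y < p) ∪ (Icc 1 y).filter Nat.Prime := by
    ext p
    simp only [Finset.mem_filter, Finset.mem_union, Finset.mem_Icc]
    constructor
    · rintro ⟨⟨h1, h2⟩, h3⟩
      by_cases h4 : y < p
      · exact Or.inl ⟨⟨h1, h2⟩, h3, h4⟩
      · exact Or.inr ⟨⟨h1, by omega⟩, h3⟩
    · rintro (⟨⟨h1, h2⟩, h3, h4⟩ | ⟨⟨h1, h2⟩, h3⟩)
      · exact ⟨⟨h1, h2⟩, h3⟩
      · exact ⟨⟨h1, by omega⟩, h3⟩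
  have h2 : Disjoint ((Icc 1 Q).filter (fun p : ℕ => p.Prime ∧ y < p)) ((Icc 1 y).filter Nat.Prime) := by
    rw [Finset.disjoint_left]
    intro p hp hq
    simp only [Finset.mem_filter, Finset.mem_Icc] at hp hq
    omega
  have hsq := FINU_sq y Q hy h
  have hVy := FIN_VV_nonneg y
  have hV : VV Q = (∏ p ∈ (Icc 1 Q).filter (fun p : ℕ => p.Prime ∧ y < p), (1 - 1 / (p : ℝ))) * VV y := by
    unfold VV
    rw [h1, Finset.prod_union h2]
  rw [hV, ← mul_assoc]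
  refine mul_le_mul_of_nonneg_right ?_ hVy
  have h3 : Real.exp (∑ p ∈ (Icc 1 Q).filter (fun p : ℕ => p.Prime ∧ y < p),
      (-(1 / (p : ℝ)) - 2 * (1 / (p : ℝ)) ^ 2)) ≤
      ∏ p ∈ (Icc 1 Q).filter (fun p : ℕ => p.Prime ∧ y < p), (1 - 1 / (p : ℝ)) := by
    rw [Real.exp_sum]
    refine Finset.prod_le_prod (fun p _ => (Real.exp_pos _).le) fun p hp => ?_
    rw [Finset.mem_filter] at hp
    refine FINU_fac (by positivity) ?_
    have : (2 : ℝ) ≤ p := by exact_mod_cast hp.2.1.two_le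
    exact one_div_le_one_div_of_le (by norm_num) this
  refine le_trans ?_ (mul_le_mul_of_nonneg_left h3 (Real.exp_pos _).le)
  rw [← Real.exp_add]
  apply Real.exp_le_exp.2
  rw [Finset.sum_sub_distrib, Finset.sum_neg_distrib]
  linarith

theorem FINU_exp {x : ℝ} (h0 : 0 ≤ x) (h1 : x ≤ 1 / 2) : Real.exp x ≤ 1 + 2 * x := by
  have h2 : 1 - x ≤ Real.exp (-x) := by
    have := Real.add_one_le_exp (-x)
    linarith
  rw [Real.exp_neg] at h2
  have h3 : 0 < 1 - x := by linarith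
  have h4 : Real.exp x ≤ (1 - x)⁻¹ := by
    rw [le_inv_comm₀ (Real.exp_pos x) h3]
    exact h2
  refine h4.trans ?_
  rw [inv_le_iff_one_le_mul₀ h3]
  nlinarith

theorem t_FINU (h1 : S_RECU) (h2 : S_FUNDU) (h3 : S_MERB) : S_FINU := by
  obtain ⟨C', hC', h2⟩ := h2
  obtain ⟨C1, hC1, h3⟩ := h3
  refine ⟨15 * C', by omega, fun b => ?_⟩
  obtain ⟨y0, hy0⟩ := h2 (b + 2)
  have hε : 0 < (1 / 2 : ℝ) ^ b := by positivity
  have hε1 : (1 / 2 : ℝ) ^ b ≤ 1 := pow_le_one₀ (by norm_num) (by norm_num)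
  have hb2 : (1 / 2 : ℝ) ^ (b + 2) = (1 / 2 : ℝ) ^ b / 4 := by
    rw [pow_add]
    norm_num
    ring
  rw [hb2] at hy0
  set ε : ℝ := (1 / 2 : ℝ) ^ b with hεd
  set C2 : ℝ := max C1 1 with hC2
  have hC2a : C1 ≤ C2 := le_max_left _ _
  have hC2b : 1 ≤ C2 := le_max_right _ _
  clear_value ε C2
  set A : ℝ := 257 * 40 * 256 * 8 * C2 / ε ^ 3 with hA
  have hA0 : 0 < A := by positivity
  clear_value A
  obtain ⟨Q0, hQ0⟩ := Filter.eventually_atTop.1 (FIN_ev y0 C2 (8 * A) (by positivity))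
  refine ⟨Q0, fun Q hQ U hU c hw => ?_⟩
  obtain ⟨q1, q2, q3, q4, q5, q6⟩ := hQ0 Q hQ
  obtain ⟨m1, m2⟩ := h3 Q q1
  set L : ℝ := Real.log Q with hL
  set K : ℝ := Real.log L + C2 with hK
  clear_value K
  have hK1 : 1 ≤ K := by
    have : 0 ≤ Real.log L := Real.log_nonneg (by linarith)
    linarith
  -- `A K^3 ≤ L`
  have hAK : A * K ^ 3 ≤ L := by
    have hlog : 0 ≤ Real.log L := Real.log_nonneg (by linarith)
    have h4 : K ≤ 2 * Real.log L := by linarith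
    have h5 : K ^ 3 ≤ (2 * Real.log L) ^ 3 := pow_le_pow_left₀ (by linarith) h4 3
    calc A * K ^ 3 ≤ A * (2 * Real.log L) ^ 3 := mul_le_mul_of_nonneg_left h5 hA0.le
      _ = 8 * A * Real.log L ^ 3 := by ring
      _ ≤ L := q5
  have hL4 : (3 : ℝ) ≤ L ^ 4 := by nlinarith [pow_le_pow_left₀ (by norm_num : (0:ℝ) ≤ 3) q2 4]
  have hLL4 : L ≤ L ^ 4 := by
    calc L = L ^ 1 := (pow_one L).symm
      _ ≤ L ^ 4 := pow_le_pow_right₀ (by linarith) (by norm_num)
  -- the first scale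
  set y : ℕ := ⌈L ^ 4⌉₊ with hy
  have hy1 : L ^ 4 ≤ (y : ℝ) := Nat.le_ceil _
  have hy2 : (y : ℝ) < L ^ 4 + 1 := Nat.ceil_lt_add_one (by positivity)
  have hy5 : (y : ℝ) ≤ L ^ 5 := by
    have : L ^ 5 = L * L ^ 4 := by ring
    nlinarith
  have hyr : (3 : ℝ) ≤ y := hL4.trans hy1
  have hy3 : 3 ≤ y := by exact_mod_cast hyr
  have hyQ : y ≤ Q := by
    have : (y : ℝ) ≤ Q := hy5.trans q6
    exact_mod_cast this
  have hyy0 : y0 ≤ y := by
    have : (y0 : ℝ) ≤ y := by linarith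
    exact_mod_cast this
  have hUy : y ^ (C' * (b + 2 + 1)) ≤ U := by
    have h4 : ((y : ℝ)) ^ (C' * (b + 2 + 1)) ≤ U := by
      calc ((y : ℝ)) ^ (C' * (b + 2 + 1)) ≤ (L ^ 5) ^ (C' * (b + 2 + 1)) :=
            pow_le_pow_left₀ (by positivity) hy5 _
        _ = L ^ (5 * (C' * (b + 2 + 1))) := by rw [← pow_mul]
        _ ≤ L ^ (15 * C' * (b + 1)) := by
            refine pow_le_pow_right₀ (by linarith) ?_
            nlinarith
        _ ≤ U := hU
    exact_mod_cast h4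
  have hUL : L ^ 4 ≤ (U : ℝ) := by
    refine le_trans ?_ hU
    refine pow_le_pow_right₀ (by linarith) ?_
    nlinarith
  have hf := hy0 y hyy0 U hUy
  -- the mean
  set M : ℝ := mQ Q (wt Q c) with hM
  have hM0 : 0 ≤ M := FIN_nonneg Q hw
  have hm : mQ Q (fun n => wt Q c n * ((Sv U y n).card : ℝ)) ≤ (1 + ε / 4) * (U * VV y) * M := by
    rw [hM, ← FIN_smul]
    refine FIN_mono Q fun n => ?_
    rw [mul_comm ((1 + ε / 4) * (U * VV y))]
    exact mul_le_mul_of_nonneg_left (hf n) (hw n)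
  -- the parameter
  set δ : ℝ := ε / (256 * K) with hδ
  have hK0 : 0 < K := by linarith
  have hδ0 : 0 < δ := by positivity
  clear_value δ
  have hδK : δ * (256 * K) = ε := by rw [hδ]; field_simp
  have hδ1 : δ ≤ 1 / 16 := by nlinarith
  have hinv : 1 / δ = 256 * K / ε := by
    rw [hδ]
    field_simp
  have hε3 : ε ^ 3 ≤ ε := by
    calc ε ^ 3 ≤ ε ^ 1 := pow_le_pow_of_le_one hε.le hε1 (by norm_num)
      _ = ε := pow_one _
  have hK3 : K ≤ K ^ 3 := by
    calc K = K ^ 1 := (pow_one K).symm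
      _ ≤ K ^ 3 := pow_le_pow_right₀ hK1 (by norm_num)
  have hyδ : 1 / (y : ℝ) ≤ δ := by
    have h4 : 1 / δ ≤ y := by
      rw [hinv]
      calc 256 * K / ε ≤ 256 * K / ε ^ 3 := div_le_div_of_nonneg_left (by positivity) (by positivity) hε3
        _ ≤ 257 * 40 * 256 * 8 * C2 * K ^ 3 / ε ^ 3 := by
            refine div_le_div_of_nonneg_right ?_ (by positivity)
            nlinarith
        _ = A * K ^ 3 := by rw [hA]; ring
        _ ≤ L := hAK
        _ ≤ y := hLL4.trans hy1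
    rw [div_le_iff₀ (by linarith)]
    rw [div_le_iff₀ hδ0] at h4
    linarith
  -- the sum
  set D : ℝ := ∑ p ∈ (Icc 1 Q).filter (fun p : ℕ => p.Prime ∧ y < p), 1 / (p : ℝ) with hD
  have hD0 : 0 ≤ D := Finset.sum_nonneg fun p _ => by positivity
  have hDK : D ≤ K := by
    have h4 : D ≤ ∑ p ∈ (Icc 1 Q).filter Nat.Prime, 1 / (p : ℝ) := by
      refine Finset.sum_le_sum_of_subset_of_nonneg ?_ fun p _ _ => by positivity
      intro p hp
      rw [Finset.mem_filter] at hp ⊢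
      exact ⟨hp.1, hp.2.1⟩
    linarith
  have hmain := h1 Q U y δ c (by omega) hyQ hδ0 hδ1 hyδ hw
  rw [← hD, ← hM, ← hL] at hmain
  have hVy := FINU_VV y Q (by omega) hyQ
  rw [← hD] at hVy
  have hVQ0 := FIN_VV_nonneg Q
  have hVy0 := FIN_VV_nonneg y
  have hU0 : (0 : ℝ) ≤ U := Nat.cast_nonneg _
  have hyp : (0 : ℝ) < y := by linarith
  -- the main term
  have hδε : δ ≤ ε / 256 := by nlinarith
  have h2y : 2 / (y : ℝ) ≤ ε / 128 := by
    have : 2 / (y : ℝ) = 2 * (1 / (y : ℝ)) := by ring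
    rw [this]
    linarith
  have hexp1 : Real.exp (2 / (y : ℝ)) ≤ 1 + ε / 64 := by
    have := FINU_exp (x := 2 / (y : ℝ)) (by positivity) (by linarith)
    linarith
  have hexp : Real.exp (-((1 - 3 * δ) * D)) ≤ Real.exp (-D) * (1 + ε / 32) := by
    have h4 : -((1 - 3 * δ) * D) = -D + 3 * δ * D := by ring
    rw [h4, Real.exp_add]
    refine mul_le_mul_of_nonneg_left ?_ (Real.exp_pos _).le
    have h6 : 3 * δ * D ≤ 3 * (ε / 256) := by nlinarith
    have h5 := FINU_exp (x := 3 * δ * D) (by positivity) (by linarith)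
    linarith
  have hT : Real.exp (-((1 - 3 * δ) * D)) * mQ Q (fun n => wt Q c n * ((Sv U y n).card : ℝ)) ≤
      (1 + ε / 32) * (1 + ε / 4) * (1 + ε / 64) * (U * VV Q) * M := by
    have hmn : 0 ≤ mQ Q (fun n => wt Q c n * ((Sv U y n).card : ℝ)) :=
      FIN_nonneg Q fun n => mul_nonneg (hw n) (Nat.cast_nonneg _)
    calc Real.exp (-((1 - 3 * δ) * D)) * mQ Q (fun n => wt Q c n * ((Sv U y n).card : ℝ))
        ≤ (Real.exp (-D) * (1 + ε / 32)) * ((1 + ε / 4) * (U * VV y) * M) :=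
          mul_le_mul hexp hm hmn (by positivity)
      _ = (1 + ε / 32) * (1 + ε / 4) * (U * (Real.exp (-D) * VV y)) * M := by ring
      _ ≤ (1 + ε / 32) * (1 + ε / 4) * (U * (Real.exp (2 / (y : ℝ)) * VV Q)) * M := by gcongr
      _ ≤ (1 + ε / 32) * (1 + ε / 4) * (U * ((1 + ε / 64) * VV Q)) * M := by gcongr
      _ = (1 + ε / 32) * (1 + ε / 4) * (1 + ε / 64) * (U * VV Q) * M := by ring
  -- the error
  have hlogy : 1 ≤ Real.log y := by
    rw [Real.le_log_iff_exp_le (by linarith)]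
    have := Real.exp_one_lt_d9
    linarith
  have hVQ : 1 / (C2 * L) ≤ VV Q := by
    refine le_trans ?_ m2
    refine one_div_le_one_div_of_le (by positivity) ?_
    exact mul_le_mul_of_nonneg_right hC2a (by linarith)
  have hE : (D / δ + 1) * ((U / y + 1) * (20 * (L / Real.log y) / δ)) ≤ ε / 8 * (U * VV Q) := by
    have hL0 : 0 < L := by linarith
    have f1 : D / δ + 1 ≤ 257 * K ^ 2 / ε := by
      have g1 : D / δ ≤ K / δ := div_le_div_of_nonneg_right hDK hδ0.le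
      have g2 : K / δ = 256 * K ^ 2 / ε := by
        rw [div_eq_mul_one_div, hinv]
        ring
      have g3 : 1 ≤ K ^ 2 / ε := by
        rw [le_div_iff₀ hε]
        nlinarith
      have g4 : 257 * K ^ 2 / ε = 256 * K ^ 2 / ε + K ^ 2 / ε := by ring
      linarith
    have f2 : (U : ℝ) / y + 1 ≤ 2 * (U / L ^ 4) := by
      have g1 : (U : ℝ) / y ≤ U / L ^ 4 := div_le_div_of_nonneg_left hU0 (by positivity) hy1
      have g2 : 1 ≤ (U : ℝ) / L ^ 4 := by
        rw [le_div_iff₀ (by positivity)]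
        linarith
      linarith
    have f3 : 20 * (L / Real.log y) / δ ≤ 20 * L * (256 * K / ε) := by
      rw [div_eq_mul_one_div, hinv]
      refine mul_le_mul_of_nonneg_right ?_ (by positivity)
      have : L / Real.log y ≤ L := div_le_self hL0.le hlogy
      linarith
    have f4 : (0 : ℝ) ≤ D / δ + 1 := by positivity
    have f5 : (0 : ℝ) ≤ 20 * (L / Real.log y) / δ := by positivity
    calc (D / δ + 1) * ((U / y + 1) * (20 * (L / Real.log y) / δ))
        ≤ (257 * K ^ 2 / ε) * ((2 * (U / L ^ 4)) * (20 * L * (256 * K / ε))) := by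
          refine mul_le_mul f1 ?_ (by positivity) (by positivity)
          exact mul_le_mul f2 f3 f5 (by positivity)
      _ = (A * K ^ 3) * (ε / 8 * (U / (C2 * L ^ 3))) := by
          rw [hA]
          field_simp
          ring
      _ ≤ L * (ε / 8 * (U / (C2 * L ^ 3))) := mul_le_mul_of_nonneg_right hAK (by positivity)
      _ = ε / 8 * (U * (1 / (C2 * L ^ 2))) := by
          field_simp
      _ ≤ ε / 8 * (U * (1 / (C2 * L))) := by
          have g1 : C2 * L ≤ C2 * L ^ 2 := by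
            refine mul_le_mul_of_nonneg_left ?_ (by linarith)
            nlinarith
          have g2 : 1 / (C2 * L ^ 2) ≤ 1 / (C2 * L) := one_div_le_one_div_of_le (by positivity) g1
          gcongr
      _ ≤ ε / 8 * (U * VV Q) := by gcongr
  have hE' : (D / δ + 1) * ((U / y + 1) * (2 * (L / Real.log y) / δ)) ≤ ε / 8 * (U * VV Q) := by
    refine le_trans ?_ hE
    have f1 : (0 : ℝ) ≤ D / δ + 1 := by positivity
    have f2 : (0 : ℝ) ≤ (U : ℝ) / y + 1 := by positivity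
    have f3 : (0 : ℝ) ≤ L / Real.log y / δ := by
      have : 0 ≤ L / Real.log y := div_nonneg (by linarith) (by linarith)
      exact div_nonneg this hδ0.le
    refine mul_le_mul_of_nonneg_left (mul_le_mul_of_nonneg_left ?_ f2) f1
    rw [mul_div_assoc, mul_div_assoc]
    exact mul_le_mul_of_nonneg_right (by norm_num) f3
  have hE2 := mul_le_mul_of_nonneg_right hE' hM0
  have hP0 : 0 ≤ U * VV Q * M := by positivity
  have hfin : (1 + ε / 32) * (1 + ε / 4) * (1 + ε / 64) * (U * VV Q * M) + ε / 8 * (U * VV Q * M) ≤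
      (1 + ε) * (U * VV Q * M) := by
    have g0 : (1 + ε / 32) * (1 + ε / 4) ≤ 1 + 5 / 16 * ε := by nlinarith
    have g1 : (1 + ε / 32) * (1 + ε / 4) * (1 + ε / 64) ≤ (1 + 5 / 16 * ε) * (1 + ε / 64) :=
      mul_le_mul_of_nonneg_right g0 (by linarith)
    have g2 : (1 + 5 / 16 * ε) * (1 + ε / 64) ≤ 1 + ε / 2 := by nlinarith
    have : (1 + ε / 32) * (1 + ε / 4) * (1 + ε / 64) + ε / 8 ≤ (1 + ε) := by linarith
    have := mul_le_mul_of_nonneg_right this hP0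
    linarith
  linarith

end Pool.Agent.N422.LG
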