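import Pool.Agent.N422.LG.Stm3
import Pool.Agent.N422.LG.FUND

set_option autoImplicit false

/-! LG: the fundamental lemma of the sieve for the interval `n + 1, …, n + U`, upper bound. After LG/FUND (helper545). -/

namespace Pool.Agent.N422.LG

open Finset Pool.Agent.N422.NW Pool.Agent.N422.SL Pool.Agent.N422.WS
open Pool.Agent.H373R2.T7

theorem FUNDU2 : S_FUNDU := by
  classical
  obtain ⟨C0, x0, hC0, hF⟩ := Pool.Agent.R490.P3a.sys_fundE 1 le_rfl
  refine ⟨8 * C0 * (C0 + 2) + 2, by omega, fun b => ⟨max x0 (2 ^ (b + 1)), fun y hy U hU n => ?_⟩⟩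
  have hyx : x0 ≤ y := le_trans (le_max_left _ _) hy
  have hy2 : 2 ^ (b + 1) ≤ y := le_trans (le_max_right _ _) hy
  have hy1 : 1 ≤ y := le_trans Nat.one_le_two_pow hy2
  have hyr : (1 : ℝ) ≤ y := by exact_mod_cast hy1
  have hy0 : (0 : ℝ) < y := by linarith
  set b' := C0 + b + 2 with hb'
  have key := hF b' (by omega) (y ^ (16 * (C0 * b'))) y hyx le_rfl (FUND_Q n) (FUND_per n) U 1 0 le_rfl
    (fun p hp h => (mem_pz.1 hp).2.one_lt.ne' (Nat.dvd_one.1 h))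
  have e1 : ((Icc 1 U).filter (fun m : ℕ => m ≡ 0 [MOD 1] ∧ ∀ p ∈ pz y, ¬ FUND_Q n p m)).card = (Sv U y n).card := by
    unfold Sv
    congr 1
    apply filter_congr
    intro m _
    constructor
    · rintro ⟨_, h⟩ p hp h2
      exact h p hp (by unfold FUND_Q; rwa [add_comm])
    · intro h
      refine ⟨Nat.modEq_one, fun p hp h2 => h p hp ?_⟩
      unfold FUND_Q at h2
      rwa [add_comm]
  have e2 : ∏ p ∈ pz y, (1 - (nuB (FUND_Q n) p : ℝ) / p) = VV y := by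
    unfold VV
    apply prod_congr rfl
    intro p hp
    rw [FUND_nuB n p (mem_pz.1 hp).2.one_lt.le, Nat.cast_one]
  have e3 : √((y ^ (16 * (C0 * b')) : ℕ) : ℝ) = (y : ℝ) ^ (8 * (C0 * b')) := by
    push_cast
    rw [show 16 * (C0 * b') = (8 * (C0 * b')) * 2 by ring, pow_mul]
    exact Real.sqrt_sq (by positivity)
  rw [e2, e3] at key
  have e4 : ((((Icc 1 U).filter (fun m : ℕ => m ≡ 0 [MOD 1] ∧ ∀ p ∈ pz y, ¬ FUND_Q n p m)).card : ℕ) : ℝ) = ((Sv U y n).card : ℝ) := by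
    rw [e1]
  have k2 := (abs_le.1 key).2
  rw [Nat.cast_one, div_one] at k2
  have k3 : ((Sv U y n).card : ℝ) - U * VV y ≤ (1 / 2 : ℝ) ^ b' * (U * VV y) + (y : ℝ) ^ (8 * (C0 * b')) := by
    refine le_trans (le_of_eq ?_) k2
    congr 1
    rw [e1]
  have hVV := FUND_VV y hy1
  have hVV0 : 0 < VV y := lt_of_lt_of_le (by positivity) hVV
  have hUr : (y : ℝ) ^ ((8 * C0 * (C0 + 2) + 2) * (b + 1)) ≤ U := by exact_mod_cast hU
  have hU0 : (0 : ℝ) < U := lt_of_lt_of_le (by positivity) hUr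
  have h5 : (y : ℝ) ^ (8 * (C0 * b')) ≤ (1 / 2 : ℝ) ^ (b + 1) * (U * VV y) := by
    have h6 : (y : ℝ) ^ (8 * (C0 * b') + 2) ≤ U := by
      refine le_trans (pow_le_pow_right₀ hyr ?_) hUr
      rw [hb']
      nlinarith [Nat.zero_le (C0 * C0 * b), Nat.zero_le (C0 * b)]
    have h7 : 1 / (y : ℝ) ≤ (1 / 2 : ℝ) ^ (b + 1) := by
      rw [one_div_pow]
      apply one_div_le_one_div_of_le (by positivity)
      exact_mod_cast hy2
    calc (y : ℝ) ^ (8 * (C0 * b')) = (1 / y) * ((y : ℝ) ^ (8 * (C0 * b') + 2) * (1 / y)) := by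
          rw [pow_add]
          field_simp
      _ ≤ (1 / 2 : ℝ) ^ (b + 1) * (U * VV y) := by
          apply mul_le_mul h7 _ (by positivity) (by positivity)
          exact mul_le_mul h6 hVV (by positivity) hU0.le
  have h8 : (1 / 2 : ℝ) ^ b' ≤ (1 / 2 : ℝ) ^ (b + 1) :=
    pow_le_pow_of_le_one (by norm_num) (by norm_num) (by omega)
  have h9 : (1 / 2 : ℝ) ^ b' * (U * VV y) ≤ (1 / 2 : ℝ) ^ (b + 1) * (U * VV y) :=
    mul_le_mul_of_nonneg_right h8 (by positivity)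
  have h10 : (1 / 2 : ℝ) ^ b = (1 / 2 : ℝ) ^ (b + 1) + (1 / 2 : ℝ) ^ (b + 1) := by
    rw [pow_succ]; ring
  rw [h10]
  linarith

end Pool.Agent.N422.LG
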