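import Pool.Agent.N422.LG.Stm3
import Pool.Agent.N422.NW.PS

/-! Project LG, piece UB: the number of sites not hit, in the model. -/

set_option autoImplicit false

open Finset

namespace Pool.Agent.N422.LG

open Pool.Agent.N422.NW Pool.Agent.N422.SL Pool.Agent.N422.WS

theorem UB_log {r : ℝ} (hr : 0 ≤ r) (hr1 : r ≤ 1 / 3) : -Real.log (1 - r) ≤ r + 1 * r ^ 2 := by
  have h1 : |r| < 1 := by
    rw [abs_of_nonneg hr]
    linarith
  have h2 := (abs_le.1 (Real.abs_log_sub_add_sum_range_le h1 2)).1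
  rw [abs_of_nonneg hr, Finset.sum_range_succ, Finset.sum_range_one] at h2
  norm_num at h2
  have h3 : r ^ 3 / (1 - r) ≤ 1 / 2 * r ^ 2 := by
    rw [div_le_iff₀ (by linarith)]
    have h4 : r ≤ 1 / 2 * (1 - r) := by linarith
    have h5 := mul_le_mul_of_nonneg_left h4 (sq_nonneg r)
    nlinarith
  linarith

theorem UB_cosh {x : ℝ} (hx : 1 ≤ x) : Real.cosh x ≤ 7 / 5 * Real.sinh x := by
  rw [Real.cosh_eq, Real.sinh_eq]
  have h1 : Real.exp 1 ≤ Real.exp x := Real.exp_le_exp.2 hx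
  have h2 := Real.exp_one_gt_d9
  have h3 : Real.exp (-x) * Real.exp x = 1 := by
    rw [← Real.exp_add]
    simp
  have h4 := Real.exp_pos (-x)
  have h5 : (2.7 : ℝ) ≤ Real.exp x := by
    norm_num at h2 ⊢
    linarith
  have h6 : 2.7 * Real.exp (-x) ≤ 1 := by
    nlinarith
  have h7 : 6 * Real.exp (-x) ≤ Real.exp x := by
    norm_num at h5 h6 ⊢
    linarith
  linarith

theorem UB_hit {N k : ℕ} (γ : St N k) :
    ∑ i : Fin N, (if Hit (alive γ i) (γ i) then (1 : ℝ) else 0) ≤ k - ((alive γ N).card : ℝ) := by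
  have h := PSab_hit (β := fun _ : Fin N => 0) (fun _ _ _ => le_rfl) γ 0
  have h0 : (univ.filter (fun i : Fin N => (fun _ : Fin N => 0) i = 0)) = univ := by
    simp
  have h1 : PSab (fun _ : Fin N => 0) γ 0 = univ := by
    unfold PSab
    simp
  have h2 : PSab (fun _ : Fin N => 0) γ (0 + 1) = alive γ N := by
    unfold PSab alive
    congr 1
    funext a
    simp
  rw [h0, h1, h2, card_univ, Fintype.card_fin] at h
  exact h

theorem UB_alive {N k : ℕ} (γ : St N k) (i : Fin N) :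
    ((alive γ N).card : ℝ) ≤ ((alive γ i).card : ℝ) := by
  have h : alive γ N ⊆ alive γ i := by
    intro a ha
    unfold alive at *
    rw [mem_filter] at *
    exact ⟨mem_univ _, fun j _ => ha.2 j j.2⟩
  exact_mod_cast Finset.card_le_card h

theorem t_UB (h : S_NW1) : S_UB := by
  intro N k m n q ν f l hm hq hν hf hL hl hl8
  have hq0 : ∀ i, 0 < q i := fun i => lt_of_le_of_lt (Nat.cast_nonneg k) (hq i)
  have hmR : (0 : ℝ) < m := by exact_mod_cast hm
  have hx : ∀ i, (1 : ℝ) ≤ ν i * (1 / m) := by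
    intro i
    rw [mul_one_div, le_div_iff₀ hmR, one_mul]
    exact_mod_cast hν i
  have hs : ∀ i, (1 : ℝ) ≤ Real.sinh (ν i * (1 / m)) := fun i =>
    (hx i).trans (Real.self_le_sinh_iff.2 (by linarith [hx i]))
  have hc : ∀ i, Real.cosh (ν i * (1 / m)) ≤ 7 / 5 * Real.sinh (ν i * (1 / m)) := fun i =>
    UB_cosh (hx i)
  have hRs : ∀ i, l / Real.sinh (ν i * (1 / m)) * Real.sinh (ν i * (1 / m)) = l := fun i =>
    div_mul_cancel₀ l (by linarith [hs i])
  have hR0 : ∀ i, 0 ≤ l / Real.sinh (ν i * (1 / m)) := fun i =>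
    div_nonneg hl.le (by linarith [hs i])
  have hRc : ∀ i, l / Real.sinh (ν i * (1 / m)) * Real.cosh (ν i * (1 / m)) ≤ 7 / 5 * l := by
    intro i
    have e1 := mul_le_mul_of_nonneg_left (hc i) (hR0 i)
    have e2 := hRs i
    linarith
  have hR1 : ∀ i, l / Real.sinh (ν i * (1 / m)) ≤ l := fun i =>
    div_le_self hl.le (hs i)
  have key := h N k n q ν f hq hf hL (1 / m) (by positivity)
    (fun i => l / Real.sinh (ν i * (1 / m))) 1 (1 / 3) hR0 zero_le_one (by norm_num)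
    (fun r hr hr1 => UB_log hr hr1) (fun i => by
      have e1 := hRc i
      have e2 := hR1 i
      show l / Real.sinh (ν i * (1 / m)) * (Real.cosh (ν i * (1 / m)) + 1) ≤ 1 / 3
      rw [mul_add, mul_one]
      linarith)
  have hw : ∀ γ, 0 ≤ muP q γ * f γ := fun γ => mul_nonneg (PS_muP q hq γ) (hf γ)
  obtain ⟨G, hG⟩ : ∃ G : ℝ, G = ∑ i, 1 / q i := ⟨_, rfl⟩
  obtain ⟨A, hA⟩ : ∃ A : ℝ, A = ∑ γ, muP q γ * f γ * ((alive γ N).card : ℝ) := ⟨_, rfl⟩
  obtain ⟨E, hE⟩ : ∃ E : ℝ, E = ∑ γ, muP q γ * f γ := ⟨_, rfl⟩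
  have hG0 : 0 ≤ G := by
    rw [hG]
    exact Finset.sum_nonneg fun i _ => (one_div_pos.2 (hq0 i)).le
  have hA0 : 0 ≤ A := by
    rw [hA]
    exact Finset.sum_nonneg fun γ _ => mul_nonneg (hw γ) (Nat.cast_nonneg _)
  have hE0 : 0 ≤ E := by
    rw [hE]
    exact Finset.sum_nonneg fun γ _ => hw γ
  have hpt : ∀ γ : St N k, l * (G * ((alive γ N).card : ℝ) -
      (1 + 7 / 5 * l) * (k - ((alive γ N).card : ℝ))) ≤
      ∑ i, l / Real.sinh (ν i * (1 / m)) * Real.sinh (ν i * (1 / m)) * (((alive γ i).card : ℝ) / q i -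
      (1 + 1 * (l / Real.sinh (ν i * (1 / m))) * Real.cosh (ν i * (1 / m))) *
        (if Hit (alive γ i) (γ i) then 1 else 0)) := by
    intro γ
    have e1 : ∑ i : Fin N, l * (((alive γ N).card : ℝ) * (1 / q i) -
        (1 + 7 / 5 * l) * (if Hit (alive γ i) (γ i) then (1 : ℝ) else 0)) ≤
      ∑ i, l / Real.sinh (ν i * (1 / m)) * Real.sinh (ν i * (1 / m)) * (((alive γ i).card : ℝ) / q i -
      (1 + 1 * (l / Real.sinh (ν i * (1 / m))) * Real.cosh (ν i * (1 / m))) *
        (if Hit (alive γ i) (γ i) then 1 else 0)) := by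
      refine Finset.sum_le_sum fun i _ => ?_
      rw [hRs i]
      refine mul_le_mul_of_nonneg_left ?_ hl.le
      have e2 : ((alive γ N).card : ℝ) * (1 / q i) ≤ ((alive γ i).card : ℝ) / q i := by
        rw [mul_one_div]
        exact div_le_div_of_nonneg_right (UB_alive γ i) (hq0 i).le
      have e3 : (1 + 1 * (l / Real.sinh (ν i * (1 / m))) * Real.cosh (ν i * (1 / m))) *
        (if Hit (alive γ i) (γ i) then (1 : ℝ) else 0) ≤
          (1 + 7 / 5 * l) * (if Hit (alive γ i) (γ i) then (1 : ℝ) else 0) := by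
        refine mul_le_mul_of_nonneg_right ?_ (by split_ifs <;> norm_num)
        have := hRc i
        linarith
      linarith
    refine le_trans ?_ e1
    rw [← Finset.mul_sum, Finset.sum_sub_distrib, ← Finset.mul_sum, ← Finset.mul_sum, ← hG]
    refine mul_le_mul_of_nonneg_left ?_ hl.le
    have e4 := UB_hit γ
    have e5 : (0 : ℝ) ≤ 1 + 7 / 5 * l := by linarith
    have e6 := mul_le_mul_of_nonneg_left e4 e5
    linarith
  have hsum : l * (G * A - (1 + 7 / 5 * l) * (k * E - A)) ≤ n * (1 / m) * E := by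
    rw [← hE] at key
    refine le_trans ?_ key
    have e1 : l * (G * A - (1 + 7 / 5 * l) * (k * E - A)) =
        ∑ γ, muP q γ * f γ * (l * (G * ((alive γ N).card : ℝ) -
      (1 + 7 / 5 * l) * (k - ((alive γ N).card : ℝ)))) := by
      rw [hA, hE]
      simp only [Finset.mul_sum, ← Finset.sum_sub_distrib]
      refine Finset.sum_congr rfl fun γ _ => ?_
      ring
    rw [e1]
    exact Finset.sum_le_sum fun γ _ => mul_le_mul_of_nonneg_left (hpt γ) (hw γ)
  rw [← hG, ← hA, ← hE]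
  obtain ⟨D, hD⟩ : ∃ D : ℝ, D = (n / m) / l := ⟨_, rfl⟩
  have hD0 : 0 ≤ D := by
    rw [hD]
    positivity
  have hDl : (n : ℝ) * (1 / m) = l * D := by
    rw [hD]
    field_simp
  rw [← hD]
  have e1 : G * A + (1 + 7 / 5 * l) * A ≤ (1 + 7 / 5 * l) * (k * E) + D * E := by
    have : l * (G * A - (1 + 7 / 5 * l) * (k * E - A)) ≤ l * (D * E) := by
      rw [hDl] at hsum
      linarith
    have := le_of_mul_le_mul_left this hl
    linarith
  have hc0 : (0 : ℝ) < 1 + 7 / 5 * l := by linarith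
  refine le_of_mul_le_mul_left (a := 1 + 7 / 5 * l) ?_ hc0
  have e2 : (1 + 7 / 5 * l) * (1 - 2 * l) ≤ 1 := by nlinarith
  have e3 : (1 + 7 / 5 * l) * (1 - 2 * l) * (G * A) ≤ 1 * (G * A) :=
    mul_le_mul_of_nonneg_right e2 (mul_nonneg hG0 hA0)
  have e4 : 0 ≤ 7 / 5 * l * (D * E) := by positivity
  nlinarith

end Pool.Agent.N422.LG
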