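import Pool.Agent.N422.LG.MOD3
import Pool.Agent.N422.LG.ARG
import Pool.Agent.N422.LG.HIT
import Pool.Agent.N422.LG.REC
import Pool.Agent.N422.LG.FUND
import Pool.Agent.N422.LG.MERB
import Pool.Agent.N422.LG.FIN
import Pool.Agent.N422.LG.UB
import Pool.Agent.N422.LG.ARDG
import Pool.Agent.N422.LG.HITU
import Pool.Agent.N422.LG.RECU
import Pool.Agent.N422.LG.FUNDU2
import Pool.Agent.N422.LG.FINU
import Pool.Agent.N422.NW.CORE
import Pool.Agent.N422.NW.KER
import Pool.Agent.N422.NW.POLY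
import Pool.Agent.N422.NW.JEN
import Pool.Agent.N422.WS.ALL

/-! Project LG: assembly of the two-sided law. Author: helper422 (parts: helpers 919, 286, 692, 289, 545, 80, 81; 137, 592, 602,
681, 628). -/

set_option autoImplicit false

namespace Pool.Agent.N422.LG

open Finset Pool.Agent.N422.NW Pool.Agent.N422.SL Pool.Agent.N422.WS

theorem law_lower : S_FIN := t_FIN (t_REC (t_HIT (t_MOD3 (t_W t_AV) WS.km) t_ARG)) t_FUND t_MERB

theorem law_upper : S_FINU := t_FINU (t_RECU (t_HITU (t_UB (t_NW1 t_KER t_POLY t_JEN t_AV)) t_ARDG)) FUNDU2 t_MERB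

end Pool.Agent.N422.LG
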