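import Pool.Agent.N422.LG.Stm
import Pool.Agent.N422.WS.MOD

/-! Project LG (helper422), leaf MOD3 (helper919): the one-sided inequality in the model. -/

set_option autoImplicit false

open Finset

namespace Pool.Agent.N422.LG

open Pool.Agent.N422.NW Pool.Agent.N422.SL Pool.Agent.N422.WS

theorem MOD3_core (h1 : S_W) (h2 : S_KM) {N m n : ℕ} {g : Fin N → ℝ} {ν : Fin N → ℕ}
    {f : Finset (Fin N) → ℝ} (hm : 0 < m) (hg : ∀ i, 0 ≤ g i ∧ g i ≤ 1) (hν : ∀ i, m ≤ ν i)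
    (hL : LevT ν n f) (hf : ∀ T, 0 ≤ f T) (hE : 0 < ∑ T, muT g T * f T) {x : ℝ} (hx : 0 < x)
    (hx2 : x ≤ 1 / 2) :
    x * (1 - x) * ∑ i, ∑ T, muT g T * f T * (if i ∈ T then 1 else 0) ≤
      (x * ∑ i, g i + 5 * (n / m)) * ∑ T, muT g T * f T := by
  have hm' : (0 : ℝ) < m := by exact_mod_cast hm
  have ht : (0 : ℝ) < 1 / m := by positivity
  obtain ⟨W, hW⟩ : ∃ W : Fin N → ℝ, W = fun i => Wv (1 / m) (ν i) := ⟨_, rfl⟩
  have hW5 : ∀ i, 1 / 5 ≤ W i := by
    intro i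
    rw [hW]
    refine (h1 (ν i) (1 / m) ht).2.2.2.2.2.1 ?_
    rw [mul_one_div, le_div_iff₀ hm', one_mul]
    exact_mod_cast hν i
  have hW0 : ∀ i, 0 < W i := fun i => by linarith [hW5 i]
  obtain ⟨E, hEd⟩ : ∃ E : ℝ, E = ∑ T, muT g T * f T := ⟨_, rfl⟩
  obtain ⟨EI, hEI⟩ : ∃ EI : Fin N → ℝ, EI = fun i => ∑ T, muT g T * f T * (if i ∈ T then 1 else 0) :=
    ⟨_, rfl⟩
  have hEI0 : ∀ i, 0 ≤ EI i := by
    intro i
    rw [hEI]
    refine Finset.sum_nonneg fun T _ => mul_nonneg (mul_nonneg (MOD_muT_nonneg hg T) (hf T)) ?_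
    split_ifs <;> norm_num
  obtain ⟨l, hl⟩ : ∃ l : Fin N → ℝ, l = fun i => x / (5 * W i) := ⟨_, rfl⟩
  have hlW : ∀ i, l i * W i = x / 5 := by
    intro i
    rw [hl]
    have := (hW0 i).ne'
    simp only
    field_simp
  have hl2W : ∀ i, l i ^ 2 * W i ≤ x ^ 2 / 5 := by
    intro i
    have h3 : l i ^ 2 * W i = x ^ 2 / 25 / W i := by
      rw [hl]
      have := (hW0 i).ne'
      simp only
      field_simp
      ring
    rw [h3, div_le_iff₀ (hW0 i)]
    have h4 := hW5 i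
    nlinarith [sq_nonneg x]
  have hla : ∀ i, |l i| ≤ 1 / 2 := by
    intro i
    have h3 : |l i| = x / (5 * W i) := by
      rw [hl]
      simp only
      rw [abs_div, abs_of_pos hx, abs_of_pos (by linarith [hW0 i])]
    rw [h3, div_le_iff₀ (by linarith [hW0 i])]
    nlinarith [hW5 i]
  have hmax : ∀ T, max (f T) 0 = f T := fun T => max_eq_left (hf T)
  have habs : ∀ T, |f T| = f T := fun T => abs_of_nonneg (hf T)
  have h3 := h2 N n g l ν f (1 / m) ht hg hla hL (by simp only [hmax]; exact hE)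
  simp only [hmax, habs] at h3
  rw [div_self hE.ne', Real.log_one, add_zero, ← hEd] at h3
  have h4 : ∑ T, muT g T * f T * (∑ i ∈ T, (l i - l i ^ 2) * Wv (1 / m) (ν i) -
      ∑ i, l i * g i * Wv (1 / m) (ν i)) =
      ∑ i, ((l i - l i ^ 2) * W i * EI i - l i * g i * W i * E) := by
    have e1 : ∀ T : Finset (Fin N), muT g T * f T * (∑ i ∈ T, (l i - l i ^ 2) * Wv (1 / m) (ν i) -
        ∑ i, l i * g i * Wv (1 / m) (ν i)) =
        muT g T * f T * (∑ i ∈ T, (l i - l i ^ 2) * W i) -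
          (∑ i, l i * g i * W i) * (muT g T * f T) := by
      intro T
      rw [hW]
      ring
    rw [Finset.sum_congr rfl fun T _ => e1 T, Finset.sum_sub_distrib, MOD_swap, ← Finset.mul_sum,
      ← hEd, Finset.sum_sub_distrib, Finset.sum_mul, hEI]
  rw [h4] at h3
  have h5 : ∀ i, (x / 5 - x ^ 2 / 5) * EI i - x / 5 * (g i * E) ≤
      (l i - l i ^ 2) * W i * EI i - l i * g i * W i * E := by
    intro i
    have e1 : (l i - l i ^ 2) * W i * EI i - l i * g i * W i * E =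
        x / 5 * EI i - l i ^ 2 * W i * EI i - x / 5 * (g i * E) := by
      linear_combination (EI i - g i * E) * hlW i
    rw [e1]
    have e2 : l i ^ 2 * W i * EI i ≤ x ^ 2 / 5 * EI i := mul_le_mul_of_nonneg_right (hl2W i) (hEI0 i)
    linarith
  have h6 := (Finset.sum_le_sum fun i (_ : i ∈ (univ : Finset (Fin N))) => h5 i).trans h3
  rw [Finset.sum_sub_distrib, ← Finset.mul_sum, ← Finset.mul_sum, ← Finset.sum_mul] at h6
  rw [← hEd]
  have h7 : ∀ i, ∑ T, muT g T * f T * (if i ∈ T then (1 : ℝ) else 0) = EI i := by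
    intro i; rw [hEI]
  simp only [h7]
  have h9 : (n : ℝ) * (1 / m) = n / m := by ring
  rw [h9] at h6
  nlinarith [h6]

theorem t_MOD3 (h1 : S_W) (h2 : S_KM) : S_MOD3 := by
  intro N m n g ν f l hm hg hν hL hf hl hl2
  have hm' : (0 : ℝ) < m := by exact_mod_cast hm
  have hnn : ∀ T, 0 ≤ muT g T * f T := fun T => mul_nonneg (MOD_muT_nonneg hg T) (hf T)
  have hE0 : 0 ≤ ∑ T, muT g T * f T := Finset.sum_nonneg fun T _ => hnn T
  have hS0 : 0 ≤ ∑ i, ∑ T, muT g T * f T * (if i ∈ T then (1 : ℝ) else 0) := by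
    refine Finset.sum_nonneg fun i _ => Finset.sum_nonneg fun T _ => mul_nonneg (hnn T) ?_
    split_ifs <;> norm_num
  rcases hE0.eq_or_lt with hE | hE
  · have h3 : ∀ T ∈ (univ : Finset (Finset (Fin N))), muT g T * f T = 0 :=
      (Finset.sum_eq_zero_iff_of_nonneg fun T _ => hnn T).1 hE.symm
    rw [← hE]
    have h4 : ∀ i, ∑ T, muT g T * f T * (if i ∈ T then (1 : ℝ) else 0) = 0 := by
      intro i
      refine Finset.sum_eq_zero fun T hT => ?_
      rw [h3 T hT, zero_mul]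
    rw [mul_zero]
    exact le_of_eq (Finset.sum_eq_zero fun i _ => h4 i)
  · have hcore := MOD3_core h1 h2 hm hg hν hL hf hE hl hl2
    obtain ⟨A, hA⟩ : ∃ A : ℝ, A = n / m := ⟨_, rfl⟩
    rw [← hA] at hcore ⊢
    generalize ∑ T, muT g T * f T = E at *
    generalize ∑ i, ∑ T, muT g T * f T * (if i ∈ T then (1 : ℝ) else 0) = S at *
    generalize ∑ i, g i = G at *
    have h5 : (1 - l) * S ≤ (G + 5 * A / l) * E := by
      have h6 : l * ((1 - l) * S) ≤ l * ((G + 5 * A / l) * E) := by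
        have h7 : l * ((G + 5 * A / l) * E) = (l * G + 5 * A) * E := by
          field_simp
        rw [h7]
        linarith
      exact le_of_mul_le_mul_left h6 hl
    have h8 : S ≤ (1 + 2 * l) * ((1 - l) * S) := by
      nlinarith [mul_nonneg (mul_nonneg hl.le (by linarith : (0:ℝ) ≤ 1 - 2 * l)) hS0]
    calc S ≤ (1 + 2 * l) * ((1 - l) * S) := h8
      _ ≤ (1 + 2 * l) * ((G + 5 * A / l) * E) := mul_le_mul_of_nonneg_left h5 (by linarith)
      _ = (1 + 2 * l) * (G + 5 * A / l) * E := by ring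

end Pool.Agent.N422.LG
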