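import Pool.Agent.N422.WS.Stm

/-! Project LG (helper422): limits of all nonnegative sieve weights for large gaps and irregularities in short intervals:
definitions and statements of the self-contained pieces. -/

set_option autoImplicit false

open Finset

namespace Pool.Agent.N422.LG

open Pool.Agent.N422.NW Pool.Agent.N422.SL Pool.Agent.N422.WS

/-- the one-sided inequality in the model (LG/MOD3) -/
def S_MOD3 : Prop := ∀ (N m n : ℕ) (g : Fin N → ℝ) (ν : Fin N → ℕ) (f : Finset (Fin N) → ℝ) (l : ℝ), 0 < m →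
  (∀ i, 0 ≤ g i ∧ g i ≤ 1) → (∀ i, m ≤ ν i) → LevT ν n f → (∀ T, 0 ≤ f T) → 0 < l → l ≤ 1 / 2 →
  ∑ i, ∑ T, muT g T * f T * (if i ∈ T then 1 else 0) ≤
    (1 + 2 * l) * (∑ i, g i + 5 * (n / m) / l) * ∑ T, muT g T * f T

/-- from the model to periodic functions, general periods (LG/ARG) -/
def S_ARG : Prop := ∀ (N : ℕ) (q : Fin N → ℕ) (Om : Fin N → Finset ℕ) (ν : Fin N → ℕ) (n J M : ℕ) (per : ℕ → ℕ)
  (F : ℕ → ℕ → ℝ),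
  Function.Injective q → (∀ i, (q i).Prime) → (∀ i, Om i ⊆ range (q i) ∧ 0 < (Om i).card ∧ (Om i).card < q i) →
  0 < M → (∀ i, q i ∣ M) → (∀ j ∈ range J, Function.Periodic (F j) (per j) ∧ per j ∣ M) →
  (∀ j ∈ range J, ∑ i ∈ univ.filter (fun i => q i ∣ per j), ν i ≤ n) →
  ∃ f : Finset (Fin N) → ℝ, LevT ν n f ∧
    (∀ (T : Finset (Fin N)) (b : ℝ), (∀ x : ℕ, TT q Om x = T → b ≤ ∑ j ∈ range J, F j x) → b ≤ f T) ∧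
    ∀ G : Finset (Fin N) → ℝ, ∑ T, muT (fun i => ((Om i).card : ℝ) / q i) T * f T * G T =
      (∑ x ∈ range M, (∑ j ∈ range J, F j x) * G (TT q Om x)) / M

/-- the mean over the period `Q!` -/
noncomputable def mQ (Q : ℕ) (F : ℕ → ℝ) : ℝ := (∑ n ∈ range Q.factorial, F n) / (Q.factorial : ℝ)

/-- the number of hits: pairs `p ∈ P`, `h ∈ S` with `p ∣ n + h` -/
noncomputable def hit (P S : Finset ℕ) (n : ℕ) : ℝ := ∑ p ∈ P, ((S.filter (fun h => p ∣ n + h)).card : ℝ)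

/-- the number of hits under a nonnegative weight (LG/HIT) -/
def S_HIT : Prop := ∀ (Q U R : ℕ) (y l : ℝ) (P : Finset ℕ) (S : ℕ → Finset ℕ) (c : ℕ → ℕ → ℝ), 1 < y → 0 < l →
  l ≤ 1 / 2 → 0 < R → R ∣ Q.factorial → (∀ p ∈ P, p.Prime ∧ y < p ∧ p ≤ Q ∧ ¬ p ∣ R) →
  (∀ n, S (n + R) = S n) → (∀ n, S n ⊆ Icc 1 U) → (∀ n, 0 ≤ wt Q c n) →
  mQ Q (fun n => wt Q c n * hit P (S n) n) ≤
    (1 + 2 * l) * ((∑ p ∈ P, 1 / (p : ℝ)) * mQ Q (fun n => wt Q c n * ((S n).card : ℝ)) +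
      (U / y + 1) * (10 * (Real.log Q / Real.log y) / l) * mQ Q (wt Q c))

/-- the `h ≤ U` for which `n + h` has no prime factor `≤ y` -/
def Sv (U y n : ℕ) : Finset ℕ := (Icc 1 U).filter (fun h => ∀ p ∈ (Icc 1 y).filter Nat.Prime, ¬ p ∣ n + h)

/-- the density -/
noncomputable def VV (y : ℕ) : ℝ := ∏ p ∈ (Icc 1 y).filter Nat.Prime, (1 - 1 / (p : ℝ))

/-- the recursion over the scales (LG/REC) -/
def S_REC : Prop := ∀ (Q U y : ℕ) (δ : ℝ) (c : ℕ → ℕ → ℝ), 2 ≤ y → y ≤ Q → 0 < δ → δ ≤ 1 / 16 → 1 / (y : ℝ) ≤ δ →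
  (∀ n, 0 ≤ wt Q c n) →
  Real.exp (-((1 + 8 * δ) * ∑ p ∈ (Icc 1 Q).filter (fun p : ℕ => p.Prime ∧ y < p), 1 / (p : ℝ))) *
      mQ Q (fun n => wt Q c n * ((Sv U y n).card : ℝ)) -
    ((∑ p ∈ (Icc 1 Q).filter (fun p : ℕ => p.Prime ∧ y < p), 1 / (p : ℝ)) / δ + 1) * ((U / y + 1) *
      (20 * (Real.log Q / Real.log y) / δ)) * mQ Q (wt Q c) ≤
    mQ Q (fun n => wt Q c n * ((Sv U Q n).card : ℝ))

/-- the fundamental lemma (LG/FUND) -/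
def S_FUND : Prop := ∃ C : ℕ, 1 ≤ C ∧ ∀ b : ℕ, ∃ y0 : ℕ, ∀ y : ℕ, y0 ≤ y → ∀ U : ℕ, y ^ (C * (b + 1)) ≤ U → ∀ n : ℕ,
  (1 - (1 / 2 : ℝ) ^ b) * (U * VV y) ≤ ((Sv U y n).card : ℝ)

/-- Mertens, bounded errors (LG/MERB) -/
def S_MERB : Prop := ∃ C : ℝ, 0 < C ∧ ∀ Q : ℕ, 3 ≤ Q →
  ∑ p ∈ (Icc 1 Q).filter Nat.Prime, 1 / (p : ℝ) ≤ Real.log (Real.log Q) + C ∧ 1 / (C * Real.log Q) ≤ VV Q

/-- the theorem (LG/FIN) -/
def S_FIN : Prop := ∃ C : ℕ, 1 ≤ C ∧ ∀ b : ℕ, ∃ Q0 : ℕ, ∀ Q : ℕ, Q0 ≤ Q → ∀ U : ℕ,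
  Real.log Q ^ (C * (b + 1)) ≤ U → ∀ c : ℕ → ℕ → ℝ, (∀ n, 0 ≤ wt Q c n) →
  (1 - (1 / 2 : ℝ) ^ b) * (U * VV Q) * mQ Q (wt Q c) ≤ mQ Q (fun n => wt Q c n * ((Sv U Q n).card : ℝ))

end Pool.Agent.N422.LG
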