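import Pool.Agent.N422.LG.Stm

/-! Project LG (helper422), second part: the exponent two. -/

set_option autoImplicit false

open Finset

namespace Pool.Agent.N422.LG

open Pool.Agent.N422.NW Pool.Agent.N422.SL Pool.Agent.N422.WS

/-- the primes in `(z, Q]` -/
def PQ (Q z : ℕ) : Finset ℕ := (Icc 1 Q).filter (fun p : ℕ => p.Prime ∧ z < p)

/-- the recursion over the scales, with relative errors (LG/REC2) -/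
def S_REC2 : Prop := ∀ (Q U y : ℕ) (δ K : ℝ) (c : ℕ → ℕ → ℝ), 2 ≤ y → y ≤ Q → 0 < δ → δ ≤ 1 / 16 → 1 / (y : ℝ) ≤ δ →
  (∀ n, 0 ≤ wt Q c n) →
  (∀ z : ℕ, y ≤ z → z ≤ Q → Real.exp (-(∑ p ∈ PQ Q z, 1 / (p : ℝ))) * (Real.log Q / Real.log z) ≤ K) →
  Real.exp (-((1 + 8 * δ) * ∑ p ∈ PQ Q y, 1 / (p : ℝ))) * mQ Q (fun n => wt Q c n * ((Sv U y n).card : ℝ)) -
    ((∑ p ∈ PQ Q y, 1 / (p : ℝ)) / δ + 1) * ((U / y + 1) * (20 * K / δ)) * mQ Q (wt Q c) ≤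
    mQ Q (fun n => wt Q c n * ((Sv U Q n).card : ℝ))

/-- Mertens, bounded errors, all scales (LG/MERB2) -/
def S_MERB2 : Prop := ∃ K : ℝ, 1 ≤ K ∧ ∀ z Q : ℕ, 2 ≤ z → z ≤ Q →
  Real.exp (-(∑ p ∈ PQ Q z, 1 / (p : ℝ))) * (Real.log Q / Real.log z) ≤ K ∧
  Real.log z / Real.log Q ≤ K * Real.exp (-(∑ p ∈ PQ Q z, 1 / (p : ℝ))) ∧
  1 / (K * Real.log z) ≤ VV z ∧ VV z ≤ K / Real.log z

/-- the linear sieve lower bound at level `y ^ e` (LG/LIN2: `e = 2`; LG/LINW: `e = 17/8`) -/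
def S_LIN (e : ℝ) : Prop := ∀ ε : ℝ, 0 < ε → ∃ c : ℝ, 0 < c ∧ ∃ y0 : ℕ, ∀ y : ℕ, y0 ≤ y → ∀ U : ℕ,
  (y : ℝ) ^ (e + ε) ≤ U → ∀ n : ℕ, c * (U * VV y) ≤ ((Sv U y n).card : ℝ)

/-- the theorem with the exponent `e` (LG/FIN2) -/
def S_FIN2 (e : ℝ) : Prop := ∀ ε : ℝ, 0 < ε → ∃ κ : ℝ, 0 < κ ∧ ∃ Q0 : ℕ, ∀ Q : ℕ, Q0 ≤ Q → ∀ U : ℕ,
  Real.log Q ^ (e + ε) ≤ U → ∀ c : ℕ → ℕ → ℝ, (∀ n, 0 ≤ wt Q c n) →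
  κ * (U / Real.log Q) * mQ Q (wt Q c) ≤ mQ Q (fun n => wt Q c n * ((Sv U Q n).card : ℝ))

end Pool.Agent.N422.LG
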