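import Pool.Agent.N422.LG.Stm2
import Pool.Agent.N422.LG.Stm3

/-! Project LG (helper422), fourth part: the upper bound with the exponent one. -/

set_option autoImplicit false

open Finset

namespace Pool.Agent.N422.LG

open Pool.Agent.N422.NW Pool.Agent.N422.SL Pool.Agent.N422.WS

/-- the recursion over the scales, upper bound, relative errors (LG/RECU2) -/
def S_RECU2 : Prop := ∀ (Q U y : ℕ) (δ K : ℝ) (c : ℕ → ℕ → ℝ), 2 ≤ y → y ≤ Q → 0 < δ → δ ≤ 1 / 16 → 1 / (y : ℝ) ≤ δ →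
  (∀ n, 0 ≤ wt Q c n) →
  (∀ z : ℕ, y ≤ z → z ≤ Q →
    Real.exp (-((1 - 3 * δ) * ∑ p ∈ PQ Q z, 1 / (p : ℝ))) * (Real.log Q / Real.log z) ≤ K) →
  mQ Q (fun n => wt Q c n * ((Sv U Q n).card : ℝ)) ≤
    Real.exp (-((1 - 3 * δ) * ∑ p ∈ PQ Q y, 1 / (p : ℝ))) * mQ Q (fun n => wt Q c n * ((Sv U y n).card : ℝ)) +
    ((∑ p ∈ PQ Q y, 1 / (p : ℝ)) / δ + 1) * ((U / y + 1) * (2 * K / δ)) * mQ Q (wt Q c)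

/-- an upper bound sieve (LG/SUB) -/
def S_SUB : Prop := ∀ ε : ℝ, 0 < ε → ∃ C : ℝ, 0 < C ∧ ∃ y0 : ℕ, ∀ y : ℕ, y0 ≤ y → ∀ U : ℕ,
  (y : ℝ) ^ (1 + ε) ≤ U → ∀ n : ℕ, ((Sv U y n).card : ℝ) ≤ C * (U * VV y)

/-- the upper bound with the exponent one (LG/FIN3) -/
def S_FIN3 : Prop := ∀ ε : ℝ, 0 < ε → ∃ C : ℝ, 0 < C ∧ ∃ Q0 : ℕ, ∀ Q : ℕ, Q0 ≤ Q → ∀ U : ℕ,
  Real.log Q ^ (1 + ε) ≤ U → ∀ c : ℕ → ℕ → ℝ, (∀ n, 0 ≤ wt Q c n) →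
  mQ Q (fun n => wt Q c n * ((Sv U Q n).card : ℝ)) ≤ C * (U / Real.log Q) * mQ Q (wt Q c)

end Pool.Agent.N422.LG
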